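import Pool.Agent.H.MP_0ae2e1_co.Deg

set_option autoImplicit false

namespace Pool.Agent.H.MP_0ae2e1_co

open Classical

section

variable {V : Type*} (H : SimpleGraph V) (N D : Finset V)

/-- the edge `a b` is a bridge of `H[N]`, in terms of cuts -/
def Br (a b : V) : Prop :=
  ∃ Y ⊆ N, a ∈ Y ∧ b ∉ Y ∧ ∀ p ∈ Y, ∀ q ∈ N, q ∉ Y → H.Adj p q → p = a ∧ q = b

/-- `v` is incident with a bridge of `H[N]` -/
def NFv (v : V) : Prop := ∃ b ∈ N, H.Adj v b ∧ Br H N v b

/-- `v` lies in a triangle of `H[N]` -/
def inT (v : V) : Prop := ∃ a ∈ N, ∃ b ∈ N, H.Adj v a ∧ H.Adj v b ∧ H.Adj a b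

/-- weight -/
noncomputable def om (v : V) : ℤ := if inT H N v then 2 else 3

/-- weighted difference -/
noncomputable def gg (v : V) : ℤ :=
  om H N v * (if v ∈ D then 1 else 0) - om H N v * (if NFv H N v then 1 else 0)

/-- hypotheses of the block lemma -/
structure BlockHyp : Prop where
  cubic : ∀ v ∈ N, dg H N v = 3
  dia : ∀ u ∈ N, ∀ v ∈ N, ∀ y ∈ N, ∀ z ∈ N, H.Adj u v → y ≠ z → H.Adj u y → H.Adj v y →
    H.Adj u z → H.Adj v z → False
  triD : ∀ v ∈ N, inT H N v → v ∈ D ∨ NFv H N v
  cyc : ∀ W ⊆ N, ∀ (s : V → V) (σ : V → Bool) (u0 : V), CycData H W s σ u0 → 2 ≤ (W ∩ D).card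

variable {H N D}

theorem ee_eq_card (A B : Finset V) :
    ee H A B = ((A ×ˢ B).filter (fun p => H.Adj p.1 p.2)).card := by
  unfold ee
  simp_rw [dg_eq_sum]
  rw [Finset.card_filter, Finset.sum_product]

theorem ee_unique {A B : Finset V} (h : ee H A B ≤ 1) {a a' b b' : V} (ha : a ∈ A) (ha' : a' ∈ A)
    (hb : b ∈ B) (hb' : b' ∈ B) (hab : H.Adj a b) (hab' : H.Adj a' b') : a' = a ∧ b' = b := by
  rw [ee_eq_card, Finset.card_le_one] at h
  have := h (a', b') (by simp [ha', hb', hab']) (a, b) (by simp [ha, hb, hab])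
  rw [Prod.mk.injEq] at this
  exact this

theorem ee_le_one {A B : Finset V} {a b : V}
    (h : ∀ p ∈ A, ∀ q ∈ B, H.Adj p q → p = a ∧ q = b) : ee H A B ≤ 1 := by
  rw [ee_eq_card, Finset.card_le_one]
  rintro ⟨p, q⟩ hpq ⟨p', q'⟩ hpq'
  rw [Finset.mem_filter, Finset.mem_product] at hpq hpq'
  have h1 := h p hpq.1.1 q hpq.1.2 hpq.2
  have h2 := h p' hpq'.1.1 q' hpq'.1.2 hpq'.2
  rw [h1.1, h1.2, h2.1, h2.2]

theorem ee_empty_right (A : Finset V) : ee H A ∅ = 0 := by
  unfold ee
  simp [dg_empty]

/-- connected sets all of whose leaving edges are bridges -/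
structure CC (H : SimpleGraph V) (N S : Finset V) : Prop where
  sub : S ⊆ N
  ne : S.Nonempty
  conn : ∀ X ⊆ S, X.Nonempty → (S \ X).Nonempty → 1 ≤ ee H X (S \ X)
  lv : ∀ a ∈ S, ∀ b ∈ N, b ∉ S → H.Adj a b → Br H N a b

theorem ee_split {S X : Finset V} (hX : X ⊆ S) (hS : S ⊆ N) (A : Finset V) :
    ee H A (N \ X) = ee H A (S \ X) + ee H A (N \ S) := by
  have e : N \ X = (S \ X) ∪ (N \ S) := by
    ext x
    simp only [Finset.mem_sdiff, Finset.mem_union]
    constructor
    · rintro ⟨h1, h2⟩
      by_cases hx : x ∈ S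
      · exact Or.inl ⟨hx, h2⟩
      · exact Or.inr ⟨h1, hx⟩
    · rintro (⟨h1, h2⟩ | ⟨h1, h2⟩)
      · exact ⟨hS h1, h2⟩
      · exact ⟨h1, fun h => h2 (hX h)⟩
  rw [e, ee_union_right]
  rw [Finset.disjoint_left]
  intro x hx hx'
  rw [Finset.mem_sdiff] at hx hx'
  exact hx'.2 hx.1

/-- a one-edge cut inside of `S` gives a bridge of `H[N]` -/
theorem CC.bridge_inside {S : Finset V} (hS : CC H N S) {X : Finset V} (hX : X ⊆ S)
    (h1 : ee H X (S \ X) = 1) {a b : V} (ha : a ∈ X) (hb : b ∈ S) (hbX : b ∉ X)
    (hab : H.Adj a b) : Br H N a b := by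
  let R : Finset V := N.filter (fun z => ∃ Z : Finset V, Disjoint Z S ∧ z ∈ Z ∧ ∃ p ∈ X, ∃ q ∈ Z,
    ∀ a' ∈ Z, ∀ b' ∈ N, b' ∉ Z → H.Adj a' b' → a' = q ∧ b' = p)
  have hRS : ∀ z ∈ R, z ∉ S := by
    intro z hz hzS
    rw [Finset.mem_filter] at hz
    obtain ⟨-, Z, hZ, hzZ, -⟩ := hz
    exact Finset.disjoint_left.mp hZ hzZ hzS
  refine ⟨X ∪ R, ?_, Finset.mem_union_left _ ha, ?_, ?_⟩
  · intro z hz
    rcases Finset.mem_union.mp hz with h | h
    · exact hS.sub (hX h)
    · exact (Finset.mem_filter.mp h).1
  · intro hcon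
    rcases Finset.mem_union.mp hcon with h | h
    · exact hbX h
    · exact hRS b h hb
  · intro p hp q hq hqn hpq
    rw [Finset.mem_union, not_or] at hqn
    rcases Finset.mem_union.mp hp with hpX | hpR
    · by_cases hqS : q ∈ S
      · exact ee_unique (le_of_eq h1) ha hpX (Finset.mem_sdiff.mpr ⟨hb, hbX⟩)
          (Finset.mem_sdiff.mpr ⟨hqS, hqn.1⟩) hab hpq
      · exfalso
        apply hqn.2
        obtain ⟨Y, hYN, hpY, hqY, hY⟩ := hS.lv p (hX hpX) q hq hqS hpq
        rw [Finset.mem_filter]
        refine ⟨hq, N \ Y, ?_, Finset.mem_sdiff.mpr ⟨hq, hqY⟩, p, hpX, q,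
          Finset.mem_sdiff.mpr ⟨hq, hqY⟩, ?_⟩
        · rw [Finset.disjoint_left]
          intro z hz hzS
          have hc := hS.conn (S ∩ Y) Finset.inter_subset_left ⟨p, by simp [hX hpX, hpY]⟩
            ⟨z, by
              rw [Finset.mem_sdiff] at hz ⊢
              exact ⟨hzS, fun h => hz.2 (Finset.mem_inter.mp h).2⟩⟩
          obtain ⟨a', ha', b', hb', hab'⟩ := exists_of_ee_pos hc
          rw [Finset.mem_inter] at ha'
          rw [Finset.mem_sdiff, Finset.mem_inter] at hb'
          have := hY a' ha'.2 b' (hS.sub hb'.1) (fun h => hb'.2 ⟨hb'.1, h⟩) hab'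
          exact hqS (this.2 ▸ hb'.1)
        · intro a' ha' b' hb' hbn hab'
          rw [Finset.mem_sdiff] at ha'
          have hbY : b' ∈ Y := by
            by_contra hcon
            exact hbn (Finset.mem_sdiff.mpr ⟨hb', hcon⟩)
          have := hY b' hbY a' ha'.1 ha'.2 hab'.symm
          exact ⟨this.2, this.1⟩
    · exfalso
      have hpR' := hpR
      rw [Finset.mem_filter] at hpR
      obtain ⟨hpN, Z, hZ, hpZ, p0, hp0, q0, hq0, hZZ⟩ := hpR
      by_cases hqZ : q ∈ Z
      · apply hqn.2
        rw [Finset.mem_filter]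
        exact ⟨hq, Z, hZ, hqZ, p0, hp0, q0, hq0, hZZ⟩
      · have := hZZ p hpZ q hq hqZ hpq
        exact hqn.1 (this.2 ▸ hp0)

/-- one side of a one-edge cut -/
theorem CC.side {S : Finset V} (hS : CC H N S) {X : Finset V} (hX : X ⊆ S) (hXne : X.Nonempty)
    (h1 : ee H X (S \ X) = 1) : CC H N X := by
  obtain ⟨a, ha, b, hb, hab⟩ := exists_of_ee_pos (le_of_eq h1.symm)
  have hb' := Finset.mem_sdiff.mp hb
  refine ⟨hX.trans hS.sub, hXne, ?_, ?_⟩
  · intro X' hX' hne' hne''
    by_contra hcon
    have h0 : ee H X' (X \ X') = 0 := by omega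
    have key : ∀ P ⊆ X, P.Nonempty → (X \ P).Nonempty → a ∉ P → ee H P (X \ P) = 0 → False := by
      intro P hP hPne hPne' haP hP0
      have hc := hS.conn P (hP.trans hX) hPne ⟨b, Finset.mem_sdiff.mpr
        ⟨hb'.1, fun h => hb'.2 (hP h)⟩⟩
      obtain ⟨a', ha', b', hb'', hab'⟩ := exists_of_ee_pos hc
      rw [Finset.mem_sdiff] at hb''
      by_cases hbX : b' ∈ X
      · have := ee_pos (H := H) ha' (Finset.mem_sdiff.mpr ⟨hbX, hb''.2⟩) hab'
        omega
      · have := ee_unique (le_of_eq h1) ha (hP ha') hb (Finset.mem_sdiff.mpr ⟨hb''.1, hbX⟩) hab hab'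
        exact haP (this.1 ▸ ha')
    by_cases haX' : a ∈ X'
    · refine key (X \ X') Finset.sdiff_subset hne'' ?_ ?_ ?_
      · obtain ⟨x, hx⟩ := hne'
        exact ⟨x, by
          rw [Finset.mem_sdiff, Finset.mem_sdiff]
          exact ⟨hX' hx, fun h => h.2 hx⟩⟩
      · intro h
        exact (Finset.mem_sdiff.mp h).2 haX'
      · have e : X \ (X \ X') = X' := Finset.sdiff_sdiff_eq_self hX'
        rw [e, ee_comm]
        exact h0
    · exact key X' hX' hne' hne'' haX' h0
  · intro p hp q hq hqX hpq
    by_cases hqS : q ∈ S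
    · exact hS.bridge_inside hX h1 hp hqS hqX hpq
    · exact hS.lv p (hX hp) q hq hqS hpq

/-- auxiliary potential -/
noncomputable def hh (H : SimpleGraph V) (N D S : Finset V) (v : V) : ℤ :=
  gg H N D v + 3 * (dg H (N \ S) v : ℤ)

theorem sum_hh (S : Finset V) : ∑ v ∈ S, hh H N D S v = ∑ v ∈ S, gg H N D v + 3 * (ee H S (N \ S) : ℤ) := by
  unfold hh ee
  rw [Finset.sum_add_distrib, ← Finset.mul_sum]
  push_cast
  rfl

theorem om_le (v : V) : om H N v ≤ 3 := by
  unfold om
  split_ifs <;> norm_num

theorem om_ge (v : V) : 2 ≤ om H N v := by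
  unfold om
  split_ifs <;> norm_num

/-- two-edge-connected members of the family -/
structure BB (H : SimpleGraph V) (N S : Finset V) : Prop extends CC H N S where
  two : ∀ X ⊆ S, X.Nonempty → (S \ X).Nonempty → 2 ≤ ee H X (S \ X)

theorem BB.tri_in {S : Finset V} (hS : BB H N S) {v a b : V} (hv : v ∈ S) (ha : a ∈ N)
    (hb : b ∈ N) (hva : H.Adj v a) (hvb : H.Adj v b) (hab : H.Adj a b) : a ∈ S := by
  by_contra haS
  obtain ⟨Y, hYN, hvY, haY, hY⟩ := hS.lv v hv a ha haS hva
  by_cases hbY : b ∈ Y
  · have := hY b hbY a ha haY hab.symm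
    exact hvb.ne this.1.symm
  · have := hY v hvY b hb hbY hvb
    exact hab.ne this.2.symm

theorem BB.nf_iff {S : Finset V} (hS : BB H N S) {v : V} (hv : v ∈ S) :
    NFv H N v ↔ 1 ≤ dg H (N \ S) v := by
  constructor
  · rintro ⟨b, hb, hvb, Y, hYN, hvY, hbY, hY⟩
    by_cases hbS : b ∈ S
    · exfalso
      have h2 := hS.two (S ∩ Y) Finset.inter_subset_left ⟨v, by simp [hv, hvY]⟩
        ⟨b, by simp [hbS, hbY]⟩
      have h1 : ee H (S ∩ Y) (S \ (S ∩ Y)) ≤ 1 := by
        apply ee_le_one (a := v) (b := b)
        intro p hp q hq hpq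
        rw [Finset.mem_inter] at hp
        rw [Finset.mem_sdiff, Finset.mem_inter] at hq
        exact hY p hp.2 q (hS.sub hq.1) (fun h => hq.2 ⟨hq.1, h⟩) hpq
      omega
    · exact dg_pos (Finset.mem_sdiff.mpr ⟨hb, hbS⟩) hvb
  · intro h
    obtain ⟨b, hb, hvb⟩ := exists_of_dg_pos h
    rw [Finset.mem_sdiff] at hb
    exact ⟨b, hb.1, hvb, hS.lv v hv b hb.1 hb.2 hvb⟩

theorem BB.two_le {S : Finset V} (hS : BB H N S) (h2 : 2 ≤ S.card) {v : V} (hv : v ∈ S) :
    2 ≤ dg H S v := by
  have hne : (S \ {v}).Nonempty := by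
    rw [← Finset.card_pos, Finset.card_sdiff_of_subset (Finset.singleton_subset_iff.mpr hv)]
    simp
    omega
  have := hS.two {v} (Finset.singleton_subset_iff.mpr hv) (Finset.singleton_nonempty v) hne
  rw [ee_singleton_left] at this
  exact this.trans (dg_mono Finset.sdiff_subset v)

theorem BB.lv_le {S : Finset V} (hB : BlockHyp H N D) (hS : BB H N S) (h2 : 2 ≤ S.card) {v : V}
    (hv : v ∈ S) : dg H (N \ S) v ≤ 1 := by
  have h1 := hB.cubic v (hS.sub hv)
  rw [dg_sdiff hS.sub] at h1
  have := hS.two_le h2 hv
  omega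

theorem BB.hh_nonneg {S : Finset V} (hB : BlockHyp H N D) (hS : BB H N S) (h2 : 2 ≤ S.card) {v : V}
    (hv : v ∈ S) : 0 ≤ hh H N D S v := by
  have h1 := hS.lv_le hB h2 hv
  have h3 := hS.nf_iff hv
  have h4 := om_le (H := H) (N := N) v
  have h5 := om_ge (H := H) (N := N) v
  unfold hh gg
  rcases Nat.eq_zero_or_pos (dg H (N \ S) v) with h0 | h0
  · have : ¬ NFv H N v := by
      rw [h3]
      omega
    rw [if_neg this, h0]
    split_ifs <;> simp <;> omega
  · have h6 : dg H (N \ S) v = 1 := by omega
    have : NFv H N v := by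
      rw [h3]
      omega
    rw [if_pos this, h6]
    split_ifs <;> simp <;> omega

theorem BB.hh_D {S : Finset V} (hB : BlockHyp H N D) (hS : BB H N S) (h2 : 2 ≤ S.card) {v : V}
    (hv : v ∈ S) (hD : v ∈ D) (hT : ¬ inT H N v) : 3 ≤ hh H N D S v := by
  have h1 := hS.lv_le hB h2 hv
  have h3 := hS.nf_iff hv
  have h4 : om H N v = 3 := by
    unfold om
    rw [if_neg hT]
  unfold hh gg
  rcases Nat.eq_zero_or_pos (dg H (N \ S) v) with h0 | h0
  · have : ¬ NFv H N v := by
      rw [h3]
      omega
    rw [if_neg this, h0, h4, if_pos hD]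
    norm_num
  · have h6 : dg H (N \ S) v = 1 := by omega
    have : NFv H N v := by
      rw [h3]
      omega
    rw [if_pos this, h6, h4, if_pos hD]
    norm_num

/-- triangle vertices -/
theorem BB.hh_T {S : Finset V} (hB : BlockHyp H N D) (hS : BB H N S) {v : V}
    (hv : v ∈ S) (hT : inT H N v) (h1 : dg H (N \ S) v ≤ 1) :
    2 - (dg H (N \ S) v : ℤ) ≤ hh H N D S v := by
  have h3 := hS.nf_iff hv
  have h4 : om H N v = 2 := by
    unfold om
    rw [if_pos hT]
  unfold hh gg
  rcases Nat.eq_zero_or_pos (dg H (N \ S) v) with h0 | h0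
  · have : ¬ NFv H N v := by
      rw [h3]
      omega
    have hD : v ∈ D := (hB.triD v (hS.sub hv) hT).resolve_right this
    rw [if_neg this, h0, h4, if_pos hD]
    norm_num
  · have h6 : dg H (N \ S) v = 1 := by omega
    have : NFv H N v := by
      rw [h3]
      omega
    rw [if_pos this, h6, h4]
    split_ifs <;> norm_num

/-- If `F` is a triangle-free subset with few leaving edges then it has two bad vertices. -/
theorem two_bad (hB : BlockHyp H N D) {F : Finset V} (hF : F ⊆ N) (hne : F.Nonempty)
    (htri : NoTri H F) (hlt : ee H F (N \ F) < min (F.card + 2) 5) : 2 ≤ (F ∩ D).card := by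
  have hno : ¬ NoEven H F := by
    intro hno
    have := leaving_bound hB.cubic F.card F rfl hF hne hno htri
    omega
  have h3 : ∀ v ∈ F, dg H F v ≤ 3 := by
    intro v hv
    rw [← hB.cubic v (hF hv)]
    exact dg_mono hF v
  obtain ⟨W, hWF, s, σ, u0, hW⟩ := exists_cycData htri h3 hno
  have := hB.cyc W (hWF.trans hF) s σ u0 hW
  exact this.trans (Finset.card_le_card (Finset.inter_subset_inter_right hWF))

/-- triangles as sets -/
structure TT (H : SimpleGraph V) (t : Finset V) : Prop where
  c3 : t.card = 3
  cl : ∀ x ∈ t, ∀ y ∈ t, x ≠ y → H.Adj x y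

theorem TT.dg_self {t : Finset V} (ht : TT H t) {v : V} (hv : v ∈ t) : dg H t v = 2 := by
  unfold dg
  have e : t.filter (fun u => H.Adj v u) = t.erase v := by
    ext x
    rw [Finset.mem_filter, Finset.mem_erase]
    constructor
    · rintro ⟨h1, h2⟩
      exact ⟨h2.ne', h1⟩
    · rintro ⟨h1, h2⟩
      exact ⟨h2, ht.cl v hv x h2 h1.symm⟩
  rw [e, Finset.card_erase_of_mem hv, ht.c3]

theorem TT.third {t : Finset V} (ht : TT H t) (a b : V) : ∃ c ∈ t, c ≠ a ∧ c ≠ b := by
  have h : ({a, b} : Finset V).card < t.card := by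
    rw [ht.c3]
    exact lt_of_le_of_lt Finset.card_le_two (by norm_num)
  obtain ⟨c, hc, hc'⟩ := Finset.exists_mem_notMem_of_card_lt_card h
  simp only [Finset.mem_insert, Finset.mem_singleton, not_or] at hc'
  exact ⟨c, hc, hc'⟩

theorem TT.inT {t : Finset V} (ht : TT H t) (htN : t ⊆ N) {v : V} (hv : v ∈ t) : inT H N v := by
  obtain ⟨a, ha, hav, -⟩ := ht.third v v
  obtain ⟨b, hb, hbv, hba⟩ := ht.third v a
  exact ⟨a, htN ha, b, htN hb, ht.cl v hv a ha hav.symm, ht.cl v hv b hb hbv.symm,
    ht.cl a ha b hb hba.symm⟩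

theorem exists_TT {F : Finset V} (h : ¬ NoTri H F) : ∃ t ⊆ F, TT H t := by
  unfold NoTri at h
  push Not at h
  obtain ⟨a, ha, b, hb, c, hc, hab, hbc, hac, -⟩ := h
  refine ⟨{a, b, c}, ?_, ?_, ?_⟩
  · intro x hx
    simp only [Finset.mem_insert, Finset.mem_singleton] at hx
    rcases hx with rfl | rfl | rfl <;> assumption
  · rw [Finset.card_eq_three]
    exact ⟨a, b, c, hab.ne, hac.ne, hbc.ne, rfl⟩
  · intro x hx y hy hxy
    simp only [Finset.mem_insert, Finset.mem_singleton] at hx hy
    rcases hx with rfl | rfl | rfl <;> rcases hy with rfl | rfl | rfl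
    · exact absurd rfl hxy
    · exact hab
    · exact hac
    · exact hab.symm
    · exact absurd rfl hxy
    · exact hbc
    · exact hac.symm
    · exact hbc.symm
    · exact absurd rfl hxy

theorem no_two_in_t (hB : BlockHyp H N D) {t : Finset V} (ht : TT H t) (htN : t ⊆ N) {g a b : V}
    (hgN : g ∈ N) (hgt : g ∉ t) (ha : a ∈ t) (hb : b ∈ t) (hab : a ≠ b) (hga : H.Adj g a)
    (hgb : H.Adj g b) : False := by
  obtain ⟨c, hc, hca, hcb⟩ := ht.third a b
  exact hB.dia a (htN ha) b (htN hb) g hgN c (htN hc) (ht.cl a ha b hb hab)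
    (fun h => hgt (h ▸ hc)) hga.symm hgb.symm (ht.cl a ha c hc hca.symm) (ht.cl b hb c hc hcb.symm)

theorem no_two_dg (hB : BlockHyp H N D) {t : Finset V} (ht : TT H t) (htN : t ⊆ N) {g : V}
    (hgN : g ∈ N) (hgt : g ∉ t) : dg H t g ≤ 1 := by
  by_contra hcon
  rw [not_le] at hcon
  obtain ⟨a, ha, hga, -⟩ := exists_nbr_notin (n := 1) hcon ∅ (by simp)
  obtain ⟨b, hb, hgb, hba⟩ := exists_nbr_notin (n := 1) hcon {a} (by simp)
  rw [Finset.mem_singleton] at hba
  exact no_two_in_t hB ht htN hgN hgt ha hb (Ne.symm hba) hga hgb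

theorem TT.sum_ge {S t : Finset V} (hB : BlockHyp H N D) (hS : BB H N S) (ht : TT H t)
    (htS : t ⊆ S) : 6 - (ee H t (N \ S) : ℤ) ≤ ∑ v ∈ t, hh H N D S v := by
  have h2 : 2 ≤ S.card := by
    have := Finset.card_le_card htS
    rw [ht.c3] at this
    omega
  unfold ee
  push_cast
  have e : (6 : ℤ) = ∑ v ∈ t, 2 := by
    rw [Finset.sum_const, ht.c3]
    norm_num
  rw [e, ← Finset.sum_sub_distrib]
  apply Finset.sum_le_sum
  intro v hv
  exact hS.hh_T hB (htS hv) (ht.inT (htS.trans hS.sub) hv) (hS.lv_le hB h2 (htS hv))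

theorem TT.ee_three {S t : Finset V} (hB : BlockHyp H N D) (hSN : S ⊆ N) (ht : TT H t)
    (htS : t ⊆ S) : ee H t (S \ t) + ee H t (N \ S) = 3 := by
  rw [← ee_split htS hSN]
  unfold ee
  have : ∀ v ∈ t, dg H (N \ t) v = 1 := by
    intro v hv
    have h1 := hB.cubic v (hSN (htS hv))
    rw [dg_sdiff (htS.trans hSN), ht.dg_self hv] at h1
    omega
  rw [Finset.sum_congr rfl this, Finset.sum_const, ht.c3]
  rfl

theorem BB.sum_lower {S F : Finset V} (hB : BlockHyp H N D) (hS : BB H N S) (h2 : 2 ≤ S.card)
    (hF : F ⊆ S) (hnt : ∀ v ∈ F, ¬ inT H N v) :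
    3 * ((F ∩ D).card : ℤ) ≤ ∑ v ∈ F, hh H N D S v := by
  have h1 : ∑ v ∈ F ∩ D, hh H N D S v ≤ ∑ v ∈ F, hh H N D S v :=
    Finset.sum_le_sum_of_subset_of_nonneg Finset.inter_subset_left
      (fun v hv _ => hS.hh_nonneg hB h2 (hF hv))
  refine le_trans ?_ h1
  have e : 3 * ((F ∩ D).card : ℤ) = ∑ v ∈ F ∩ D, 3 := by
    rw [Finset.sum_const, nsmul_eq_mul]
    ring
  rw [e]
  apply Finset.sum_le_sum
  intro v hv
  rw [Finset.mem_inter] at hv
  exact hS.hh_D hB h2 (hF hv.1) hv.2 (hnt v hv.1)

/-- base case of the block lemma -/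
theorem BB.base {S : Finset V} (hB : BlockHyp H N D) (hS : BB H N S) (h2 : 2 ≤ S.card) :
    (1 ≤ ee H S (N \ S) → 12 - 3 * (ee H S (N \ S) : ℤ) ≤ ∑ v ∈ S, hh H N D S v) ∧
    (ee H S (N \ S) = 0 → 1 ≤ ∑ v ∈ S, hh H N D S v) := by
  have hnn : 0 ≤ ∑ v ∈ S, hh H N D S v := Finset.sum_nonneg (fun v hv => hS.hh_nonneg hB h2 hv)
  by_cases htri : NoTri H S
  · -- triangle-free
    have hnt : ∀ v ∈ S, ¬ inT H N v := by
      rintro v hv ⟨a, ha, b, hb, hva, hvb, hab⟩
      have haS := hS.tri_in hv ha hb hva hvb hab
      have hbS := hS.tri_in hv hb ha hvb hva hab.symm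
      exact htri v hv a haS b hbS hva hab hvb
    have hsum := hS.sum_lower hB h2 (Finset.Subset.refl S) hnt
    by_cases h4 : 4 ≤ ee H S (N \ S)
    · constructor
      · intro _
        have : (4 : ℤ) ≤ (ee H S (N \ S) : ℤ) := by exact_mod_cast h4
        linarith
      · intro h; omega
    · have hS2 : 2 ≤ (S ∩ D).card := two_bad hB hS.sub hS.ne htri (by omega)
      have hS2' : (2 : ℤ) ≤ ((S ∩ D).card : ℤ) := by exact_mod_cast hS2
      constructor
      · intro h1
        by_cases h1' : 2 ≤ ee H S (N \ S)
        · have : (2 : ℤ) ≤ (ee H S (N \ S) : ℤ) := by exact_mod_cast h1'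
          linarith
        · have h1e : ee H S (N \ S) = 1 := by omega
          rw [h1e]
          -- need three bad vertices
          by_cases h3 : 3 ≤ (S ∩ D).card
          · have : (3 : ℤ) ≤ ((S ∩ D).card : ℤ) := by exact_mod_cast h3
            push_cast
            linarith
          · exfalso
            have h3e : (S ∩ D).card = 2 := by omega
            obtain ⟨d, hd⟩ : (S ∩ D).Nonempty := by
              rw [← Finset.card_pos]
              omega
            rw [Finset.mem_inter] at hd
            -- size of `S`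
            have hdS : dg H (S.erase d) d = dg H S d := by
              have e : S = (S.erase d) ∪ {d} := by
                ext x
                simp only [Finset.mem_union, Finset.mem_erase, Finset.mem_singleton]
                constructor
                · intro hx
                  by_cases hxd : x = d
                  · exact Or.inr hxd
                  · exact Or.inl ⟨hxd, hx⟩
                · rintro (h | h)
                  · exact h.2
                  · rw [h]; exact hd.1
              have hdisj : Disjoint (S.erase d) {d} := by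
                rw [Finset.disjoint_singleton_right]
                exact Finset.notMem_erase d S
              calc dg H (S.erase d) d = dg H (S.erase d) d + dg H {d} d := by
                    rw [dg_singleton, if_neg (H.loopless.irrefl d)]
                    rfl
                _ = dg H (S.erase d ∪ {d}) d := (dg_union hdisj d).symm
                _ = dg H S d := by rw [← e]
            have hcardS : 4 ≤ S.card := by
              by_contra hcon
              -- all pairs adjacent
              have hall : ∀ u ∈ S, ∀ w ∈ S, u ≠ w → H.Adj u w := by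
                intro u hu w hw huw
                by_contra hnot
                have h5 := hS.two_le h2 hu
                have h6 : S.filter (fun x => H.Adj u x) ⊆ (S.erase u).erase w := by
                  intro x hx
                  rw [Finset.mem_filter] at hx
                  rw [Finset.mem_erase, Finset.mem_erase]
                  exact ⟨fun h => hnot (h ▸ hx.2), hx.2.ne', hx.1⟩
                have h7 := Finset.card_le_card h6
                rw [Finset.card_erase_of_mem (Finset.mem_erase.mpr ⟨huw.symm, hw⟩),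
                  Finset.card_erase_of_mem hu] at h7
                unfold dg at h5
                omega
              have h5 := hS.two_le h2 hd.1
              obtain ⟨a, ha, hda, -⟩ := exists_nbr_notin (n := 1) h5 ∅ (by simp)
              obtain ⟨b, hb, hdb, hba⟩ := exists_nbr_notin (n := 1) h5 {a} (by simp)
              rw [Finset.mem_singleton] at hba
              exact htri d hd.1 a ha b hb hda (hall a ha b hb (Ne.symm hba)) hdb
            have hFsub : S.erase d ⊆ S := Finset.erase_subset d S
            have hFc : (S.erase d).card = S.card - 1 := Finset.card_erase_of_mem hd.1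
            have hSF : S \ (S.erase d) = {d} := by
              ext x
              simp only [Finset.mem_sdiff, Finset.mem_erase, Finset.mem_singleton, not_and]
              constructor
              · rintro ⟨h1, h2⟩
                by_contra hx
                exact h2 hx h1
              · rintro rfl
                exact ⟨hd.1, fun h => absurd rfl h⟩
            have hlv : ee H (S.erase d) (N \ (S.erase d)) ≤ 4 := by
              rw [ee_split hFsub hS.sub, hSF, ee_comm, ee_singleton_left, hdS]
              have h8 : ee H (S.erase d) (N \ S) ≤ ee H S (N \ S) := by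
                unfold ee
                exact Finset.sum_le_sum_of_subset hFsub
              have h9 : dg H S d ≤ 3 := by
                rw [← hB.cubic d (hS.sub hd.1)]
                exact dg_mono hS.sub d
              omega
            have hb2 := two_bad hB (hFsub.trans hS.sub) (by
              rw [← Finset.card_pos]; omega) (F := S.erase d)
              (fun a ha b hb c hc => htri a (hFsub ha) b (hFsub hb) c (hFsub hc)) (by omega)
            have hlt : (S.erase d ∩ D).card < (S ∩ D).card := by
              apply Finset.card_lt_card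
              rw [Finset.ssubset_iff_of_subset (Finset.inter_subset_inter_right hFsub)]
              exact ⟨d, Finset.mem_inter.mpr hd, fun h =>
                Finset.notMem_erase d S (Finset.mem_inter.mp h).1⟩
            omega
      · intro _
        linarith
  · -- there is a triangle
    obtain ⟨t, htS, ht⟩ := exists_TT htri
    have htN : t ⊆ N := htS.trans hS.sub
    have hts := ht.sum_ge hB hS htS
    have ht3 := ht.ee_three hB hS.sub htS
    have hsplit : ∑ v ∈ S, hh H N D S v = ∑ v ∈ t, hh H N D S v + ∑ v ∈ S \ t, hh H N D S v := by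
      rw [add_comm, Finset.sum_sdiff htS]
    have hesplit : ee H S (N \ S) = ee H t (N \ S) + ee H (S \ t) (N \ S) := by
      rw [← ee_union_left Finset.disjoint_sdiff, Finset.union_sdiff_of_subset htS]
    by_cases hne : (S \ t).Nonempty
    · have htne : t.Nonempty := by
        rw [← Finset.card_pos, ht.c3]
        norm_num
      have hcut := hS.two t htS htne hne
      by_cases hFtri : NoTri H (S \ t)
      · have hnt : ∀ v ∈ S \ t, ¬ inT H N v := by
          rintro v hv ⟨a, ha, b, hb, hva, hvb, hab⟩
          have hvS := (Finset.mem_sdiff.mp hv).1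
          have hvt := (Finset.mem_sdiff.mp hv).2
          have haS := hS.tri_in hvS ha hb hva hvb hab
          have hbS := hS.tri_in hvS hb ha hvb hva hab.symm
          have key : ∀ x y, x ∈ t → y ∈ S → y ∉ t → H.Adj v x → H.Adj v y → H.Adj x y → False := by
            intro x y hx hy hyt hvx hvy hxy
            obtain ⟨c, hc, hcx, -⟩ := ht.third x x
            obtain ⟨d, hd, hdx, hdc⟩ := ht.third x c
            refine four_nbrs (F := N) (v := x) (le_of_eq (hB.cubic x (htN hx))) (htN hc) (htN hd)
              (hS.sub hvS) (hS.sub hy) (ht.cl x hx c hc hcx.symm) (ht.cl x hx d hd hdx.symm)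
              hvx.symm hxy ?_
            simp only [List.nodup_cons, List.mem_cons, List.not_mem_nil, or_false, not_or,
              List.nodup_nil, and_true, not_false_eq_true]
            refine ⟨⟨hdc.symm, ?_, ?_⟩, ⟨?_, ?_⟩, hvy.ne⟩
            · rintro rfl; exact hvt hc
            · rintro rfl; exact hyt hc
            · rintro rfl; exact hvt hd
            · rintro rfl; exact hyt hd
          by_cases hat : a ∈ t
          · by_cases hbt : b ∈ t
            · exact no_two_in_t hB ht htN (hS.sub hvS) hvt hat hbt hab.ne hva hvb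
            · exact key a b hat hbS hbt hva hvb hab
          · by_cases hbt : b ∈ t
            · exact key b a hbt haS hat hvb hva hab.symm
            · exact hFtri v hv a (Finset.mem_sdiff.mpr ⟨haS, hat⟩) b
                (Finset.mem_sdiff.mpr ⟨hbS, hbt⟩) hva hab hvb
        have hF := hS.sum_lower hB h2 (Finset.sdiff_subset (s := S) (t := t)) hnt
        have hFN : S \ t ⊆ N := Finset.sdiff_subset.trans hS.sub
        have hST : S \ (S \ t) = t := Finset.sdiff_sdiff_eq_self htS
        have heF : ee H (S \ t) (N \ (S \ t)) = ee H t (S \ t) + ee H (S \ t) (N \ S) := by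
          rw [ee_split Finset.sdiff_subset hS.sub, hST, ee_comm (S \ t) t]
        have htb := two_bad hB hFN hne hFtri
        have hc1 : 1 ≤ (S \ t).card := Finset.card_pos.mpr hne
        have hdiag : ee H t (S \ t) ≤ (S \ t).card := by
          rw [ee_comm]
          unfold ee
          calc ∑ g ∈ S \ t, dg H t g ≤ ∑ g ∈ S \ t, 1 := by
                apply Finset.sum_le_sum
                intro g hg
                exact no_two_dg hB ht htN (hFN hg) (Finset.mem_sdiff.mp hg).2
            _ = (S \ t).card := by simp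
        have hFnn : (0 : ℤ) ≤ ((S \ t ∩ D).card : ℤ) := by positivity
        rw [hsplit]
        constructor
        · intro h1
          by_cases h3 : 3 ≤ ee H S (N \ S)
          · have h3' : (3 : ℤ) ≤ (ee H S (N \ S) : ℤ) := by exact_mod_cast h3
            have h4' : (ee H t (N \ S) : ℤ) ≤ 1 := by
              have : ee H t (N \ S) ≤ 1 := by omega
              exact_mod_cast this
            linarith
          · have hx : ee H t (N \ S) = 0 ∨ ee H t (N \ S) = 1 := by omega
            have h4 : ee H S (N \ S) = 1 ∨ ee H S (N \ S) = 2 := by omega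
            rcases hx with hx | hx <;> rcases h4 with h4 | h4
            · have hb : 2 ≤ (S \ t ∩ D).card := htb (by omega)
              have hb' : (2 : ℤ) ≤ ((S \ t ∩ D).card : ℤ) := by exact_mod_cast hb
              rw [hx] at hts
              rw [h4]
              push_cast at hts ⊢
              linarith
            · rw [hx] at hts
              rw [h4]
              push_cast at hts ⊢
              linarith
            · have hb : 2 ≤ (S \ t ∩ D).card := htb (by omega)
              have hb' : (2 : ℤ) ≤ ((S \ t ∩ D).card : ℤ) := by exact_mod_cast hb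
              rw [hx] at hts
              rw [h4]
              push_cast at hts ⊢
              linarith
            · have hb : 2 ≤ (S \ t ∩ D).card := htb (by omega)
              have hb' : (2 : ℤ) ≤ ((S \ t ∩ D).card : ℤ) := by exact_mod_cast hb
              rw [hx] at hts
              rw [h4]
              push_cast at hts ⊢
              linarith
        · intro h0
          have h4' : (ee H t (N \ S) : ℤ) ≤ 1 := by
            have : ee H t (N \ S) ≤ 1 := by omega
            exact_mod_cast this
          linarith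
      · -- second triangle
        obtain ⟨t', ht'S, ht'⟩ := exists_TT hFtri
        have ht'S' : t' ⊆ S := ht'S.trans Finset.sdiff_subset
        have hts' := ht'.sum_ge hB hS ht'S'
        have ht3' := ht'.ee_three hB hS.sub ht'S'
        have htne' : t'.Nonempty := by
          rw [← Finset.card_pos, ht'.c3]
          norm_num
        have hne' : (S \ t').Nonempty := by
          obtain ⟨x, hx⟩ := htne
          exact ⟨x, Finset.mem_sdiff.mpr ⟨htS hx, fun h => (Finset.mem_sdiff.mp (ht'S h)).2 hx⟩⟩
        have hcut' := hS.two t' ht'S' htne' hne'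
        have h5 : ∑ v ∈ t', hh H N D S v ≤ ∑ v ∈ S \ t, hh H N D S v :=
          Finset.sum_le_sum_of_subset_of_nonneg ht'S
            (fun v hv _ => hS.hh_nonneg hB h2 (Finset.mem_sdiff.mp hv).1)
        have h4' : (ee H t (N \ S) : ℤ) ≤ 1 := by
          have : ee H t (N \ S) ≤ 1 := by omega
          exact_mod_cast this
        have h4'' : (ee H t' (N \ S) : ℤ) ≤ 1 := by
          have : ee H t' (N \ S) ≤ 1 := by omega
          exact_mod_cast this
        rw [hsplit]
        constructor
        · intro h1
          have h1' : (1 : ℤ) ≤ (ee H S (N \ S) : ℤ) := by exact_mod_cast h1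
          linarith
        · intro _
          linarith
    · -- `S = t`
      rw [Finset.not_nonempty_iff_eq_empty] at hne
      have hee0 : ee H t (S \ t) = 0 := by
        rw [hne, ee_empty_right]
      have h5 : ee H (S \ t) (N \ S) = 0 := by
        rw [hne, ee_comm, ee_empty_right]
      have h6 : ee H S (N \ S) = 3 := by omega
      have h7 : ee H t (N \ S) = 3 := by omega
      rw [hsplit, hne, Finset.sum_empty]
      rw [h7] at hts
      rw [h6]
      push_cast at hts ⊢
      constructor
      · intro _
        linarith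
      · intro h
        omega

/-- inductive form of the block lemma -/
theorem CC.main (hB : BlockHyp H N D) : ∀ (n : ℕ) (S : Finset V), S.card = n → CC H N S →
    (1 ≤ ee H S (N \ S) → 12 - 6 * (ee H S (N \ S) : ℤ) ≤ ∑ v ∈ S, gg H N D v) ∧
    (ee H S (N \ S) = 0 → 1 ≤ ∑ v ∈ S, gg H N D v) := by
  intro n
  induction n using Nat.strong_induction_on with
  | _ n ih =>
    intro S hcard hS
    by_cases hcut : ∃ X ⊆ S, X.Nonempty ∧ (S \ X).Nonempty ∧ ee H X (S \ X) = 1
    · obtain ⟨X, hX, hXne, hYne, h1⟩ := hcut
      have hXS : S \ (S \ X) = X := Finset.sdiff_sdiff_eq_self hX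
      have h1' : ee H (S \ X) (S \ (S \ X)) = 1 := by
        rw [hXS, ee_comm]
        exact h1
      have hC1 := hS.side hX hXne h1
      have hC2 := hS.side (Finset.sdiff_subset (s := S) (t := X)) hYne h1'
      have hXlt : X.card < n := by
        rw [← hcard]
        apply Finset.card_lt_card
        rw [Finset.ssubset_iff_of_subset hX]
        obtain ⟨y, hy⟩ := hYne
        exact ⟨y, (Finset.mem_sdiff.mp hy).1, (Finset.mem_sdiff.mp hy).2⟩
      have hYlt : (S \ X).card < n := by
        rw [← hcard]
        apply Finset.card_lt_card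
        rw [Finset.ssubset_iff_of_subset Finset.sdiff_subset]
        obtain ⟨y, hy⟩ := hXne
        exact ⟨y, hX hy, fun h => (Finset.mem_sdiff.mp h).2 hy⟩
      have i1 := ih _ hXlt X rfl hC1
      have i2 := ih _ hYlt (S \ X) rfl hC2
      have e1 : ee H X (N \ X) = 1 + ee H X (N \ S) := by
        rw [ee_split hX hS.sub, h1]
      have e2 : ee H (S \ X) (N \ (S \ X)) = 1 + ee H (S \ X) (N \ S) := by
        rw [ee_split Finset.sdiff_subset hS.sub, h1']
      have e3 : ee H S (N \ S) = ee H X (N \ S) + ee H (S \ X) (N \ S) := by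
        rw [← ee_union_left Finset.disjoint_sdiff, Finset.union_sdiff_of_subset hX]
      have e4 : ∑ v ∈ S, gg H N D v = ∑ v ∈ X, gg H N D v + ∑ v ∈ S \ X, gg H N D v := by
        rw [add_comm, Finset.sum_sdiff hX]
      have j1 := i1.1 (by omega)
      have j2 := i2.1 (by omega)
      rw [e1] at j1
      rw [e2] at j2
      push_cast at j1 j2
      constructor
      · intro _
        rw [e4, e3]
        push_cast
        linarith
      · intro h0
        have h0' : ee H X (N \ S) = 0 ∧ ee H (S \ X) (N \ S) = 0 := by omega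
        rw [h0'.1] at j1
        rw [h0'.2] at j2
        rw [e4]
        push_cast at j1 j2
        linarith
    · -- two-edge-connected
      push Not at hcut
      have hBB : BB H N S := by
        refine ⟨hS, ?_⟩
        intro X hX hXne hYne
        have h1 := hS.conn X hX hXne hYne
        have h2 := hcut X hX hXne hYne
        omega
      have hsum := sum_hh (H := H) (N := N) (D := D) S
      by_cases h2 : 2 ≤ S.card
      · have hb := hBB.base hB h2
        constructor
        · intro h1
          have := hb.1 h1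
          linarith
        · intro h0
          have := hb.2 h0
          rw [h0] at hsum
          push_cast at hsum
          linarith
      · have h1 : S.card = 1 := by
          have := Finset.card_pos.mpr hS.ne
          omega
        obtain ⟨v, rfl⟩ := Finset.card_eq_one.mp h1
        have hvN : v ∈ N := hS.sub (Finset.mem_singleton_self v)
        have h3 : ee H {v} (N \ {v}) = 3 := by
          rw [ee_singleton_left]
          have := hB.cubic v hvN
          rw [dg_sdiff (Finset.singleton_subset_iff.mpr hvN), dg_singleton,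
            if_neg (H.loopless.irrefl v)] at this
          omega
        rw [h3]
        constructor
        · intro _
          rw [Finset.sum_singleton]
          have h4 := om_le (H := H) (N := N) v
          have h5 := om_ge (H := H) (N := N) v
          unfold gg
          push_cast
          split_ifs <;> linarith
        · intro h
          omega

/-- The block lemma. -/
theorem block_main (hB : BlockHyp H N D) : ∀ (n : ℕ) (S : Finset V), S.card = n → S ⊆ N →
    S.Nonempty → ee H S (N \ S) = 0 → 1 ≤ ∑ v ∈ S, gg H N D v := by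
  intro n
  induction n using Nat.strong_induction_on with
  | _ n ih =>
    intro S hcard hSN hne h0
    by_cases hcut : ∃ X ⊆ S, X.Nonempty ∧ (S \ X).Nonempty ∧ ee H X (S \ X) = 0
    · obtain ⟨X, hX, hXne, hYne, h1⟩ := hcut
      have hXS : S \ (S \ X) = X := Finset.sdiff_sdiff_eq_self hX
      have h1' : ee H (S \ X) (S \ (S \ X)) = 0 := by
        rw [hXS, ee_comm]
        exact h1
      have hXlt : X.card < n := by
        rw [← hcard]
        apply Finset.card_lt_card
        rw [Finset.ssubset_iff_of_subset hX]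
        obtain ⟨y, hy⟩ := hYne
        exact ⟨y, (Finset.mem_sdiff.mp hy).1, (Finset.mem_sdiff.mp hy).2⟩
      have hYlt : (S \ X).card < n := by
        rw [← hcard]
        apply Finset.card_lt_card
        rw [Finset.ssubset_iff_of_subset Finset.sdiff_subset]
        obtain ⟨y, hy⟩ := hXne
        exact ⟨y, hX hy, fun h => (Finset.mem_sdiff.mp h).2 hy⟩
      have e3 : ee H S (N \ S) = ee H X (N \ S) + ee H (S \ X) (N \ S) := by
        rw [← ee_union_left Finset.disjoint_sdiff, Finset.union_sdiff_of_subset hX]
      have e1 : ee H X (N \ X) = 0 := by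
        rw [ee_split hX hSN, h1]
        omega
      have e2 : ee H (S \ X) (N \ (S \ X)) = 0 := by
        rw [ee_split Finset.sdiff_subset hSN, h1']
        omega
      have i1 := ih _ hXlt X rfl (hX.trans hSN) hXne e1
      have i2 := ih _ hYlt (S \ X) rfl (Finset.sdiff_subset.trans hSN) hYne e2
      have e4 : ∑ v ∈ S, gg H N D v = ∑ v ∈ X, gg H N D v + ∑ v ∈ S \ X, gg H N D v := by
        rw [add_comm, Finset.sum_sdiff hX]
      rw [e4]
      linarith
    · push Not at hcut
      refine (CC.main hB S.card S rfl ⟨hSN, hne, ?_, ?_⟩).2 h0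
      · intro X hX hXne hYne
        exact Nat.one_le_iff_ne_zero.mpr (hcut X hX hXne hYne)
      · intro a ha b hb hbS hab
        exfalso
        have := ee_pos (H := H) ha (Finset.mem_sdiff.mpr ⟨hb, hbS⟩) hab
        omega

theorem block_lemma (hB : BlockHyp H N D) (hne : N.Nonempty) : 1 ≤ ∑ v ∈ N, gg H N D v :=
  block_main hB N.card N rfl (Finset.Subset.refl N) hne (by
    rw [Finset.sdiff_self]
    exact ee_empty_right N)

end

end Pool.Agent.H.MP_0ae2e1_co
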