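import Pool.Agent.H.MP_0ae2e1_co.Longest

set_option autoImplicit false

namespace Pool.Agent.H.MP_0ae2e1_co

open Classical

section

variable {V : Type*} {H : SimpleGraph V}

/-- An even cycle with vertex set `W` (or a disjoint union of even cycles), with successor
function `s`, alternating colouring `σ`, such that all chords meet `u0`. -/
structure CycData (H : SimpleGraph V) (W : Finset V) (s : V → V) (σ : V → Bool) (u0 : V) :
    Prop where
  ne : W.Nonempty
  maps : ∀ w ∈ W, s w ∈ W
  adj : ∀ w ∈ W, H.Adj w (s w)
  inj : ∀ w ∈ W, ∀ w' ∈ W, s w = s w' → w = w'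
  ss : ∀ w ∈ W, s (s w) ≠ w
  col : ∀ w ∈ W, σ (s w) ≠ σ w
  chord : ∀ w ∈ W, ∀ w' ∈ W, w ≠ u0 → w' ≠ u0 → H.Adj w w' → w' = s w ∨ w = s w'

/-- shortest even cycles -/
def MinEC (H : SimpleGraph V) (F : Finset V) (l : List V) : Prop :=
  IsCyc H l ∧ Even l.length ∧ (∀ x ∈ l, x ∈ F) ∧
    ∀ l', IsCyc H l' → Even l'.length → (∀ x ∈ l', x ∈ F) → l.length ≤ l'.length

theorem exists_minEC {F : Finset V} (h : ¬ NoEven H F) : ∃ l, MinEC H F l := by
  unfold NoEven at h
  push Not at h
  obtain ⟨l, h1, h2, h3, -⟩ := h
  have hex : ∃ n, ∃ l, IsCyc H l ∧ Even l.length ∧ (∀ x ∈ l, x ∈ F) ∧ l.length = n :=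
    ⟨_, l, h1, h2, h3, rfl⟩
  obtain ⟨l0, h01, h02, h03, h04⟩ := Nat.find_spec hex
  refine ⟨l0, h01, h02, h03, fun l' a b c => ?_⟩
  rw [h04]
  exact Nat.find_min' hex ⟨l', a, b, c, rfl⟩

theorem IsCyc.rotate {L T : List V} {a : V} (h : IsCyc H (L ++ a :: T)) :
    IsCyc H (a :: (T ++ L)) := by
  obtain ⟨h1, h2, x, t, h3, h4⟩ := h
  refine ⟨?_, ?_, a, T ++ L, rfl, ?_⟩
  · simp only [List.length_append, List.length_cons] at h1 ⊢
    omega
  · exact nodup_of_count (fun a => by
      simp only [List.count_cons, List.count_append]
      omega) h2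
  · cases L with
    | nil =>
      simp only [List.nil_append, List.cons.injEq] at h3
      obtain ⟨rfl, rfl⟩ := h3
      simpa using h4
    | cons y L =>
      simp only [List.cons_append, List.cons.injEq] at h3
      obtain ⟨rfl, rfl⟩ := h3
      rw [Pth_append] at h4 ⊢
      exact ⟨h4.2, h4.1⟩

theorem MinEC.rotate {F : Finset V} {L T : List V} {a : V} (h : MinEC H F (L ++ a :: T)) :
    MinEC H F (a :: (T ++ L)) := by
  obtain ⟨h1, h2, h3, h4⟩ := h
  have hlen : (a :: (T ++ L)).length = (L ++ a :: T).length := by
    simp only [List.length_append, List.length_cons]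
    omega
  refine ⟨h1.rotate, ?_, ?_, ?_⟩
  · rw [hlen]; exact h2
  · intro x hx
    apply h3
    simp only [List.mem_cons, List.mem_append] at hx ⊢
    tauto
  · intro l' a b c
    rw [hlen]
    exact h4 l' a b c

theorem theta_contra {F : Finset V} {l : List V} (h : MinEC H F l) {z y : V} {A B C : List V}
    (hA : Pth H z A y) (hB : Pth H z B y) (hC : Pth H z C y)
    (hnd : (z :: y :: (A ++ B ++ C)).Nodup)
    (hAB : A ≠ [] ∨ B ≠ []) (hBC : B ≠ [] ∨ C ≠ []) (hAC : A ≠ [] ∨ C ≠ [])
    (hsub : ∀ x ∈ z :: y :: (A ++ B ++ C), x ∈ l)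
    (hlt : (z :: y :: (A ++ B ++ C)).length < l.length) : False := by
  obtain ⟨l', h1, h2, h3⟩ := theta_even hA hB hC hnd hAB hBC hAC
  have h4 := h.2.2.2 l' h1 h2 (fun x hx => h.2.2.1 x (hsub x (h3 hx)))
  have h5 : l'.length ≤ (z :: y :: (A ++ B ++ C)).length :=
    (List.subperm_of_subset h1.2.1 h3).length_le
  omega

theorem four_nbrs {F : Finset V} {v : V} (h3 : dg H F v ≤ 3) {a b c d : V} (ha : a ∈ F)
    (hb : b ∈ F) (hc : c ∈ F) (hd : d ∈ F) (ha' : H.Adj v a) (hb' : H.Adj v b) (hc' : H.Adj v c)
    (hd' : H.Adj v d) (hnd : [a, b, c, d].Nodup) : False := by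
  have hsub : ({a, b, c, d} : Finset V) ⊆ F.filter (fun u => H.Adj v u) := by
    intro x hx
    simp only [Finset.mem_insert, Finset.mem_singleton] at hx
    rw [Finset.mem_filter]
    rcases hx with rfl | rfl | rfl | rfl
    · exact ⟨ha, ha'⟩
    · exact ⟨hb, hb'⟩
    · exact ⟨hc, hc'⟩
    · exact ⟨hd, hd'⟩
  have hcard : ({a, b, c, d} : Finset V).card = 4 := by
    have e : ({a, b, c, d} : Finset V) = [a, b, c, d].toFinset := by simp
    rw [e, List.toFinset_card_of_nodup hnd]
    rfl
  have := Finset.card_le_card hsub
  unfold dg at h3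
  omega

/-- In a shortest even cycle with a chord `u v` all other adjacent pairs avoiding `u` are
consecutive. -/
theorem chord_unique {F : Finset V} (htri : NoTri H F) (h3 : ∀ v ∈ F, dg H F v ≤ 3)
    {u v : V} {A B : List V} (hA : A ≠ []) (hB : B ≠ []) (huv : H.Adj u v)
    (h : MinEC H F (u :: (A ++ v :: B))) {a b : V} {L1 L2 L3 : List V}
    (he : A ++ v :: B = L1 ++ a :: (L2 ++ b :: L3)) (hab : H.Adj a b) : L2 = [] := by
  by_contra hL2
  have hnd := h.1.2.1
  have hF := h.2.2.1
  have hP : Pth H u (A ++ v :: B) u := by
    obtain ⟨x, t, hx, ht⟩ := h.1.2.2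
    simp only [List.cons.injEq] at hx
    obtain ⟨rfl, rfl⟩ := hx
    exact ht
  have huF : u ∈ F := hF u (by simp)
  have hvF : v ∈ F := hF v (by simp)
  have hP1 := Pth_append.mp hP
  have hcase : (∃ Y, A = L1 ++ a :: (L2 ++ b :: Y) ∧ L3 = Y ++ v :: B) ∨
      (b = v ∧ A = L1 ++ a :: L2 ∧ L3 = B) ∨
      (∃ X Y, L2 = X ++ v :: Y ∧ A = L1 ++ a :: X ∧ B = Y ++ b :: L3) ∨
      (a = v ∧ A = L1 ∧ B = L2 ++ b :: L3) ∨
      (∃ Y, L1 = A ++ v :: Y ∧ B = Y ++ a :: (L2 ++ b :: L3)) := by
    rcases List.append_eq_append_iff.mp he with ⟨X, hX1, hX2⟩ | ⟨X, hX1, hX2⟩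
    · -- `L1 = A ++ X`, `v :: B = X ++ a :: ...`
      cases X with
      | nil =>
        simp only [List.nil_append, List.cons.injEq] at hX2
        right; right; right; left
        exact ⟨hX2.1.symm, by simpa using hX1.symm, hX2.2⟩
      | cons x X =>
        simp only [List.cons_append, List.cons.injEq] at hX2
        right; right; right; right
        exact ⟨X, by rw [hX1, hX2.1], hX2.2⟩
    · -- `A = L1 ++ X`, `a :: (L2 ++ b :: L3) = X ++ v :: B`
      cases X with
      | nil =>
        simp only [List.nil_append, List.cons.injEq] at hX2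
        right; right; right; left
        exact ⟨hX2.1, by simpa using hX1, hX2.2.symm⟩
      | cons x X =>
        simp only [List.cons_append, List.cons.injEq] at hX2
        obtain ⟨rfl, hX2⟩ := hX2
        rcases List.append_eq_append_iff.mp hX2 with ⟨Z, hZ1, hZ2⟩ | ⟨Z, hZ1, hZ2⟩
        · -- X = L2 ++ Z, b :: L3 = Z ++ v :: B
          cases Z with
          | nil =>
            simp only [List.nil_append, List.cons.injEq] at hZ2
            right; left
            refine ⟨hZ2.1, ?_, hZ2.2⟩
            rw [hX1, hZ1]
            simp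
          | cons z Z =>
            simp only [List.cons_append, List.cons.injEq] at hZ2
            obtain ⟨rfl, hZ2⟩ := hZ2
            left
            exact ⟨Z, by rw [hX1, hZ1], hZ2⟩
        · -- L2 = X ++ Z, v :: B = Z ++ b :: L3
          cases Z with
          | nil =>
            simp only [List.nil_append, List.cons.injEq] at hZ2
            right; left
            refine ⟨hZ2.1.symm, ?_, hZ2.2.symm⟩
            rw [hX1, hZ1]
            simp
          | cons z Z =>
            simp only [List.cons_append, List.cons.injEq] at hZ2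
            obtain ⟨rfl, hZ2⟩ := hZ2
            right; right; left
            exact ⟨X, Z, hZ1, hX1, hZ2⟩
  rcases hcase with ⟨Y, rfl, rfl⟩ | ⟨rfl, rfl, rfl⟩ | ⟨X, Y, rfl, rfl, rfl⟩ | ⟨rfl, rfl, rfl⟩ |
      ⟨Y, rfl, rfl⟩
  · -- both in `A`
    have q1 := Pth_append.mp hP1.1
    have q2 := Pth_append.mp q1.2
    refine theta_contra h (z := a) (y := b) (A := L2) (B := []) (C := L1.reverse ++ u :: v :: Y.reverse)
      q2.1 (Pth_nil.mpr hab) (Pth_append.mpr ⟨q1.1.symm, Pth_cons.mpr ⟨huv, q2.2.symm⟩⟩)
      (nodup_of_count (fun a => by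
          simp only [List.count_cons, List.count_append, List.count_reverse, List.count_nil]
          omega) hnd) (Or.inl hL2) (by simp) (by simp) ?_ ?_
    · intro x hx
      simp only [List.mem_cons, List.mem_append, List.mem_reverse] at hx ⊢
      grind
    · have := List.length_pos_of_ne_nil hB
      simp only [List.length_cons, List.length_append, List.length_reverse, List.length_nil]
      omega
  · -- `b = v`
    obtain ⟨c, hc⟩ : ∃ c t, L3 = c :: t := List.exists_cons_of_ne_nil hB
    obtain ⟨t, rfl⟩ := hc
    obtain ⟨L2', d, rfl⟩ : ∃ L d, L2 = L ++ [d] := by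
      rcases List.eq_nil_or_concat L2 with h | ⟨L, d, h⟩
      · exact absurd h hL2
      · exact ⟨L, d, by simpa using h⟩
    have q1 := Pth_append.mp hP1.1
    have q2 : Pth H d [] b := by
      have := q1.2
      rw [Pth_append] at this
      exact this.2
    have q3 := Pth_cons.mp hP1.2
    refine four_nbrs (h3 b hvF) (a := u) (b := a) (c := c) (d := d) huF (hF a (by simp))
      (hF c (by simp)) (hF d (by simp)) huv.symm hab.symm q3.1 (Pth_nil.mp q2).symm ?_
    exact nodup_of_count (fun a => by
          simp only [List.count_cons, List.count_append, List.count_nil]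
          omega) hnd
  · -- crossing
    have q1 := Pth_append.mp hP1.1
    have q2 := Pth_append.mp hP1.2
    by_cases hX : X = []
    · by_cases hL1 : L1 = []
      · subst hX hL1
        exact htri u huF a (hF a (by simp)) v hvF (Pth_nil.mp q1.1) (Pth_nil.mp q1.2) huv
      · -- avoid `L1`
        refine theta_contra h (z := v) (y := b) (A := Y) (B := u :: L3.reverse)
          (C := X.reverse ++ [a]) q2.1 (Pth_cons.mpr ⟨huv.symm, q2.2.symm⟩)
          (Pth_append.mpr ⟨q1.2.symm, Pth_nil.mpr hab⟩)
          (nodup_of_count (fun a => by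
            simp only [List.count_cons, List.count_append, List.count_reverse, List.count_nil]
            omega) hnd) (by simp) (by simp) (by simp) ?_ ?_
        · intro x hx
          simp only [List.mem_cons, List.mem_append, List.mem_reverse] at hx ⊢
          grind
        · have := List.length_pos_of_ne_nil hL1
          simp only [List.length_cons, List.length_append, List.length_reverse, List.length_nil]
          omega
    · -- avoid `X`
      refine theta_contra h (z := u) (y := b) (A := v :: Y) (B := L3.reverse)
          (C := L1 ++ [a]) (Pth_cons.mpr ⟨huv, q2.1⟩) q2.2.symm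
          (Pth_append.mpr ⟨q1.1, Pth_nil.mpr hab⟩)
          (nodup_of_count (fun a => by
            simp only [List.count_cons, List.count_append, List.count_reverse, List.count_nil]
            omega) hnd) (by simp) (by simp) (by simp) ?_ ?_
      · intro x hx
        simp only [List.mem_cons, List.mem_append, List.mem_reverse] at hx ⊢
        grind
      · have := List.length_pos_of_ne_nil hX
        simp only [List.length_cons, List.length_append, List.length_reverse, List.length_nil]
        omega
  · -- `a = v`
    obtain ⟨d, L2', rfl⟩ : ∃ d L, L2 = d :: L := List.exists_cons_of_ne_nil hL2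
    obtain ⟨A', c, rfl⟩ : ∃ L d, A = L ++ [d] := by
      rcases List.eq_nil_or_concat A with h | ⟨L, d, h⟩
      · exact absurd h hA
      · exact ⟨L, d, by simpa using h⟩
    have q1 := (Pth_append.mp hP1.1).2
    have q3 := Pth_cons.mp hP1.2
    refine four_nbrs (h3 a hvF) (a := u) (b := b) (c := c) (d := d) huF (hF b (by simp))
      (hF c (by simp)) (hF d (by simp)) huv.symm hab (Pth_nil.mp q1).symm q3.1 ?_
    exact nodup_of_count (fun a => by
          simp only [List.count_cons, List.count_append, List.count_nil]
          omega) hnd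
  · -- both in `B`
    have q1 := Pth_append.mp hP1.2
    have q2 := Pth_append.mp q1.2
    refine theta_contra h (z := a) (y := b) (A := L2) (B := []) (C := Y.reverse ++ v :: u :: L3.reverse)
      q2.1 (Pth_nil.mpr hab) (Pth_append.mpr ⟨q1.1.symm, Pth_cons.mpr ⟨huv.symm, q2.2.symm⟩⟩)
      (nodup_of_count (fun a => by
          simp only [List.count_cons, List.count_append, List.count_reverse, List.count_nil]
          omega) hnd) (Or.inl hL2) (by simp) (by simp) ?_ ?_
    · intro x hx
      simp only [List.mem_cons, List.mem_append, List.mem_reverse] at hx ⊢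
      grind
    · have := List.length_pos_of_ne_nil hA
      simp only [List.length_cons, List.length_append, List.length_reverse, List.length_nil]
      omega

/-- successor of an element in a list cycle -/
theorem next_cases {l : List V} (h : IsCyc H l) {w : V} (hw : w ∈ l) :
    (∃ L1 b L3, l = L1 ++ w :: b :: L3 ∧ H.Adj w b ∧ List.formPerm l w = b) ∨
    (∃ b L, l = b :: (L ++ [w]) ∧ H.Adj w b ∧ List.formPerm l w = b) := by
  obtain ⟨h1, hnd, x, t, rfl, ht⟩ := h
  obtain ⟨L1, L2, hL⟩ := List.append_of_mem hw
  cases L2 with
  | nil =>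
    right
    cases L1 with
    | nil =>
      simp only [List.nil_append, List.cons.injEq] at hL
      rw [hL.2] at h1
      simp at h1
    | cons b L =>
      simp only [List.cons_append, List.cons.injEq] at hL
      obtain ⟨rfl, rfl⟩ := hL
      refine ⟨x, L, rfl, Pth_nil.mp (Pth_append.mp ht).2, ?_⟩
      rw [List.formPerm_cons_concat_apply_last]
  | cons b L3 =>
    left
    refine ⟨L1, b, L3, hL, ?_, ?_⟩
    · have hch : List.IsChain H.Adj (x :: t) := by
        have : List.IsChain H.Adj ((x :: t) ++ [x]) := by simpa [Pth] using ht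
        exact this.left_of_append
      rw [hL, List.isChain_append_cons_cons] at hch
      exact hch.2.1
    · have hn : L1.length + 1 < (x :: t).length := by
        rw [hL]
        simp only [List.length_append, List.length_cons]
        omega
      have := List.formPerm_apply_lt_getElem (x :: t) hnd L1.length hn
      have e1 : (x :: t)[L1.length] = w := by
        simp only [hL]
        simp
      have e2 : (x :: t)[L1.length + 1] = b := by
        simp only [hL]
        rw [List.getElem_append_right (by omega)]
        simp
      rw [e1, e2] at this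
      exact this

theorem formPerm_two_ne {l : List V} (h3 : 3 ≤ l.length) (hnd : l.Nodup) {w : V} (hw : w ∈ l) :
    List.formPerm l (List.formPerm l w) ≠ w := by
  obtain ⟨i, hi, rfl⟩ := List.getElem_of_mem hw
  rw [List.formPerm_apply_getElem l hnd, List.formPerm_apply_getElem l hnd]
  intro hcon
  rw [hnd.getElem_inj_iff] at hcon
  rcases Nat.lt_or_ge (i + 1) l.length with h | h
  · rw [Nat.mod_eq_of_lt h] at hcon
    rcases Nat.lt_or_ge (i + 1 + 1) l.length with h' | h'
    · rw [Nat.mod_eq_of_lt h'] at hcon
      omega
    · have : i + 1 + 1 = l.length := by omega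
      rw [this, Nat.mod_self] at hcon
      omega
  · have : i + 1 = l.length := by omega
    rw [this, Nat.mod_self, Nat.mod_eq_of_lt (by omega)] at hcon
    omega

theorem exists_cycData {F : Finset V} (htri : NoTri H F) (h3 : ∀ v ∈ F, dg H F v ≤ 3)
    (heven : ¬ NoEven H F) :
    ∃ W ⊆ F, ∃ (s : V → V) (σ : V → Bool) (u0 : V), CycData H W s σ u0 := by
  -- it suffices to produce a suitable shortest cycle
  suffices hs : ∃ (l : List V) (u0 : V), MinEC H F l ∧ ∀ a ∈ l, ∀ b ∈ l, a ≠ u0 → b ≠ u0 →
      H.Adj a b → List.formPerm l a = b ∨ List.formPerm l b = a by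
    obtain ⟨l, u0, hl, hch⟩ := hs
    refine ⟨l.toFinset, ?_, List.formPerm l, fun v => decide (Even (l.idxOf v)), u0, ?_⟩
    · intro x hx
      exact hl.2.2.1 x (by simpa using hx)
    · refine ⟨?_, ?_, ?_, ?_, ?_, ?_, ?_⟩
      · obtain ⟨-, -, x, t, rfl, -⟩ := hl.1
        exact ⟨x, by simp⟩
      · intro w hw
        rw [List.mem_toFinset] at hw ⊢
        exact List.formPerm_apply_mem_of_mem hw
      · intro w hw
        rw [List.mem_toFinset] at hw
        rcases next_cases hl.1 hw with ⟨_, b, _, _, h1, h2⟩ | ⟨b, _, _, h1, h2⟩
        · rw [h2]; exact h1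
        · rw [h2]; exact h1
      · intro w _ w' _ h
        exact (List.formPerm l).injective h
      · intro w hw
        rw [List.mem_toFinset] at hw
        exact formPerm_two_ne hl.1.1 hl.1.2.1 hw
      · intro w hw
        rw [List.mem_toFinset] at hw
        have hnd := hl.1.2.1
        rcases next_cases hl.1 hw with ⟨L1, b, L3, h0, h1, h2⟩ | ⟨b, L, h0, h1, h2⟩
        · rw [h2]
          subst h0
          have hw1 : w ∉ L1 := by
            intro hcon
            rw [List.nodup_append] at hnd
            exact hnd.2.2 w hcon w (by simp) rfl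
          have hb1 : b ∉ L1 := by
            intro hcon
            rw [List.nodup_append] at hnd
            exact hnd.2.2 b hcon b (by simp) rfl
          have hwb : w ≠ b := h1.ne
          have i1 : (L1 ++ w :: b :: L3).idxOf w = L1.length := by
            rw [List.idxOf_append_of_notMem hw1, List.idxOf_cons_self]
            simp
          have i2 : (L1 ++ w :: b :: L3).idxOf b = L1.length + 1 := by
            rw [List.idxOf_append_of_notMem hb1, List.idxOf_cons_ne _ hwb,
              List.idxOf_cons_self]
          simp only [i1, i2]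
          intro hcon
          rw [decide_eq_decide, Nat.even_add_one] at hcon
          tauto
        · rw [h2]
          have hev := hl.2.1
          subst h0
          have hwb : b ≠ w := h1.ne'
          have hwL : w ∉ L := by
            intro hcon
            have := (List.nodup_cons.mp hnd).2
            rw [List.nodup_append] at this
            exact this.2.2 w hcon w (by simp) rfl
          have i1 : (b :: (L ++ [w])).idxOf w = L.length + 1 := by
            rw [List.idxOf_cons_ne _ hwb, List.idxOf_append_of_notMem hwL,
              List.idxOf_cons_self]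
          have i2 : (b :: (L ++ [w])).idxOf b = 0 := by
            rw [List.idxOf_cons_self]
          simp only [i1, i2]
          intro hcon
          rw [decide_eq_decide] at hcon
          simp only [List.length_cons, List.length_append, List.length_nil] at hev
          have h5 : Even (L.length + 1) := hcon.mp (by decide)
          rw [Nat.even_add_one] at h5
          have h6 : L.length + (0 + 1) + 1 = L.length + 2 := by ring
          rw [h6, Nat.even_add] at hev
          have : Even 2 := by decide
          tauto
      · intro w hw w' hw' h1 h2 h4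
        rw [List.mem_toFinset] at hw hw'
        rcases hch w hw w' hw' h1 h2 h4 with h | h
        · left; exact h.symm
        · right; exact h.symm
  by_cases hc : ∃ u A v B, A ≠ [] ∧ B ≠ [] ∧ H.Adj u v ∧ MinEC H F (u :: (A ++ v :: B))
  · obtain ⟨u, A, v, B, hA, hB, huv, hl⟩ := hc
    refine ⟨u :: (A ++ v :: B), u, hl, ?_⟩
    have main : ∀ a b L1 L2 L3, A ++ v :: B = L1 ++ a :: (L2 ++ b :: L3) → H.Adj a b →
        List.formPerm (u :: (A ++ v :: B)) a = b := by
      intro a b L1 L2 L3 he hab
      have hL2 := chord_unique htri h3 hA hB huv hl he hab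
      subst hL2
      have hmem : a ∈ u :: (A ++ v :: B) := by rw [he]; simp
      rcases next_cases hl.1 hmem with ⟨M1, c, M3, h0, h1, h2⟩ | ⟨c, M, h0, h1, h2⟩
      · rw [h2]
        have hnd := hl.1.2.1
        rw [he] at h0
        have h5 : (u :: L1) ++ a :: (b :: L3) = M1 ++ a :: (c :: M3) := by simpa using h0
        have hnd' : ((u :: L1) ++ a :: (b :: L3)).Nodup := by
          rw [he] at hnd
          simpa using hnd
        have h6 : a ∉ u :: L1 := by
          intro hcon
          rw [List.nodup_append] at hnd'
          exact hnd'.2.2 a hcon a (by simp) rfl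
        have h7 : a ∉ M1 := by
          rw [h5] at hnd'
          intro hcon
          rw [List.nodup_append] at hnd'
          exact hnd'.2.2 a hcon a (by simp) rfl
        have h8 := congrArg (List.idxOf a) h5
        rw [List.idxOf_append_of_notMem h6, List.idxOf_append_of_notMem h7,
          List.idxOf_cons_self, List.idxOf_cons_self] at h8
        have h9 := List.append_inj h5 (by omega)
        simp only [List.cons.injEq, true_and] at h9
        exact h9.2.1.symm
      · exfalso
        have hnd := hl.1.2.1
        rw [he] at h0 hnd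
        simp only [List.cons.injEq] at h0
        obtain ⟨-, h0⟩ := h0
        have h5 : (L1 ++ a :: ([] ++ b :: L3)).count a ≤ 1 :=
          List.nodup_iff_count_le_one.mp (List.nodup_cons.mp hnd).2 a
        have h6 : a ∈ b :: L3 := by
          have h7 := congrArg List.getLast? h0
          simp only [List.nil_append, List.getLast?_append, List.getLast?_cons_cons, List.getLast?_singleton] at h7
          have h8 : (b :: L3).getLast? = some a := by
            rcases h9 : (b :: L3).getLast? with _ | y
            · simp at h9
            · rw [h9] at h7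
              simp at h7
              rw [h7]
          exact List.mem_of_getLast? h8
        have h7 : 1 ≤ (b :: L3).count a := List.one_le_count_iff.mpr h6
        simp only [List.nil_append, List.count_append, List.count_cons] at h5 h7
        simp only [beq_iff_eq, if_true] at h5 h7
        omega
    intro a ha b hb hau hbu hab
    have ha' : a ∈ A ++ v :: B := by
      rcases List.mem_cons.mp ha with h | h
      · exact absurd h hau
      · exact h
    have hb' : b ∈ A ++ v :: B := by
      rcases List.mem_cons.mp hb with h | h
      · exact absurd h hbu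
      · exact h
    rcases split_two ha' hb' hab.ne with ⟨L1, L2, L3, he⟩ | ⟨L1, L2, L3, he⟩
    · left; exact main a b L1 L2 L3 he hab
    · right; exact main b a L1 L2 L3 he hab.symm
  · obtain ⟨l, hl⟩ := exists_minEC heven
    obtain ⟨x0, hx0⟩ : ∃ x0, x0 ∈ l := by
      obtain ⟨-, -, x, t, rfl, -⟩ := hl.1
      exact ⟨x, by simp⟩
    refine ⟨l, x0, hl, ?_⟩
    have main : ∀ a b L1 L2 L3, l = L1 ++ a :: (L2 ++ b :: L3) → H.Adj a b →
        List.formPerm l a = b ∨ List.formPerm l b = a := by
      intro a b L1 L2 L3 he hab
      have hrot : MinEC H F (a :: ((L2 ++ b :: L3) ++ L1)) := by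
        rw [he] at hl
        exact hl.rotate
      have e : a :: ((L2 ++ b :: L3) ++ L1) = a :: (L2 ++ b :: (L3 ++ L1)) := by simp
      rw [e] at hrot
      by_cases hL2 : L2 = []
      · left
        subst hL2
        subst he
        have hn : L1.length + 1 < (L1 ++ a :: ([] ++ b :: L3)).length := by
          simp only [List.nil_append, List.length_append, List.length_cons]
          omega
        have := List.formPerm_apply_lt_getElem _ hl.1.2.1 L1.length hn
        have e1 : (L1 ++ a :: ([] ++ b :: L3))[L1.length]'(by omega) = a := by simp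
        have e2 : (L1 ++ a :: ([] ++ b :: L3))[L1.length + 1] = b := by
          rw [List.getElem_append_right (by omega)]
          simp
        rw [e1, e2] at this
        exact this
      · by_cases hL3 : L3 ++ L1 = []
        · right
          rw [List.append_eq_nil_iff] at hL3
          obtain ⟨rfl, rfl⟩ := hL3
          subst he
          have e : ([] ++ a :: (L2 ++ [b])) = a :: (L2 ++ [b]) := rfl
          rw [e]
          exact List.formPerm_cons_concat_apply_last a b L2
        · exact absurd ⟨a, L2, b, L3 ++ L1, hL2, hL3, hab, hrot⟩ hc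
    intro a ha b hb _ _ hab
    rcases split_two ha hb hab.ne with ⟨L1, L2, L3, he⟩ | ⟨L1, L2, L3, he⟩
    · exact main a b L1 L2 L3 he hab
    · exact (main b a L1 L2 L3 he hab.symm).symm

end

end Pool.Agent.H.MP_0ae2e1_co
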