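import Mathlib

set_option autoImplicit false

namespace Pool.Agent.H.MP_0ae2e1_co

section Lists

variable {V : Type*}

/-- `Pth H z A y`: the list `z :: A ++ [y]` is a walk of `H`. -/
def Pth (H : SimpleGraph V) (z : V) (A : List V) (y : V) : Prop :=
  List.IsChain H.Adj (z :: (A ++ [y]))

variable {H : SimpleGraph V}

theorem Pth_nil {z y : V} : Pth H z [] y ↔ H.Adj z y := by
  simp [Pth]

theorem Pth_append {z x y : V} {A B : List V} :
    Pth H z (A ++ x :: B) y ↔ Pth H z A x ∧ Pth H x B y := by
  unfold Pth
  rw [List.append_assoc, List.cons_append]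
  exact List.isChain_cons_split

theorem Pth_cons {z x y : V} {B : List V} :
    Pth H z (x :: B) y ↔ H.Adj z x ∧ Pth H x B y := by
  have := Pth_append (H := H) (z := z) (x := x) (y := y) (A := []) (B := B)
  simpa [Pth_nil] using this

theorem Pth.symm {z y : V} {A : List V} (h : Pth H z A y) : Pth H y A.reverse z := by
  unfold Pth at *
  have h2 : (y :: (A.reverse ++ [z])) = (z :: (A ++ [y])).reverse := by simp
  rw [h2, List.isChain_reverse]
  exact h.imp (fun a b hab => hab.symm)

/-- A list cycle: nodup, length at least three, consecutive elements adjacent (cyclically). -/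
def IsCyc (H : SimpleGraph V) (l : List V) : Prop :=
  3 ≤ l.length ∧ l.Nodup ∧ ∃ a t, l = a :: t ∧ Pth H a t a

theorem isCyc_two {z y : V} {A B : List V} (hA : Pth H z A y) (hB : Pth H z B y)
    (hnd : (z :: y :: (A ++ B)).Nodup) (hne : A ≠ [] ∨ B ≠ []) :
    IsCyc H (z :: (A ++ y :: B.reverse)) := by
  refine ⟨?_, ?_, z, A ++ y :: B.reverse, rfl, ?_⟩
  · have : 0 < A.length + B.length := by
      rcases hne with h | h
      · have := List.length_pos_of_ne_nil h; omega
      · have := List.length_pos_of_ne_nil h; omega
    simp; omega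
  · have hp : (z :: (A ++ y :: B.reverse)).Perm (z :: y :: (A ++ B)) := by
      refine List.Perm.cons z ?_
      refine List.perm_middle.trans ?_
      exact List.Perm.cons y (List.Perm.append_left A (List.reverse_perm B))
    exact hp.nodup_iff.mpr hnd
  · rw [Pth_append]
    exact ⟨hA, hB.symm⟩

theorem nodup_of_count [DecidableEq V] {l l' : List V} (h : ∀ a, l'.count a ≤ l.count a)
    (hl : l.Nodup) : l'.Nodup := by
  rw [List.nodup_iff_count_le_one] at hl ⊢
  exact fun a => (h a).trans (hl a)

/-- Theta lemma: three internally disjoint paths between two vertices, at most one of them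
of length one, contain an even cycle. -/
theorem theta_even {z y : V} {A B C : List V} (hA : Pth H z A y) (hB : Pth H z B y)
    (hC : Pth H z C y) (hnd : (z :: y :: (A ++ B ++ C)).Nodup)
    (hAB : A ≠ [] ∨ B ≠ []) (hBC : B ≠ [] ∨ C ≠ []) (hAC : A ≠ [] ∨ C ≠ []) :
    ∃ l : List V, IsCyc H l ∧ Even l.length ∧ l ⊆ z :: y :: (A ++ B ++ C) := by
  have key : ∀ (X Y : List V), Pth H z X y → Pth H z Y y → (z :: y :: (X ++ Y)).Nodup →
      (X ≠ [] ∨ Y ≠ []) → Even (X.length + Y.length) → (∀ v ∈ X ++ Y, v ∈ A ++ B ++ C) →
      ∃ l : List V, IsCyc H l ∧ Even l.length ∧ l ⊆ z :: y :: (A ++ B ++ C) := by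
    intro X Y hX hY hn hne hev hsub
    refine ⟨z :: (X ++ y :: Y.reverse), isCyc_two hX hY hn hne, ?_, ?_⟩
    · simp only [List.length_cons, List.length_append, List.length_reverse]
      have : X.length + (Y.length + 1) + 1 = (X.length + Y.length) + 2 := by ring
      rw [this]
      exact hev.add (by decide)
    · intro v hv
      simp only [List.mem_cons, List.mem_append, List.mem_reverse] at hv hsub ⊢
      rcases hv with h | h | h | h
      · exact Or.inl h
      · exact Or.inr (Or.inr (hsub v (Or.inl h)))
      · exact Or.inr (Or.inl h)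
      · exact Or.inr (Or.inr (hsub v (Or.inr h)))
  have hAB' : (z :: y :: (A ++ B)).Nodup := by
    refine hnd.sublist ?_
    exact List.Sublist.cons_cons z (List.Sublist.cons_cons y (List.sublist_append_left _ _))
  have hBC' : (z :: y :: (B ++ C)).Nodup := by
    refine hnd.sublist ?_
    refine List.Sublist.cons_cons z (List.Sublist.cons_cons y ?_)
    rw [List.append_assoc]
    exact List.sublist_append_right _ _
  have hAC' : (z :: y :: (A ++ C)).Nodup := by
    refine hnd.sublist ?_
    refine List.Sublist.cons_cons z (List.Sublist.cons_cons y ?_)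
    exact List.Sublist.append (List.sublist_append_left _ _) (List.Sublist.refl _)
  rcases Nat.even_or_odd A.length with ha | ha <;> rcases Nat.even_or_odd B.length with hb | hb
  · exact key A B hA hB hAB' hAB (ha.add hb) (by intro v hv; simp at hv ⊢; tauto)
  · rcases Nat.even_or_odd C.length with hc | hc
    · exact key A C hA hC hAC' hAC (ha.add hc) (by intro v hv; simp at hv ⊢; tauto)
    · exact key B C hB hC hBC' hBC (hb.add_odd hc) (by intro v hv; simp at hv ⊢; tauto)
  · rcases Nat.even_or_odd C.length with hc | hc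
    · exact key B C hB hC hBC' hBC (hb.add hc) (by intro v hv; simp at hv ⊢; tauto)
    · exact key A C hA hC hAC' hAC (ha.add_odd hc) (by intro v hv; simp at hv ⊢; tauto)
  · exact key A B hA hB hAB' hAB (ha.add_odd hb) (by intro v hv; simp at hv ⊢; tauto)

end Lists

end Pool.Agent.H.MP_0ae2e1_co
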