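import Pool.Agent.H.MP_0ae2e1_co.Chord

set_option autoImplicit false

namespace Pool.Agent.H.MP_0ae2e1_co

open Classical

section

variable {V : Type*} {H : SimpleGraph V}

theorem dg_eq_sum (F : Finset V) (v : V) : dg H F v = ∑ u ∈ F, if H.Adj v u then 1 else 0 := by
  unfold dg
  rw [Finset.card_filter]

theorem dg_union {A B : Finset V} (h : Disjoint A B) (v : V) :
    dg H (A ∪ B) v = dg H A v + dg H B v := by
  rw [dg_eq_sum, dg_eq_sum, dg_eq_sum, Finset.sum_union h]

theorem dg_sdiff {A N : Finset V} (h : A ⊆ N) (v : V) :
    dg H N v = dg H A v + dg H (N \ A) v := by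
  rw [← dg_union Finset.disjoint_sdiff, Finset.union_sdiff_of_subset h]

theorem dg_mono {A B : Finset V} (h : A ⊆ B) (v : V) : dg H A v ≤ dg H B v := by
  rw [dg_sdiff h]
  omega

theorem dg_singleton (u v : V) : dg H {u} v = if H.Adj v u then 1 else 0 := by
  rw [dg_eq_sum, Finset.sum_singleton]

theorem dg_empty (v : V) : dg H ∅ v = 0 := by
  rw [dg_eq_sum]
  simp

theorem dg_pos {A : Finset V} {u v : V} (hu : u ∈ A) (h : H.Adj v u) : 1 ≤ dg H A v := by
  unfold dg
  rw [Nat.succ_le_iff, Finset.card_pos]
  exact ⟨u, Finset.mem_filter.mpr ⟨hu, h⟩⟩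

theorem exists_of_dg_pos {A : Finset V} {v : V} (h : 1 ≤ dg H A v) : ∃ u ∈ A, H.Adj v u := by
  unfold dg at h
  rw [Nat.succ_le_iff, Finset.card_pos] at h
  obtain ⟨u, hu⟩ := h
  rw [Finset.mem_filter] at hu
  exact ⟨u, hu.1, hu.2⟩

/-- number of adjacent pairs in `A × B` -/
noncomputable def ee (H : SimpleGraph V) (A B : Finset V) : ℕ := ∑ a ∈ A, dg H B a

theorem ee_comm (A B : Finset V) : ee H A B = ee H B A := by
  unfold ee
  simp_rw [dg_eq_sum]
  rw [Finset.sum_comm]
  refine Finset.sum_congr rfl (fun b _ => Finset.sum_congr rfl (fun a _ => ?_))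
  simp only [H.adj_comm a b]

theorem ee_union_left {A A' : Finset V} (h : Disjoint A A') (B : Finset V) :
    ee H (A ∪ A') B = ee H A B + ee H A' B := by
  unfold ee
  rw [Finset.sum_union h]

theorem ee_union_right {B B' : Finset V} (h : Disjoint B B') (A : Finset V) :
    ee H A (B ∪ B') = ee H A B + ee H A B' := by
  rw [ee_comm, ee_union_left h, ee_comm B, ee_comm B']

theorem ee_singleton_left (v : V) (B : Finset V) : ee H {v} B = dg H B v := by
  unfold ee
  simp

theorem ee_pos {A B : Finset V} {a b : V} (ha : a ∈ A) (hb : b ∈ B) (h : H.Adj a b) :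
    1 ≤ ee H A B := by
  unfold ee
  exact (dg_pos hb h).trans (Finset.single_le_sum (f := fun a => dg H B a) (fun _ _ => Nat.zero_le _) ha)

theorem exists_of_ee_pos {A B : Finset V} (h : 1 ≤ ee H A B) :
    ∃ a ∈ A, ∃ b ∈ B, H.Adj a b := by
  unfold ee at h
  by_contra hcon
  push Not at hcon
  have : ∑ a ∈ A, dg H B a = 0 := by
    apply Finset.sum_eq_zero
    intro a ha
    by_contra h0
    obtain ⟨u, hu, hau⟩ := exists_of_dg_pos (Nat.one_le_iff_ne_zero.mpr h0)
    exact hcon a ha u hu hau
  omega

/-- Lower bound for the number of edges leaving a triangle-free set without even cycles. -/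
theorem leaving_bound {N : Finset V} (hN : ∀ v ∈ N, dg H N v = 3) :
    ∀ (n : ℕ) (F : Finset V), F.card = n → F ⊆ N → F.Nonempty → NoEven H F → NoTri H F →
      min (F.card + 2) 5 ≤ ee H F (N \ F) := by
  intro n
  induction n with
  | zero =>
    intro F hF _ hne
    rw [Finset.card_eq_zero] at hF
    subst hF
    simp at hne
  | succ n ih =>
    intro F hcard hFN hne hno htri
    by_cases hmin : ∀ v ∈ F, 2 ≤ dg H F v
    · obtain ⟨S, hSF, hS5, hS⟩ := five_deg_two hne hno htri hmin
      refine (min_le_right _ _).trans ?_
      unfold ee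
      calc 5 = ∑ v ∈ S, 1 := by simp [hS5]
        _ ≤ ∑ v ∈ S, dg H (N \ F) v := by
            apply Finset.sum_le_sum
            intro v hv
            have h1 := hN v (hFN (hSF hv))
            rw [dg_sdiff hFN] at h1
            have := hS v hv
            omega
        _ ≤ ∑ v ∈ F, dg H (N \ F) v :=
            Finset.sum_le_sum_of_subset hSF
    · push Not at hmin
      obtain ⟨v, hvF, hv⟩ := hmin
      have hvN := hFN hvF
      have hdv := hN v hvN
      rw [dg_sdiff hFN] at hdv
      have hF' : F = (F.erase v) ∪ {v} := by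
        ext x
        simp only [Finset.mem_union, Finset.mem_erase, Finset.mem_singleton]
        constructor
        · intro hx
          by_cases hxv : x = v
          · exact Or.inr hxv
          · exact Or.inl ⟨hxv, hx⟩
        · rintro (h | h)
          · exact h.2
          · rw [h]; exact hvF
      have hdisj : Disjoint (F.erase v) {v} := by
        rw [Finset.disjoint_singleton_right]
        exact Finset.notMem_erase v F
      have hNF : N \ (F.erase v) = (N \ F) ∪ {v} := by
        ext x
        simp only [Finset.mem_union, Finset.mem_erase, Finset.mem_singleton, Finset.mem_sdiff]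
        constructor
        · rintro ⟨h1, h2⟩
          by_cases hxv : x = v
          · exact Or.inr hxv
          · left
            refine ⟨h1, fun hx => h2 ⟨hxv, hx⟩⟩
        · rintro (h | h)
          · exact ⟨h.1, fun hx => h.2 hx.2⟩
          · rw [h]
            exact ⟨hvN, fun hx => hx.1 rfl⟩
      have hdisj2 : Disjoint (N \ F) {v} := by
        rw [Finset.disjoint_singleton_right]
        simp [hvF]
      have hself : dg H {v} v = 0 := by
        rw [dg_singleton]
        simp
      have hdgv : dg H F v = dg H (F.erase v) v := by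
        conv_lhs => rw [hF']
        rw [dg_union hdisj, hself]
        rfl
      have e1 : ee H F (N \ F) = ee H (F.erase v) (N \ F) + dg H (N \ F) v := by
        calc ee H F (N \ F) = ee H (F.erase v ∪ {v}) (N \ F) := by rw [← hF']
          _ = _ := by rw [ee_union_left hdisj, ee_singleton_left]
      have e2 : ee H (F.erase v) (N \ (F.erase v)) =
          ee H (F.erase v) (N \ F) + dg H (F.erase v) v := by
        rw [hNF, ee_union_right hdisj2, ee_comm (F.erase v) {v}, ee_singleton_left]
      by_cases hF'ne : (F.erase v).Nonempty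
      · have hc : (F.erase v).card = n := by
          rw [Finset.card_erase_of_mem hvF, hcard]
          rfl
        have := ih (F.erase v) hc ((Finset.erase_subset v F).trans hFN) hF'ne
          (fun l h1 h2 h3 => hno l h1 h2 (fun x hx => Finset.mem_of_mem_erase (h3 x hx)))
          (fun a ha b hb c hc => htri a (Finset.mem_of_mem_erase ha) b (Finset.mem_of_mem_erase hb)
            c (Finset.mem_of_mem_erase hc))
        rw [e2, hc] at this
        rw [e1, hcard]
        omega
      · rw [Finset.not_nonempty_iff_eq_empty] at hF'ne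
        have hc : F.card = 1 := by
          rw [hF', hF'ne]
          simp
        rw [hc, e1]
        rw [hF'ne] at hdgv
        rw [dg_empty] at hdgv
        omega

end

end Pool.Agent.H.MP_0ae2e1_co
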