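import Pool.Agent.H.MP_0ae2e1_co.Small

set_option autoImplicit false
set_option linter.unusedSectionVars false

namespace Pool.Agent.H.MP_0ae2e1_co

open Classical

section

variable {V : Type*} [Fintype V] {G : SimpleGraph V}

/-- bad vertices of the link of `x` -/
noncomputable def DD (G : SimpleGraph V) (x : V) : Finset V :=
  (nb G x).filter (fun u => NFv G (nb G u) x)

theorem blockHyp_of_crit (h : Crit (EE G) (TR G) pt) (x : V) :
    BlockHyp G (nb G x) (DD G x) := by
  refine ⟨?_, ?_, ?_, ?_⟩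
  · intro v hv
    exact cubic_of_crit h (mem_nb.mp hv)
  · intro u hu v hv y hy z hz huv hyz huy hvy huz hvz
    exact no_K5minus h (mem_nb.mp hu) (mem_nb.mp hv) huv (mem_nb.mp hy) huy hvy (mem_nb.mp hz)
      huz hvz hyz
  · rintro v hv ⟨a, ha, b, hb, hva, hvb, hab⟩
    have hxv := mem_nb.mp hv
    have hxa := mem_nb.mp ha
    have hxb := mem_nb.mp hb
    rcases K4_bad h hxa hxv hxb hva.symm hab hvb with h1 | h1
    · exact Or.inr h1
    · left
      unfold DD
      rw [Finset.mem_filter]
      exact ⟨hv, h1⟩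
  · intro W hW s σ u0 hC
    by_contra hcon
    have hL : LC G x W s σ := ⟨hW, hC.ne, hC.maps, hC.adj, hC.inj, hC.ss, hC.col⟩
    refine hL.false_of_good h ((W ∩ DD G x) ∪ {u0}) ?_ ?_ ?_
    · have := Finset.card_union_le (W ∩ DD G x) {u0}
      rw [Finset.card_singleton] at this
      omega
    · intro w hw hwX hnf
      apply hwX
      rw [Finset.mem_union, Finset.mem_inter]
      left
      refine ⟨hw, ?_⟩
      unfold DD
      rw [Finset.mem_filter]
      exact ⟨hW hw, hnf⟩
    · intro w hw hwX w' hw' hwX' hadj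
      refine hC.chord w hw w' hw' ?_ ?_ hadj
      · rintro rfl
        apply hwX
        simp
      · rintro rfl
        apply hwX'
        simp

theorem inT_symm {x v : V} (hxv : G.Adj x v) : inT G (nb G x) v ↔ inT G (nb G v) x := by
  have key : ∀ x v : V, G.Adj x v → inT G (nb G x) v → inT G (nb G v) x := by
    rintro x v hxv ⟨a, ha, b, hb, hva, hvb, hab⟩
    exact ⟨a, mem_nb.mpr hva, b, mem_nb.mpr hvb, mem_nb.mp ha, mem_nb.mp hb, hab⟩
  exact ⟨key x v hxv, key v x hxv.symm⟩

theorem om_symm {x v : V} (hxv : G.Adj x v) : om G (nb G x) v = om G (nb G v) x := by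
  unfold om
  rw [if_congr (inT_symm hxv) rfl rfl]

theorem total_zero : ∑ x : V, ∑ v ∈ nb G x, gg G (nb G x) (DD G x) v = 0 := by
  have h1 : ∀ x : V, ∑ v ∈ nb G x, gg G (nb G x) (DD G x) v =
      ∑ v : V, (if G.Adj x v then om G (nb G x) v * (if NFv G (nb G v) x then 1 else 0) else 0) -
      ∑ v : V, (if G.Adj x v then om G (nb G x) v * (if NFv G (nb G x) v then 1 else 0) else 0) := by
    intro x
    rw [← Finset.sum_sub_distrib]
    unfold nb
    rw [Finset.sum_filter]
    refine Finset.sum_congr rfl (fun v _ => ?_)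
    by_cases hxv : G.Adj x v
    · rw [if_pos hxv, if_pos hxv, if_pos hxv]
      unfold gg
      congr 2
      have : v ∈ DD G x ↔ NFv G (nb G v) x := by
        unfold DD
        rw [Finset.mem_filter, mem_nb]
        tauto
      rw [if_congr this rfl rfl]
      rfl
    · rw [if_neg hxv, if_neg hxv, if_neg hxv]
      norm_num
  rw [Finset.sum_congr rfl (fun x _ => h1 x), Finset.sum_sub_distrib, sub_eq_zero]
  rw [Finset.sum_comm]
  refine Finset.sum_congr rfl (fun v _ => Finset.sum_congr rfl (fun x _ => ?_))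
  by_cases hxv : G.Adj x v
  · rw [if_pos hxv, if_pos hxv.symm, om_symm hxv]
  · rw [if_neg hxv, if_neg (fun h => hxv h.symm)]

theorem no_crit (h : Crit (EE G) (TR G) pt) : False := by
  obtain ⟨t, ht, -⟩ := h.bad (fun _ => true)
  rw [mem_TR] at ht
  obtain ⟨a, ha⟩ : t.Nonempty := by
    rw [← Finset.card_pos, ht.c3]
    norm_num
  obtain ⟨b, hb, hba, -⟩ := ht.third a a
  have hab : G.Adj a b := ht.cl a ha b hb hba.symm
  have hnn : ∀ x : V, 0 ≤ ∑ v ∈ nb G x, gg G (nb G x) (DD G x) v := by
    intro x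
    by_cases hne : (nb G x).Nonempty
    · have := block_lemma (blockHyp_of_crit h x) hne
      linarith
    · rw [Finset.not_nonempty_iff_eq_empty] at hne
      rw [hne, Finset.sum_empty]
  have hpos : 0 < ∑ x : V, ∑ v ∈ nb G x, gg G (nb G x) (DD G x) v := by
    refine Finset.sum_pos' (fun x _ => hnn x) ⟨a, Finset.mem_univ a, ?_⟩
    have := block_lemma (blockHyp_of_crit h a) ⟨b, mem_nb.mpr hab⟩
    linarith
  rw [total_zero] at hpos
  exact lt_irrefl _ hpos

/-- colourability of the triangles of a graph -/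
def Col (K : SimpleGraph V) : Prop :=
  ∃ c : Sym2 V → Bool, ∀ t ∈ TR K, ∃ p ∈ pt t, ∃ q ∈ pt t, c p ≠ c q

theorem col_of_le_three (hG : ∀ x u, G.Adj x u → ((TR G).filter (fun t => x ∈ t ∧ u ∈ t)).card ≤ 3) :
    Col G := by
  by_contra hcon
  -- minimal non-colourable subgraph
  have hex : ∃ n, ∃ K : SimpleGraph V, K ≤ G ∧ ¬ Col K ∧ (EE K).card = n := ⟨_, G, le_refl G, hcon, rfl⟩
  obtain ⟨K, hKG, hK, hKn⟩ := Nat.find_spec hex
  have hmin : ∀ K' : SimpleGraph V, K' ≤ G → (EE K').card < (EE K).card → Col K' := by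
    intro K' hK' hlt
    by_contra hc
    rw [hKn] at hlt
    exact Nat.find_min hex hlt ⟨K', hK', hc, rfl⟩
  refine no_crit (G := K) ⟨?_, ?_, ?_, ?_, ?_⟩
  · intro t ht e he
    rw [mem_TR] at ht
    induction e using Sym2.ind with
    | _ a b =>
      rw [mem_pt] at he
      exact mem_EE.mpr (ht.cl a he.1 b he.2.1 he.2.2)
  · intro t ht
    rw [mem_TR] at ht
    exact card_pt ht.c3
  · intro e he
    induction e using Sym2.ind with
    | _ a b =>
      rw [mem_EE] at he
      refine le_trans (Finset.card_le_card ?_) (hG a b (hKG he))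
      intro t ht
      rw [Finset.mem_filter, mem_TR, mem_pt] at ht
      rw [Finset.mem_filter, mem_TR]
      exact ⟨⟨ht.1.c3, fun x hx y hy hxy => hKG (ht.1.cl x hx y hy hxy)⟩, ht.2.1, ht.2.2.1⟩
  · intro c
    by_contra hno
    push Not at hno
    exact hK ⟨c, hno⟩
  · intro Z hZ hZne
    let K' : SimpleGraph V := K.deleteEdges (Z : Set (Sym2 V))
    have hK'K : K' ≤ K := SimpleGraph.deleteEdges_le _
    have hadj : ∀ a b, K'.Adj a b ↔ K.Adj a b ∧ s(a, b) ∉ Z := by
      intro a b
      simp only [K', SimpleGraph.deleteEdges_adj, Finset.mem_coe]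
    have hlt : (EE K').card < (EE K).card := by
      apply Finset.card_lt_card
      rw [Finset.ssubset_iff_of_subset]
      · obtain ⟨e, he⟩ := hZne
        refine ⟨e, hZ he, ?_⟩
        induction e using Sym2.ind with
        | _ a b =>
          rw [mem_EE, hadj]
          exact fun h => h.2 he
      · intro e he
        induction e using Sym2.ind with
        | _ a b =>
          rw [mem_EE] at he ⊢
          exact hK'K he
    obtain ⟨c, hc⟩ := hmin K' (hK'K.trans hKG) hlt
    refine ⟨c, fun t ht hd => hc t ?_⟩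
    rw [mem_TR] at ht ⊢
    refine ⟨ht.c3, fun x hx y hy hxy => ?_⟩
    rw [hadj]
    exact ⟨ht.cl x hx y hy hxy, Finset.disjoint_left.mp hd (mem_pt.mpr ⟨hx, hy, hxy⟩)⟩

end

/-- Every finite graph in which each edge lies in at most three triangles has a two-colouring of
its edges without monochromatic triangle. -/
theorem main {V : Type*} [Finite V] (G : SimpleGraph V)
    (hG : ∀ u v : V, G.Adj u v → {t : Finset V | G.IsNClique 3 t ∧ u ∈ t ∧ v ∈ t}.ncard ≤ 3) :
    ∃ c : Sym2 V → Bool, ∀ x y z : V, G.Adj x y → G.Adj y z → G.Adj x z →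
      ¬ (c s(x, y) = c s(y, z) ∧ c s(y, z) = c s(x, z)) := by
  have : Fintype V := Fintype.ofFinite V
  obtain ⟨c, hc⟩ := col_of_le_three (G := G) (by
    intro x u hxu
    have h1 := hG x u hxu
    rw [← Set.ncard_coe_finset]
    convert h1 using 2
    ext t
    simp only [Finset.coe_filter, Set.mem_ofPred_eq, mem_TR, SimpleGraph.isNClique_iff,
      SimpleGraph.isClique_iff]
    constructor
    · rintro ⟨h2, h3⟩
      exact ⟨⟨fun a ha b hb hab => h2.cl a ha b hb hab, h2.c3⟩, h3⟩
    · rintro ⟨⟨h2, h3⟩, h4⟩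
      exact ⟨⟨h3, fun a ha b hb hab => h2 ha hb hab⟩, h4⟩)
  refine ⟨c, fun x y z hxy hyz hxz => ?_⟩
  rintro ⟨h1, h2⟩
  obtain ⟨p, hp, q, hq, hpq⟩ := hc {x, y, z} (mem_TR.mpr (TT_of_adj hxy hxz hyz))
  have key : ∀ e ∈ pt ({x, y, z} : Finset V), c e = c s(x, y) := by
    intro e he
    induction e using Sym2.ind with
    | _ a b =>
      rw [mem_pt] at he
      obtain ⟨ha, hb, hab⟩ := he
      simp only [Finset.mem_insert, Finset.mem_singleton] at ha hb
      have s1 : s(y, x) = s(x, y) := Sym2.eq_swap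
      have s2 : s(z, y) = s(y, z) := Sym2.eq_swap
      have s3 : s(z, x) = s(x, z) := Sym2.eq_swap
      rcases ha with rfl | rfl | rfl <;> rcases hb with rfl | rfl | rfl
      · exact absurd rfl hab
      · rfl
      · rw [← h2, ← h1]
      · rw [s1]
      · exact absurd rfl hab
      · rw [← h1]
      · rw [s3, ← h2, ← h1]
      · rw [s2, ← h1]
      · exact absurd rfl hab
  exact hpq (by rw [key p hp, key q hq])

end Pool.Agent.H.MP_0ae2e1_co
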