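import Pool.Agent.H.MP_0ae2e1_co.Hyper
import Pool.Agent.H.MP_0ae2e1_co.Block

set_option autoImplicit false
set_option linter.unusedSectionVars false

namespace Pool.Agent.H.MP_0ae2e1_co

open Classical

section

variable {V : Type*} [Fintype V]

/-- edges -/
noncomputable def EE (G : SimpleGraph V) : Finset (Sym2 V) :=
  Finset.univ.filter (fun e => e ∈ G.edgeSet)

/-- triangles -/
noncomputable def TR (G : SimpleGraph V) : Finset (Finset V) :=
  Finset.univ.filter (fun t => TT G t)

/-- the three edges of a triangle -/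
noncomputable def pt (t : Finset V) : Finset (Sym2 V) := t.offDiag.image Sym2.mk.uncurry

/-- neighbours -/
noncomputable def nb (G : SimpleGraph V) (x : V) : Finset V := Finset.univ.filter (fun y => G.Adj x y)

variable {G : SimpleGraph V}

theorem mem_EE {a b : V} : s(a, b) ∈ EE G ↔ G.Adj a b := by
  unfold EE
  rw [Finset.mem_filter]
  simp

theorem mem_TR {t : Finset V} : t ∈ TR G ↔ TT G t := by
  unfold TR
  rw [Finset.mem_filter]
  simp

theorem mem_nb {x y : V} : y ∈ nb G x ↔ G.Adj x y := by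
  unfold nb
  rw [Finset.mem_filter]
  simp

theorem mem_pt {t : Finset V} {a b : V} : s(a, b) ∈ pt t ↔ a ∈ t ∧ b ∈ t ∧ a ≠ b := by
  unfold pt
  rw [Finset.mem_image]
  constructor
  · rintro ⟨⟨p, q⟩, hpq, he⟩
    rw [Finset.mem_offDiag] at hpq
    simp only [Function.uncurry_apply_pair, Sym2.eq_iff] at he
    rcases he with ⟨rfl, rfl⟩ | ⟨rfl, rfl⟩
    · exact hpq
    · exact ⟨hpq.2.1, hpq.1, fun h => hpq.2.2 h.symm⟩
  · rintro ⟨ha, hb, hab⟩
    exact ⟨(a, b), Finset.mem_offDiag.mpr ⟨ha, hb, hab⟩, rfl⟩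

theorem card_pt {t : Finset V} (h : t.card = 3) : (pt t).card = 3 := by
  unfold pt
  rw [Sym2.card_image_offDiag, h]
  rfl

theorem TT_of_adj {a b c : V} (hab : G.Adj a b) (hac : G.Adj a c) (hbc : G.Adj b c) :
    TT G {a, b, c} := by
  refine ⟨?_, ?_⟩
  · rw [Finset.card_eq_three]
    exact ⟨a, b, c, hab.ne, hac.ne, hbc.ne, rfl⟩
  · intro x hx y hy hxy
    simp only [Finset.mem_insert, Finset.mem_singleton] at hx hy
    rcases hx with rfl | rfl | rfl <;> rcases hy with rfl | rfl | rfl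
    · exact absurd rfl hxy
    · exact hab
    · exact hac
    · exact hab.symm
    · exact absurd rfl hxy
    · exact hbc
    · exact hac.symm
    · exact hbc.symm
    · exact absurd rfl hxy

theorem TT.exists_third {t : Finset V} (ht : TT G t) {a b : V} (ha : a ∈ t) (hb : b ∈ t)
    (hab : a ≠ b) : ∃ c, t = {a, b, c} ∧ G.Adj a b ∧ G.Adj a c ∧ G.Adj b c := by
  obtain ⟨c, hc, hca, hcb⟩ := ht.third a b
  refine ⟨c, ?_, ht.cl a ha b hb hab, ht.cl a ha c hc hca.symm, ht.cl b hb c hc hcb.symm⟩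
  symm
  apply Finset.eq_of_subset_of_card_le
  · intro x hx
    simp only [Finset.mem_insert, Finset.mem_singleton] at hx
    rcases hx with rfl | rfl | rfl <;> assumption
  · rw [ht.c3]
    have : ({a, b, c} : Finset V).card = 3 := by
      rw [Finset.card_eq_three]
      exact ⟨a, b, c, hab, hca.symm, hcb.symm, rfl⟩
    omega

/-- number of triangles containing an edge -/
theorem card_TR_edge {x u : V} (hxu : G.Adj x u) :
    ((TR G).filter (fun t => s(x, u) ∈ pt t)).card = dg G (nb G x) u := by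
  unfold dg
  symm
  apply Finset.card_bij (fun w _ => ({x, u, w} : Finset V))
  · intro w hw
    rw [Finset.mem_filter, mem_nb] at hw
    rw [Finset.mem_filter, mem_TR, mem_pt]
    exact ⟨TT_of_adj hxu hw.1 hw.2, by simp, by simp, hxu.ne⟩
  · intro w hw w' hw' h
    rw [Finset.mem_filter, mem_nb] at hw hw'
    have h1 : w ∈ ({x, u, w'} : Finset V) := by
      rw [← h]
      simp
    simp only [Finset.mem_insert, Finset.mem_singleton] at h1
    rcases h1 with h1 | h1 | h1
    · exact absurd h1 hw.1.ne'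
    · exact absurd h1 hw.2.ne'
    · exact h1
  · intro t ht
    rw [Finset.mem_filter, mem_TR, mem_pt] at ht
    obtain ⟨c, hc, -, h2, h3⟩ := ht.1.exists_third ht.2.1 ht.2.2.1 ht.2.2.2
    exact ⟨c, Finset.mem_filter.mpr ⟨mem_nb.mpr h2, h3⟩, hc.symm⟩

/-- links are cubic in a critical graph -/
theorem cubic_of_crit (h : Crit (EE G) (TR G) pt) {x u : V} (hxu : G.Adj x u) :
    dg G (nb G x) u = 3 := by
  rw [← card_TR_edge hxu]
  exact h.deg_eq (mem_EE.mpr hxu)

/-- existence of a boundary edge -/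
theorem exists_boundary {N Uw : Finset V} {x a b c : V} (hx : x ∈ N) (ha : a ∈ N) (hb : b ∈ N)
    (hxa : G.Adj x a) (hxb : G.Adj x b)
    (hnb : ∀ z ∈ N, G.Adj x z → z = a ∨ z = b ∨ z = c)
    (hU : Uw ⊆ N) (hxU : x ∉ Uw) (haU : a ∈ Uw) (hbU : b ∉ Uw) (hgood : ¬ NFv G N x) :
    ∃ y ∈ Uw, ∃ y' ∈ N, y' ∉ Uw ∧ y' ≠ x ∧ G.Adj y y' := by
  by_contra hcon
  push Not at hcon
  apply hgood
  by_cases hc : c ∈ Uw
  · refine ⟨b, hb, hxb, insert x Uw, ?_, Finset.mem_insert_self _ _, ?_, ?_⟩
    · intro y hy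
      rcases Finset.mem_insert.mp hy with rfl | hy
      · exact hx
      · exact hU hy
    · rw [Finset.mem_insert, not_or]
      exact ⟨hxb.ne', hbU⟩
    · intro p hp q hq hqn hpq
      rw [Finset.mem_insert, not_or] at hqn
      rcases Finset.mem_insert.mp hp with rfl | hp
      · refine ⟨rfl, ?_⟩
        rcases hnb q hq hpq with rfl | rfl | rfl
        · exact absurd haU hqn.2
        · rfl
        · exact absurd hc hqn.2
      · exact absurd hpq (hcon p hp q hq hqn.2 hqn.1)
  · refine ⟨a, ha, hxa, N \ Uw, Finset.sdiff_subset, Finset.mem_sdiff.mpr ⟨hx, hxU⟩, ?_, ?_⟩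
    · simp [haU]
    · intro p hp q hq hqn hpq
      rw [Finset.mem_sdiff] at hp hqn
      have hqU : q ∈ Uw := by
        by_contra h
        exact hqn ⟨hq, h⟩
      have hpx : p = x := by
        by_contra h
        exact hcon q hqU p hp.1 hp.2 h hpq.symm
      subst hpx
      refine ⟨rfl, ?_⟩
      rcases hnb q hq hpq with rfl | rfl | rfl
      · rfl
      · exact absurd hqU hbU
      · exact absurd hqU hc

/-- if `v` has exactly three neighbours in `N`, three of which are `a,b,c`, these are all. -/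
theorem nbrs_eq {N : Finset V} {v a b c : V} (h3 : dg G N v = 3) (ha : a ∈ N) (hb : b ∈ N)
    (hc : c ∈ N) (hva : G.Adj v a) (hvb : G.Adj v b) (hvc : G.Adj v c) (hab : a ≠ b) (hac : a ≠ c)
    (hbc : b ≠ c) : ∀ z ∈ N, G.Adj v z → z = a ∨ z = b ∨ z = c := by
  intro z hz hvz
  by_contra hcon
  push Not at hcon
  refine four_nbrs (F := N) (v := v) (le_of_eq h3) ha hb hc hz hva hvb hvc hvz ?_
  simp only [List.nodup_cons, List.mem_cons, List.not_mem_nil, or_false, not_or,
    List.nodup_nil, and_true, not_false_eq_true]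
  exact ⟨⟨hab, hac, hcon.1.symm⟩, ⟨hbc, hcon.2.1.symm⟩, hcon.2.2.symm⟩

end

end Pool.Agent.H.MP_0ae2e1_co
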