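import Mathlib

set_option autoImplicit false
set_option linter.unusedSectionVars false
set_option linter.unusedDecidableInType false

namespace Pool.Agent.H.MP_0ae2e1_co

open Classical

section

variable {α β : Type*} [DecidableEq α] [DecidableEq β]

/-- A point-critical non-2-colourable 3-uniform hypergraph of maximum degree three.
Points `P`, blocks `B`, `pts b` the points of the block `b`. -/
structure Crit (P : Finset α) (B : Finset β) (pts : β → Finset α) : Prop where
  sub : ∀ b ∈ B, pts b ⊆ P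
  card3 : ∀ b ∈ B, (pts b).card = 3
  deg : ∀ p ∈ P, (B.filter (fun b => p ∈ pts b)).card ≤ 3
  bad : ∀ c : α → Bool, ∃ b ∈ B, ∀ p ∈ pts b, ∀ q ∈ pts b, c p = c q
  crit : ∀ Z ⊆ P, Z.Nonempty → ∃ c : α → Bool, ∀ b ∈ B, Disjoint (pts b) Z →
    ∃ p ∈ pts b, ∃ q ∈ pts b, c p ≠ c q

variable {P : Finset α} {B : Finset β} {pts : β → Finset α}

theorem Crit.no_partial (h : Crit P B pts) {Z : Finset α} (hZ : Z ⊆ P) (hne : Z.Nonempty)
    (z : α → Bool) (hz : ∀ b ∈ B, ¬ Disjoint (pts b) Z →
      ∃ p ∈ pts b, p ∈ Z ∧ ∃ q ∈ pts b, q ∈ Z ∧ z p ≠ z q) : False := by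
  obtain ⟨c, hc⟩ := h.crit Z hZ hne
  obtain ⟨b, hb, hmono⟩ := h.bad (fun p => if p ∈ Z then z p else c p)
  by_cases hd : Disjoint (pts b) Z
  · obtain ⟨p, hp, q, hq, hpq⟩ := hc b hb hd
    have hp' : p ∉ Z := Finset.disjoint_left.mp hd hp
    have hq' : q ∉ Z := Finset.disjoint_left.mp hd hq
    have := hmono p hp q hq
    simp only [if_neg hp', if_neg hq'] at this
    exact hpq this
  · obtain ⟨p, hp, hpZ, q, hq, hqZ, hpq⟩ := hz b hb hd
    have := hmono p hp q hq
    simp only [if_pos hpZ, if_pos hqZ] at this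
    exact hpq this

theorem Crit.card_le (h : Crit P B pts) : P.card ≤ B.card := by
  by_contra hcon
  rw [not_le] at hcon
  -- linear map from functions on points to functions on blocks
  let f : (P → ℝ) →ₗ[ℝ] (B → ℝ) :=
    { toFun := fun x b => ∑ p : P, if (p : α) ∈ pts b then x p else 0
      map_add' := by
        intro x y
        ext b
        simp only [Pi.add_apply]
        rw [← Finset.sum_add_distrib]
        refine Finset.sum_congr rfl (fun p _ => ?_)
        split_ifs <;> simp
      map_smul' := by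
        intro r x
        ext b
        simp only [Pi.smul_apply, smul_eq_mul, RingHom.id_apply]
        rw [Finset.mul_sum]
        refine Finset.sum_congr rfl (fun p _ => ?_)
        split_ifs <;> simp }
  have hker : LinearMap.ker f ≠ ⊥ := by
    apply LinearMap.ker_ne_bot_of_finrank_lt
    rw [Module.finrank_fintype_fun_eq_card, Module.finrank_fintype_fun_eq_card]
    simpa using hcon
  obtain ⟨x, hx, hx0⟩ := (Submodule.ne_bot_iff _).mp hker
  rw [LinearMap.mem_ker] at hx
  let Z : Finset α := P.filter (fun p => ∃ hp : p ∈ P, x ⟨p, hp⟩ ≠ 0)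
  let z : α → Bool := fun p => decide (∃ hp : p ∈ P, 0 < x ⟨p, hp⟩)
  refine h.no_partial (Z := Z) (Finset.filter_subset _ _) ?_ z ?_
  · by_contra hempty
    apply hx0
    ext p
    by_contra hp
    apply hempty
    refine ⟨p, Finset.mem_filter.mpr ⟨p.2, p.2, ?_⟩⟩
    exact hp
  · intro b hb hnd
    rw [Finset.not_disjoint_iff] at hnd
    obtain ⟨p, hp, hpZ⟩ := hnd
    have hpZ' := hpZ
    rw [Finset.mem_filter] at hpZ'
    obtain ⟨hpP, _, hxp⟩ := hpZ'
    have hsum : ∑ q : P, (if (q : α) ∈ pts b then x q else 0) = 0 := by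
      have := congrFun hx ⟨b, hb⟩
      simpa [f] using this
    -- there is a positive and a negative value
    have hpos : ∃ q : P, (q : α) ∈ pts b ∧ 0 < x q := by
      by_contra hno
      push Not at hno
      have h1 : ∀ q ∈ (Finset.univ : Finset P), (if (q : α) ∈ pts b then x q else 0) ≤ 0 := by
        intro q _
        split_ifs with hq
        · exact hno q hq
        · exact le_refl 0
      have h2 := (Finset.sum_eq_zero_iff_of_nonpos h1).mp hsum ⟨p, hpP⟩ (Finset.mem_univ _)
      rw [if_pos hp] at h2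
      exact hxp h2
    have hneg : ∃ q : P, (q : α) ∈ pts b ∧ x q < 0 := by
      by_contra hno
      push Not at hno
      have h1 : ∀ q ∈ (Finset.univ : Finset P), 0 ≤ (if (q : α) ∈ pts b then x q else 0) := by
        intro q _
        split_ifs with hq
        · exact hno q hq
        · exact le_refl 0
      have h2 := (Finset.sum_eq_zero_iff_of_nonneg h1).mp hsum ⟨p, hpP⟩ (Finset.mem_univ _)
      rw [if_pos hp] at h2
      exact hxp h2
    obtain ⟨q, hq, hq0⟩ := hpos
    obtain ⟨r, hr, hr0⟩ := hneg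
    refine ⟨q, hq, Finset.mem_filter.mpr ⟨q.2, q.2, ne_of_gt hq0⟩, r, hr,
      Finset.mem_filter.mpr ⟨r.2, r.2, ne_of_lt hr0⟩, ?_⟩
    have e1 : z q = true := by
      simp only [z, decide_eq_true_eq]
      exact ⟨q.2, hq0⟩
    have e2 : z r = false := by
      simp only [z, decide_eq_false_iff_not]
      rintro ⟨h1, h2⟩
      exact absurd h2 (not_lt.mpr hr0.le)
    rw [e1, e2]
    simp

theorem sum_deg (W : Finset α) (B : Finset β) (pts : β → Finset α) :
    ∑ p ∈ W, (B.filter (fun b => p ∈ pts b)).card = ∑ b ∈ B, (pts b ∩ W).card := by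
  have h1 : ∀ p ∈ W, (B.filter (fun b => p ∈ pts b)).card = ∑ b ∈ B, if p ∈ pts b then 1 else 0 := by
    intro p _
    rw [Finset.card_filter]
  have h2 : ∀ b ∈ B, (pts b ∩ W).card = ∑ p ∈ W, if p ∈ pts b then 1 else 0 := by
    intro b _
    rw [← Finset.card_filter]
    congr 1
    ext p
    rw [Finset.mem_inter, Finset.mem_filter]
    tauto
  rw [Finset.sum_congr rfl h1, Finset.sum_congr rfl h2, Finset.sum_comm]

theorem Crit.sum_deg_eq (h : Crit P B pts) :
    ∑ p ∈ P, (B.filter (fun b => p ∈ pts b)).card = 3 * B.card := by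
  rw [sum_deg]
  have : ∀ b ∈ B, (pts b ∩ P).card = 3 := by
    intro b hb
    rw [Finset.inter_eq_left.mpr (h.sub b hb)]
    exact h.card3 b hb
  rw [Finset.sum_congr rfl this, Finset.sum_const, smul_eq_mul, mul_comm]

theorem Crit.deg_eq (h : Crit P B pts) {p : α} (hp : p ∈ P) :
    (B.filter (fun b => p ∈ pts b)).card = 3 := by
  by_contra hcon
  have h1 : ∑ p ∈ P, (B.filter (fun b => p ∈ pts b)).card < ∑ p ∈ P, 3 := by
    refine Finset.sum_lt_sum h.deg ⟨p, hp, ?_⟩
    have := h.deg p hp
    omega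
  rw [h.sum_deg_eq, Finset.sum_const, smul_eq_mul] at h1
  have := h.card_le
  omega

/-- A matching of the blocks outside of `VT` into the points outside of `VE` gives a
contradiction. -/
theorem Crit.no_injection (h : Crit P B pts) {VE : Finset α} {VT : Finset β} (hVE : VE ⊆ P)
    (hne : VE.Nonempty) (σ : α → Bool)
    (hVT : ∀ b ∈ VT, ∃ p ∈ pts b, p ∈ VE ∧ ∃ q ∈ pts b, q ∈ VE ∧ σ p ≠ σ q)
    (φ : β → α) (hφ : ∀ b ∈ B, b ∉ VT → φ b ∈ pts b ∧ φ b ∉ VE)
    (hinj : ∀ b ∈ B, b ∉ VT → ∀ b' ∈ B, b' ∉ VT → φ b = φ b' → b = b') : False := by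
  -- valid partial colourings
  let good : Finset α → Prop := fun Z => VE ⊆ Z ∧ Z ⊆ P ∧ ∃ z : α → Bool, (∀ p ∈ VE, z p = σ p) ∧
    ∀ b ∈ B, b ∉ VT → φ b ∈ Z → ∃ p ∈ pts b, p ∈ Z ∧ ∃ q ∈ pts b, q ∈ Z ∧ z p ≠ z q
  have hgood0 : good VE := ⟨Finset.Subset.refl _, hVE, σ, fun _ _ => rfl, fun b hb hbn hcon =>
    absurd hcon (hφ b hb hbn).2⟩
  obtain ⟨Z, hZmem, hZmax⟩ := Finset.exists_max_image (P.powerset.filter good) Finset.card
    ⟨VE, Finset.mem_filter.mpr ⟨Finset.mem_powerset.mpr hVE, hgood0⟩⟩
  rw [Finset.mem_filter] at hZmem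
  obtain ⟨-, hVEZ, hZP, z, hz1, hz2⟩ := hZmem
  -- every element outside of `Z` is the image of a block disjoint from `Z`
  have hout : ∀ e ∈ P, e ∉ Z → ∃ b ∈ B, b ∉ VT ∧ φ b = e ∧ Disjoint (pts b) Z := by
    intro e he heZ
    by_contra hcon
    push Not at hcon
    have hins : good (insert e Z) := by
      refine ⟨hVEZ.trans (Finset.subset_insert _ _), ?_, ?_⟩
      · intro x hx
        rcases Finset.mem_insert.mp hx with rfl | hx
        · exact he
        · exact hZP hx
      · by_cases hex : ∃ b ∈ B, b ∉ VT ∧ φ b = e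
        · obtain ⟨b, hb, hbn, hbe⟩ := hex
          have hnd := hcon b hb hbn hbe
          rw [Finset.not_disjoint_iff] at hnd
          obtain ⟨p, hp, hpZ⟩ := hnd
          have hpe : p ≠ e := by
            rintro rfl
            exact heZ hpZ
          refine ⟨Function.update z e (!z p), ?_, ?_⟩
          · intro q hq
            have hqe : q ≠ e := by
              rintro rfl
              exact heZ (hVEZ hq)
            rw [Function.update_of_ne hqe]
            exact hz1 q hq
          · intro b' hb' hbn' hφ'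
            rcases Finset.mem_insert.mp hφ' with h1 | h1
            · have hbb : b' = b := hinj b' hb' hbn' b hb hbn (by rw [h1, hbe])
              subst hbb
              refine ⟨p, hp, Finset.mem_insert_of_mem hpZ, e, ?_, Finset.mem_insert_self _ _, ?_⟩
              · rw [← hbe]
                exact (hφ b' hb hbn).1
              · rw [Function.update_of_ne hpe, Function.update_self]
                simp
            · obtain ⟨p', hp', hpZ', q', hq', hqZ', hpq'⟩ := hz2 b' hb' hbn' h1
              refine ⟨p', hp', Finset.mem_insert_of_mem hpZ', q', hq',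
                Finset.mem_insert_of_mem hqZ', ?_⟩
              rw [Function.update_of_ne (by rintro rfl; exact heZ hpZ'),
                Function.update_of_ne (by rintro rfl; exact heZ hqZ')]
              exact hpq'
        · push Not at hex
          refine ⟨z, hz1, ?_⟩
          intro b' hb' hbn' hφ'
          rcases Finset.mem_insert.mp hφ' with h1 | h1
          · exact absurd h1 (hex b' hb' hbn')
          · obtain ⟨p', hp', hpZ', q', hq', hqZ', hpq'⟩ := hz2 b' hb' hbn' h1
            exact ⟨p', hp', Finset.mem_insert_of_mem hpZ', q', hq',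
                Finset.mem_insert_of_mem hqZ', hpq'⟩
    have hle := hZmax (insert e Z) (Finset.mem_filter.mpr
      ⟨Finset.mem_powerset.mpr hins.2.1, hins⟩)
    rw [Finset.card_insert_of_notMem heZ] at hle
    omega
  -- the blocks of the outside elements
  let W : Finset α := P \ Z
  have hW : ∀ e ∈ W, ∃ b ∈ B, b ∉ VT ∧ φ b = e ∧ Disjoint (pts b) Z := by
    intro e he
    rw [Finset.mem_sdiff] at he
    exact hout e he.1 he.2
  let BW : Finset β := B.filter (fun b => b ∉ VT ∧ φ b ∈ W ∧ Disjoint (pts b) Z)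
  have hBWcard : W.card ≤ BW.card := by
    have hsub : W ⊆ BW.image φ := by
      intro e he
      obtain ⟨b, hb, hbn, hbe, hd⟩ := hW e he
      rw [Finset.mem_image]
      refine ⟨b, Finset.mem_filter.mpr ⟨hb, hbn, ?_, hd⟩, hbe⟩
      rw [hbe]
      exact he
    exact (Finset.card_le_card hsub).trans Finset.card_image_le
  have hcount : ∀ b ∈ B, b ∉ BW → (pts b ∩ W).card = 0 := by
    have h1 : ∑ b ∈ B, (pts b ∩ W).card ≤ 3 * W.card := by
      rw [← sum_deg]
      calc ∑ p ∈ W, (B.filter (fun b => p ∈ pts b)).card ≤ ∑ p ∈ W, 3 :=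
            Finset.sum_le_sum (fun p hp => h.deg p (Finset.mem_sdiff.mp hp).1)
        _ = 3 * W.card := by rw [Finset.sum_const, smul_eq_mul, mul_comm]
    have h2 : ∑ b ∈ BW, (pts b ∩ W).card = 3 * BW.card := by
      have : ∀ b ∈ BW, (pts b ∩ W).card = 3 := by
        intro b hb
        rw [Finset.mem_filter] at hb
        have hs : pts b ⊆ W := by
          intro p hp
          exact Finset.mem_sdiff.mpr ⟨h.sub b hb.1 hp, Finset.disjoint_left.mp hb.2.2.2 hp⟩
        rw [Finset.inter_eq_left.mpr hs]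
        exact h.card3 b hb.1
      rw [Finset.sum_congr rfl this, Finset.sum_const, smul_eq_mul, mul_comm]
    have h3 : ∑ b ∈ B, (pts b ∩ W).card =
        ∑ b ∈ BW, (pts b ∩ W).card + ∑ b ∈ B \ BW, (pts b ∩ W).card := by
      rw [add_comm, Finset.sum_sdiff (Finset.filter_subset _ _)]
    have h4 : ∑ b ∈ B \ BW, (pts b ∩ W).card = 0 := by omega
    intro b hb hbn
    exact (Finset.sum_eq_zero_iff.mp h4) b (Finset.mem_sdiff.mpr ⟨hb, hbn⟩)
  refine h.no_partial hZP (hne.mono hVEZ) z ?_
  intro b hb hnd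
  have hbn : b ∉ BW := fun hc => hnd (Finset.mem_filter.mp hc).2.2.2
  have hsub : pts b ⊆ Z := by
    intro p hp
    by_contra hpZ
    have h1 := hcount b hb hbn
    rw [Finset.card_eq_zero] at h1
    have : p ∈ pts b ∩ W := Finset.mem_inter.mpr ⟨hp, Finset.mem_sdiff.mpr ⟨h.sub b hb hp, hpZ⟩⟩
    rw [h1] at this
    simp at this
  by_cases hbT : b ∈ VT
  · obtain ⟨p, hp, hpE, q, hq, hqE, hpq⟩ := hVT b hbT
    refine ⟨p, hp, hVEZ hpE, q, hq, hVEZ hqE, ?_⟩
    rw [hz1 p hpE, hz1 q hqE]
    exact hpq
  · exact hz2 b hb hbT (hsub (hφ b hb hbT).1)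

/-- incidences between a set of blocks and a set of points -/
noncomputable def inc (pts : β → Finset α) (S : Finset β) (U : Finset α) : Finset (β × α) :=
  (S ×ˢ U).filter (fun x => x.2 ∈ pts x.1)

theorem mem_inc {S : Finset β} {U : Finset α} {x : β × α} :
    x ∈ inc pts S U ↔ x.1 ∈ S ∧ x.2 ∈ U ∧ x.2 ∈ pts x.1 := by
  unfold inc
  rw [Finset.mem_filter, Finset.mem_product, and_assoc]

theorem card_inc_left (S : Finset β) (U : Finset α) :
    (inc pts S U).card = ∑ b ∈ S, (pts b ∩ U).card := by
  unfold inc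
  rw [Finset.card_filter, Finset.sum_product]
  refine Finset.sum_congr rfl (fun b _ => ?_)
  rw [← Finset.card_filter]
  congr 1
  ext p
  rw [Finset.mem_inter, Finset.mem_filter]
  tauto

theorem card_inc_right (S : Finset β) (U : Finset α) :
    (inc pts S U).card = ∑ p ∈ U, (S.filter (fun b => p ∈ pts b)).card := by
  rw [card_inc_left, sum_deg]

/-- Hall criterion. -/
theorem Crit.hall (h : Crit P B pts) {VE : Finset α} {VT : Finset β} (hVE : VE ⊆ P)
    (hne : VE.Nonempty) (σ : α → Bool)
    (hVT : ∀ b ∈ VT, ∃ p ∈ pts b, p ∈ VE ∧ ∃ q ∈ pts b, q ∈ VE ∧ σ p ≠ σ q)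
    (hM : ∀ S ⊆ B \ VT, (inc pts S VE).card ≤
      (inc pts (B \ S) (S.biUnion (fun b => pts b \ VE))).card + 2) : False := by
  have hH : ∀ S ⊆ B \ VT, S.card ≤ (S.biUnion (fun b => pts b \ VE)).card := by
    intro S hS
    have hSB : S ⊆ B := hS.trans Finset.sdiff_subset
    set U := S.biUnion (fun b => pts b \ VE) with hU
    have hUP : U ⊆ P := by
      intro p hp
      rw [hU, Finset.mem_biUnion] at hp
      obtain ⟨b, hb, hpb⟩ := hp
      exact h.sub b (hSB hb) (Finset.mem_sdiff.mp hpb).1
    have h1 : (inc pts S U).card + (inc pts S VE).card = 3 * S.card := by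
      rw [card_inc_left, card_inc_left, ← Finset.sum_add_distrib]
      have : ∀ b ∈ S, (pts b ∩ U).card + (pts b ∩ VE).card = 3 := by
        intro b hb
        have e : pts b ∩ U = pts b \ VE := by
          ext p
          rw [Finset.mem_inter, Finset.mem_sdiff]
          constructor
          · rintro ⟨hp, hpU⟩
            refine ⟨hp, ?_⟩
            rw [hU, Finset.mem_biUnion] at hpU
            obtain ⟨b', _, hpb'⟩ := hpU
            exact (Finset.mem_sdiff.mp hpb').2
          · rintro ⟨hp, hpE⟩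
            refine ⟨hp, ?_⟩
            rw [hU, Finset.mem_biUnion]
            exact ⟨b, hb, Finset.mem_sdiff.mpr ⟨hp, hpE⟩⟩
        rw [e, Finset.card_sdiff_add_card_inter]
        exact h.card3 b (hSB hb)
      rw [Finset.sum_congr rfl this, Finset.sum_const, smul_eq_mul, mul_comm]
    have h2 : (inc pts S U).card + (inc pts (B \ S) U).card = 3 * U.card := by
      rw [card_inc_right, card_inc_right, ← Finset.sum_add_distrib]
      have : ∀ p ∈ U, (S.filter (fun b => p ∈ pts b)).card +
          ((B \ S).filter (fun b => p ∈ pts b)).card = 3 := by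
        intro p hp
        rw [← h.deg_eq (hUP hp), ← Finset.card_union_of_disjoint]
        · congr 1
          rw [← Finset.filter_union, Finset.union_sdiff_of_subset hSB]
        · exact Finset.disjoint_filter_filter Finset.disjoint_sdiff
      rw [Finset.sum_congr rfl this, Finset.sum_const, smul_eq_mul, mul_comm]
    have h3 := hM S hS
    rw [← hU] at h3
    omega
  -- Hall's theorem
  let ι := {b // b ∈ B \ VT}
  have hHall := (Finset.all_card_le_biUnion_card_iff_existsInjective'
    (fun b : ι => pts b.1 \ VE)).mp (by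
      intro s
      have := hH (s.image Subtype.val) (by
        intro b hb
        rw [Finset.mem_image] at hb
        obtain ⟨b', _, rfl⟩ := hb
        exact b'.2)
      rw [Finset.card_image_of_injective _ Subtype.val_injective] at this
      refine this.trans (le_of_eq ?_)
      congr 1
      rw [Finset.image_biUnion])
  obtain ⟨f, hf1, hf2⟩ := hHall
  have hneα : Nonempty α := ⟨hne.choose⟩
  refine h.no_injection hVE hne σ hVT
    (fun b => if hb : b ∈ B \ VT then f ⟨b, hb⟩ else hne.choose) ?_ ?_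
  · intro b hb hbn
    have hb' : b ∈ B \ VT := Finset.mem_sdiff.mpr ⟨hb, hbn⟩
    simp only [dif_pos hb']
    exact Finset.mem_sdiff.mp (hf2 ⟨b, hb'⟩)
  · intro b hb hbn b' hb1 hbn1 heq
    have hb' : b ∈ B \ VT := Finset.mem_sdiff.mpr ⟨hb, hbn⟩
    have hb1' : b' ∈ B \ VT := Finset.mem_sdiff.mpr ⟨hb1, hbn1⟩
    simp only [dif_pos hb', dif_pos hb1'] at heq
    have := hf1 heq
    exact congrArg Subtype.val this

end

end Pool.Agent.H.MP_0ae2e1_co
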