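import Pool.Agent.H.MP_0ae2e1_co.Geo

set_option autoImplicit false
set_option linter.unusedSectionVars false

namespace Pool.Agent.H.MP_0ae2e1_co

open Classical

section

variable {V : Type*} [Fintype V] {G : SimpleGraph V}

/-- spokes of a link cycle -/
noncomputable def spk (x : V) (W : Finset V) : Finset (Sym2 V) := W.image (fun w => s(x, w))

/-- triangles of a link cycle -/
noncomputable def rim (x : V) (W : Finset V) (s : V → V) : Finset (Finset V) :=
  W.image (fun w => ({x, w, s w} : Finset V))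

/-- active vertices -/
noncomputable def act (x : V) (W : Finset V) (S : Finset (Finset V)) : Finset V :=
  W.filter (fun w => ∃ b ∈ S, x ∈ b ∧ w ∈ b)

/-- the complement of the spokes in the union of the blocks of `S` -/
noncomputable def UU (VE : Finset (Sym2 V)) (S : Finset (Finset V)) : Finset (Sym2 V) :=
  S.biUnion (fun b => pt b \ VE)

theorem mem_UU {VE : Finset (Sym2 V)} {S : Finset (Finset V)} {e : Sym2 V} :
    e ∈ UU VE S ↔ ∃ b ∈ S, e ∈ pt b ∧ e ∉ VE := by
  unfold UU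
  rw [Finset.mem_biUnion]
  simp only [Finset.mem_sdiff]

theorem mem_spk {x : V} {W : Finset V} {a b : V} :
    s(a, b) ∈ spk x W ↔ (a = x ∧ b ∈ W) ∨ (b = x ∧ a ∈ W) := by
  unfold spk
  rw [Finset.mem_image]
  constructor
  · rintro ⟨w, hw, he⟩
    rw [Sym2.eq_iff] at he
    rcases he with ⟨rfl, rfl⟩ | ⟨rfl, rfl⟩
    · exact Or.inl ⟨rfl, hw⟩
    · exact Or.inr ⟨rfl, hw⟩
  · rintro (⟨rfl, hb⟩ | ⟨rfl, ha⟩)
    · exact ⟨b, hb, rfl⟩
    · exact ⟨a, ha, Sym2.eq_swap⟩

/-- combinatorial data of a link cycle -/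
structure LC (G : SimpleGraph V) (x : V) (W : Finset V) (s : V → V) (σ : V → Bool) : Prop where
  sub : W ⊆ nb G x
  ne : W.Nonempty
  maps : ∀ w ∈ W, s w ∈ W
  adj : ∀ w ∈ W, G.Adj w (s w)
  inj : ∀ w ∈ W, ∀ w' ∈ W, s w = s w' → w = w'
  ss : ∀ w ∈ W, s (s w) ≠ w
  col : ∀ w ∈ W, σ (s w) ≠ σ w

theorem LC.exists_pred {x : V} {W : Finset V} {s : V → V} {σ : V → Bool} (hL : LC G x W s σ)
    {w : V} (hw : w ∈ W) : ∃ p ∈ W, s p = w := by
  have h1 : W.image s = W := by
    apply Finset.eq_of_subset_of_card_le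
    · intro y hy
      rw [Finset.mem_image] at hy
      obtain ⟨w, hw, rfl⟩ := hy
      exact hL.maps w hw
    · rw [Finset.card_image_of_injOn]
      intro a ha b hb hab
      exact hL.inj a ha b hb hab
  rw [← h1, Finset.mem_image] at hw
  exact hw

theorem LC.mem_TR {x : V} {W : Finset V} {s : V → V} {σ : V → Bool} (hL : LC G x W s σ)
    {w : V} (hw : w ∈ W) : ({x, w, s w} : Finset V) ∈ TR G := by
  rw [Pool.Agent.H.MP_0ae2e1_co.mem_TR]
  exact TT_of_adj (mem_nb.mp (hL.sub hw)) (mem_nb.mp (hL.sub (hL.maps w hw))) (hL.adj w hw)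

/-- In a block of `S` containing the spoke `x w` the third vertex is determined. -/
theorem LC.third_unique (h : Crit (EE G) (TR G) pt) {x : V} {W : Finset V} {s : V → V}
    {σ : V → Bool} (hL : LC G x W s σ) {S : Finset (Finset V)} (hS : S ⊆ TR G \ rim x W s)
    {w : V} (hw : w ∈ W) {b b' : Finset V} (hb : b ∈ S) (hb' : b' ∈ S) (hxb : x ∈ b) (hwb : w ∈ b)
    (hxb' : x ∈ b') (hwb' : w ∈ b') : b = b' := by
  have hxw : G.Adj x w := mem_nb.mp (hL.sub hw)
  obtain ⟨p, hp, hpw⟩ := hL.exists_pred hw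
  have hxp : G.Adj x p := mem_nb.mp (hL.sub hp)
  have hxs : G.Adj x (s w) := mem_nb.mp (hL.sub (hL.maps w hw))
  have hpw' : G.Adj p w := by
    have := hL.adj p hp
    rwa [hpw] at this
  have hps : p ≠ s w := by
    intro hcon
    have := hL.ss p hp
    rw [hpw] at this
    exact this hcon.symm
  have key : ∀ b ∈ S, x ∈ b → w ∈ b → ∃ t, b = {x, w, t} ∧ G.Adj x t ∧ G.Adj w t ∧ t ≠ p ∧ t ≠ s w := by
    intro b hb hxb hwb
    have hbT := hS hb
    rw [Finset.mem_sdiff, Pool.Agent.H.MP_0ae2e1_co.mem_TR] at hbT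
    obtain ⟨t, ht, -, h2, h3⟩ := hbT.1.exists_third hxb hwb hxw.ne
    refine ⟨t, ht, h2, h3, ?_, ?_⟩
    · rintro rfl
      apply hbT.2
      unfold rim
      rw [Finset.mem_image]
      refine ⟨t, hp, ?_⟩
      rw [hpw, ht]
      ext y
      simp only [Finset.mem_insert, Finset.mem_singleton]
      tauto
    · rintro rfl
      apply hbT.2
      unfold rim
      rw [Finset.mem_image]
      exact ⟨w, hw, ht.symm⟩
  obtain ⟨t, ht, ht1, ht2, ht3, ht4⟩ := key b hb hxb hwb
  obtain ⟨t', ht', ht1', ht2', ht3', ht4'⟩ := key b' hb' hxb' hwb'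
  have h3 := cubic_of_crit h hxw
  have := nbrs_eq h3 (a := p) (b := s w) (c := t) (mem_nb.mpr hxp) (mem_nb.mpr hxs)
    (mem_nb.mpr ht1) hpw'.symm (hL.adj w hw) ht2 hps ht3.symm ht4.symm t' (mem_nb.mpr ht1') ht2'
  rcases this with h | h | h
  · exact absurd h ht3'
  · exact absurd h ht4'
  · rw [ht, ht', h]

theorem LC.card_inc_le (h : Crit (EE G) (TR G) pt) {x : V} {W : Finset V} {s : V → V}
    {σ : V → Bool} (hL : LC G x W s σ) {S : Finset (Finset V)} (hS : S ⊆ TR G \ rim x W s) :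
    (inc pt S (spk x W)).card ≤ (act x W S).card := by
  let f : V → Finset V × Sym2 V := fun w =>
    if hw : ∃ b ∈ S, x ∈ b ∧ w ∈ b then (hw.choose, s(x, w)) else (∅, s(x, w))
  have hsub : inc pt S (spk x W) ⊆ (act x W S).image f := by
    rintro ⟨b, e⟩ hbe
    rw [mem_inc] at hbe
    obtain ⟨hb, he, hpb⟩ := hbe
    simp only at hb he hpb
    unfold spk at he
    rw [Finset.mem_image] at he
    obtain ⟨w, hw, rfl⟩ := he
    rw [mem_pt] at hpb
    have hex : ∃ b ∈ S, x ∈ b ∧ w ∈ b := ⟨b, hb, hpb.1, hpb.2.1⟩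
    rw [Finset.mem_image]
    refine ⟨w, Finset.mem_filter.mpr ⟨hw, hex⟩, ?_⟩
    simp only [f, dif_pos hex]
    rw [Prod.mk.injEq]
    refine ⟨?_, rfl⟩
    have hc := hex.choose_spec
    exact hL.third_unique h hS hw hc.1 hb hc.2.1 hc.2.2 hpb.1 hpb.2.1
  exact (Finset.card_le_card hsub).trans Finset.card_image_le

theorem LC.hall (h : Crit (EE G) (TR G) pt) {x : V} {W : Finset V} {s : V → V}
    {σ : V → Bool} (hL : LC G x W s σ)
    (hM : ∀ S ⊆ TR G \ rim x W s, (act x W S).card ≤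
      (inc pt (TR G \ S) (UU (spk x W) S)).card + 2) : False := by
  let τ : Sym2 V → Bool := fun e => if he : ∃ w ∈ W, e = s(x, w) then σ he.choose else false
  have hτ : ∀ w ∈ W, τ s(x, w) = σ w := by
    intro w hw
    have hex : ∃ w' ∈ W, s(x, w) = s(x, w') := ⟨w, hw, rfl⟩
    simp only [τ, dif_pos hex]
    have hc := hex.choose_spec
    have h1 := hc.2
    rw [Sym2.eq_iff] at h1
    rcases h1 with h1 | h1
    · rw [← h1.2]
    · exfalso
      have := mem_nb.mp (hL.sub hw)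
      exact this.ne h1.2.symm
  have hmemspk : ∀ w ∈ W, s(x, w) ∈ spk x W := by
    intro w hw
    unfold spk
    exact Finset.mem_image_of_mem _ hw
  refine h.hall (VE := spk x W) (VT := rim x W s) ?_ ?_ τ ?_ ?_
  · intro e he
    unfold spk at he
    rw [Finset.mem_image] at he
    obtain ⟨w, hw, rfl⟩ := he
    exact mem_EE.mpr (mem_nb.mp (hL.sub hw))
  · obtain ⟨w, hw⟩ := hL.ne
    exact ⟨_, hmemspk w hw⟩
  · intro b hb
    unfold rim at hb
    rw [Finset.mem_image] at hb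
    obtain ⟨w, hw, rfl⟩ := hb
    have hxw := mem_nb.mp (hL.sub hw)
    have hxs := mem_nb.mp (hL.sub (hL.maps w hw))
    refine ⟨s(x, w), mem_pt.mpr ⟨by simp, by simp, hxw.ne⟩, hmemspk w hw,
      s(x, s w), mem_pt.mpr ⟨by simp, by simp, hxs.ne⟩, hmemspk _ (hL.maps w hw), ?_⟩
    rw [hτ w hw, hτ _ (hL.maps w hw)]
    exact (hL.col w hw).symm
  · intro S hS
    exact (hL.card_inc_le h hS).trans (hM S hS)

end

end Pool.Agent.H.MP_0ae2e1_co
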