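import Pool.Agent.H.MP_0ae2e1_co.Link

set_option autoImplicit false
set_option linter.unusedSectionVars false

namespace Pool.Agent.H.MP_0ae2e1_co

open Classical

section

variable {V : Type*} [Fintype V] {G : SimpleGraph V}

theorem LC.false_of_good (h : Crit (EE G) (TR G) pt) {x : V} {W : Finset V} {s : V → V}
    {σ : V → Bool} (hL : LC G x W s σ) (X : Finset V) (hX : X.card ≤ 2)
    (hgood : ∀ w ∈ W, w ∉ X → ¬ NFv G (nb G w) x)
    (hchord : ∀ w ∈ W, w ∉ X → ∀ w' ∈ W, w' ∉ X → G.Adj w w' → w' = s w ∨ w = s w') : False := by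
  refine hL.hall h ?_
  intro S hS
  set U := UU (spk x W) S with hU
  -- the missing pair attached to `w`
  let Q : V → Finset V × Sym2 V → Prop := fun w π => π ∈ inc pt (TR G \ S) U ∧
    ((s(w, s w) ∈ U ∧ π = ({x, w, s w}, s(w, s w))) ∨
      (s(w, s w) ∉ U ∧ ∃ y y', G.Adj w y ∧ x ∉ ({w, y, y'} : Finset V) ∧ s(w, y) ∈ U ∧
        π = ({w, y, y'}, s(w, y))))
  have hex : ∀ w ∈ act x W S \ X, ∃ π, Q w π := by
    intro w hw
    rw [Finset.mem_sdiff] at hw
    obtain ⟨hwA, hwX⟩ := hw
    unfold act at hwA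
    rw [Finset.mem_filter] at hwA
    obtain ⟨hwW, b, hbS, hxb, hwb⟩ := hwA
    have hxw : G.Adj x w := mem_nb.mp (hL.sub hwW)
    have hsW := hL.maps w hwW
    have hxs : G.Adj x (s w) := mem_nb.mp (hL.sub hsW)
    have hws : G.Adj w (s w) := hL.adj w hwW
    by_cases hr : s(w, s w) ∈ U
    · refine ⟨({x, w, s w}, s(w, s w)), ?_, Or.inl ⟨hr, rfl⟩⟩
      rw [mem_inc]
      refine ⟨?_, hr, ?_⟩
      · rw [Finset.mem_sdiff]
        refine ⟨hL.mem_TR hwW, ?_⟩
        intro hcon
        have := hS hcon
        rw [Finset.mem_sdiff] at this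
        apply this.2
        unfold rim
        exact Finset.mem_image_of_mem _ hwW
      · exact mem_pt.mpr ⟨by simp, by simp, hws.ne⟩
    · -- boundary edge
      obtain ⟨p, hp, hpw⟩ := hL.exists_pred hwW
      have hxp : G.Adj x p := mem_nb.mp (hL.sub hp)
      have hpw' : G.Adj p w := by
        have := hL.adj p hp
        rwa [hpw] at this
      have hps : p ≠ s w := by
        intro hcon
        have := hL.ss p hp
        rw [hpw] at this
        exact this hcon.symm
      have hbT := hS hbS
      rw [Finset.mem_sdiff, Pool.Agent.H.MP_0ae2e1_co.mem_TR] at hbT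
      obtain ⟨t, ht, -, hxt, hwt⟩ := hbT.1.exists_third hxb hwb hxw.ne
      have htp : t ≠ p := by
        rintro rfl
        apply hbT.2
        unfold rim
        rw [Finset.mem_image]
        refine ⟨t, hp, ?_⟩
        rw [hpw, ht]
        ext y
        simp only [Finset.mem_insert, Finset.mem_singleton]
        tauto
      have hts : t ≠ s w := by
        rintro rfl
        apply hbT.2
        unfold rim
        rw [Finset.mem_image]
        exact ⟨w, hwW, ht.symm⟩
      -- the neighbourhood of `w`
      let Uw : Finset V := (nb G w).filter (fun y => s(w, y) ∈ U)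
      have hxU : x ∉ Uw := by
        intro hcon
        rw [Finset.mem_filter] at hcon
        have := hcon.2
        rw [hU, mem_UU] at this
        obtain ⟨_, _, _, h4⟩ := this
        exact h4 (mem_spk.mpr (Or.inr ⟨rfl, hwW⟩))
      have htU : t ∈ Uw := by
        rw [Finset.mem_filter]
        refine ⟨mem_nb.mpr hwt, ?_⟩
        rw [hU, mem_UU]
        refine ⟨b, hbS, ?_, ?_⟩
        · rw [mem_pt, ht]
          exact ⟨by simp, by simp, hwt.ne⟩
        · rw [mem_spk]
          rintro (⟨h5, -⟩ | ⟨h5, -⟩)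
          · exact hxw.ne' h5
          · exact hxt.ne' h5
      have hsU : s w ∉ Uw := by
        intro hcon
        rw [Finset.mem_filter] at hcon
        exact hr hcon.2
      have hdeg : dg G (nb G w) x = 3 := cubic_of_crit h hxw.symm
      have hnbrs := nbrs_eq hdeg (a := t) (b := s w) (c := p) (mem_nb.mpr hwt) (mem_nb.mpr hws)
        (mem_nb.mpr hpw'.symm) hxt hxs hxp hts htp hps.symm
      obtain ⟨y, hy, y', hy', hyn, hyx, hyy⟩ := exists_boundary (mem_nb.mpr hxw.symm)
        (mem_nb.mpr hwt) (mem_nb.mpr hws) hxt hxs hnbrs (Finset.filter_subset _ _) hxU htU hsU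
        (hgood w hwW hwX)
      have hyU := (Finset.mem_filter.mp hy).2
      have hyw := mem_nb.mp (Finset.mem_filter.mp hy).1
      have hyw' := mem_nb.mp hy'
      have hyx' : y ≠ x := by
        rintro rfl
        exact hxU hy
      refine ⟨({w, y, y'}, s(w, y)), ?_, Or.inr ⟨hr, y, y', hyw, ?_, hyU, rfl⟩⟩
      · rw [mem_inc]
        refine ⟨?_, hyU, mem_pt.mpr ⟨by simp, by simp, hyw.ne⟩⟩
        rw [Finset.mem_sdiff]
        refine ⟨Pool.Agent.H.MP_0ae2e1_co.mem_TR.mpr (TT_of_adj hyw hyw' hyy), ?_⟩
        intro hcon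
        apply hyn
        rw [Finset.mem_filter]
        refine ⟨hy', ?_⟩
        rw [hU, mem_UU]
        refine ⟨_, hcon, mem_pt.mpr ⟨by simp, by simp, hyw'.ne⟩, ?_⟩
        rw [mem_spk]
        rintro (⟨h5, -⟩ | ⟨h5, -⟩)
        · exact hxw.ne' h5
        · exact hyx h5
      · simp only [Finset.mem_insert, Finset.mem_singleton, not_or]
        exact ⟨hxw.ne, hyx'.symm, hyx.symm⟩
  -- injectivity
  let f : V → Finset V × Sym2 V := fun w => if hw : ∃ π, Q w π then hw.choose else (∅, s(x, x))
  have hf : ∀ w ∈ act x W S \ X, Q w (f w) := by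
    intro w hw
    have := hex w hw
    simp only [f, dif_pos this]
    exact this.choose_spec
  have hcard : (act x W S \ X).card ≤ (inc pt (TR G \ S) U).card := by
    apply Finset.card_le_card_of_injOn f
    · intro w hw
      exact (hf w hw).1
    · intro w hw w' hw' heq
      have h1 := (hf w hw).2
      have h2 := (hf w' hw').2
      rw [Finset.mem_coe, Finset.mem_sdiff] at hw hw'
      have hwW : w ∈ W := (Finset.mem_filter.mp hw.1).1
      have hwW' : w' ∈ W := (Finset.mem_filter.mp hw'.1).1
      rw [heq] at h1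
      rcases h1 with ⟨r1, e1⟩ | ⟨r1, y, y', a1, x1, u1, e1⟩ <;>
        rcases h2 with ⟨r2, e2⟩ | ⟨r2, z, z', a2, x2, u2, e2⟩
      · rw [e1, Prod.mk.injEq, Sym2.eq_iff] at e2
        rcases e2.2 with ⟨h3, -⟩ | ⟨h3, h4⟩
        · exact h3
        · exfalso
          apply hL.ss w hwW
          rw [h4, ← h3]
      · exfalso
        rw [e1, Prod.mk.injEq] at e2
        apply x2
        rw [← e2.1]
        simp
      · exfalso
        rw [e1, Prod.mk.injEq] at e2
        apply x1
        rw [e2.1]
        simp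
      · rw [e1, Prod.mk.injEq, Sym2.eq_iff] at e2
        rcases e2.2 with ⟨h3, -⟩ | ⟨h3, h4⟩
        · exact h3
        · exfalso
          -- w = z, y = w'
          subst h4
          subst h3
          rcases hchord w hwW hw.2 y hwW' hw'.2 a1 with h5 | h5
          · exact r1 (h5 ▸ u1)
          · exact r2 (h5 ▸ u2)
  have h5 : (act x W S).card ≤ (act x W S \ X).card + X.card := by
    have := Finset.card_le_card_sdiff_add_card (s := act x W S) (t := X)
    omega
  omega

end

end Pool.Agent.H.MP_0ae2e1_co
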