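import Pool.Agent.H.MP_0ae2e1_co.Cycle

set_option autoImplicit false

namespace Pool.Agent.H.MP_0ae2e1_co

open Classical

section

variable {V : Type*} {H : SimpleGraph V}

/-- number of neighbours of `v` in `F` -/
noncomputable def dg (H : SimpleGraph V) (F : Finset V) (v : V) : ℕ :=
  (F.filter (fun u => H.Adj v u)).card

/-- no even cycle with all vertices in `F` -/
def NoEven (H : SimpleGraph V) (F : Finset V) : Prop :=
  ∀ l : List V, IsCyc H l → Even l.length → (∀ x ∈ l, x ∈ F) → False

/-- no triangle with all vertices in `F` -/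
def NoTri (H : SimpleGraph V) (F : Finset V) : Prop :=
  ∀ a ∈ F, ∀ b ∈ F, ∀ c ∈ F, H.Adj a b → H.Adj b c → H.Adj a c → False

/-- path lists in `F` -/
def LP (H : SimpleGraph V) (F : Finset V) (p : List V) : Prop :=
  p.Nodup ∧ List.IsChain H.Adj p ∧ ∀ x ∈ p, x ∈ F

/-- longest path lists in `F` -/
def Longest (H : SimpleGraph V) (F : Finset V) (p : List V) : Prop :=
  LP H F p ∧ ∀ q, LP H F q → q.length ≤ p.length

theorem exists_longest (F : Finset V) : ∃ p, Longest H F p := by
  have hb : ∀ q, LP H F q → q.length ≤ F.card := by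
    intro q hq
    rw [← List.toFinset_card_of_nodup hq.1]
    apply Finset.card_le_card
    intro x hx
    exact hq.2.2 x (by simpa using hx)
  have h0 : ∃ n, ∃ q, LP H F q ∧ q.length = n := ⟨0, [], ⟨List.nodup_nil, by simp, by simp⟩, rfl⟩
  let P : ℕ → Prop := fun n => ∃ q, LP H F q ∧ q.length = n
  have hP : ∃ n, P n := h0
  have hfin : ∀ n, P n → n ≤ F.card := by
    rintro n ⟨q, hq, rfl⟩
    exact hb q hq
  obtain ⟨q, hq, hlen⟩ := Nat.findGreatest_spec (P := P) (n := F.card) (m := 0) (Nat.zero_le _)
    ⟨[], ⟨List.nodup_nil, by simp, by simp⟩, rfl⟩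
  refine ⟨q, hq, fun q' hq' => ?_⟩
  rw [hlen]
  exact Nat.le_findGreatest (hb q' hq') ⟨q', hq', rfl⟩

theorem Longest.nbr_mem {F : Finset V} {v : V} {R : List V} (h : Longest H F (v :: R)) {w : V}
    (hw : w ∈ F) (hvw : H.Adj v w) : w ∈ R := by
  by_contra hcon
  have h1 : LP H F (w :: v :: R) := by
    refine ⟨?_, ?_, ?_⟩
    · rw [List.nodup_cons]
      refine ⟨?_, h.1.1⟩
      simp only [List.mem_cons, not_or]
      exact ⟨hvw.ne', hcon⟩
    · rw [List.isChain_cons_cons]
      exact ⟨hvw.symm, h.1.2.1⟩
    · intro x hx
      rcases List.mem_cons.mp hx with rfl | hx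
      · exact hw
      · exact h.1.2.2 x hx
  have h2 := h.2 _ h1
  simp at h2

theorem split_two {x y : V} {R : List V} (hx : x ∈ R) (hy : y ∈ R) (hxy : x ≠ y) :
    (∃ A B C, R = A ++ x :: (B ++ y :: C)) ∨ (∃ A B C, R = A ++ y :: (B ++ x :: C)) := by
  obtain ⟨A, B, rfl⟩ := List.append_of_mem hx
  simp only [List.mem_append, List.mem_cons] at hy
  rcases hy with hy | hy | hy
  · obtain ⟨A1, A2, rfl⟩ := List.append_of_mem hy
    exact Or.inr ⟨A1, A2, B, by simp⟩
  · exact absurd hy hxy.symm
  · obtain ⟨B1, B2, rfl⟩ := List.append_of_mem hy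
    exact Or.inl ⟨A, B1, B2, by simp⟩

/-- extract an element of a finset outside of a small set -/
theorem exists_nbr_notin {F : Finset V} {v : V} {n : ℕ} (h : n < dg H F v) (s : Finset V)
    (hs : s.card ≤ n) : ∃ w ∈ F, H.Adj v w ∧ w ∉ s := by
  have : ∃ w ∈ F.filter (fun u => H.Adj v u), w ∉ s := by
    apply Finset.exists_mem_notMem_of_card_lt_card
    exact lt_of_le_of_lt hs h
  obtain ⟨w, hw, hws⟩ := this
  rw [Finset.mem_filter] at hw
  exact ⟨w, hw.1, hw.2, hws⟩

theorem head_deg {F : Finset V} (hno : NoEven H F) {v : V} {R : List V}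
    (h : Longest H F (v :: R)) : dg H F v ≤ 2 := by
  by_contra hcon
  rw [not_le] at hcon
  obtain ⟨x, hxF, hvx, -⟩ := exists_nbr_notin (n := 2) hcon ∅ (by simp)
  have hxR := h.nbr_mem hxF hvx
  cases R with
  | nil => simp at hxR
  | cons v1 R' =>
    obtain ⟨x, hxF, hvx, hx1⟩ := exists_nbr_notin (n := 2) hcon {v1} (by simp)
    obtain ⟨y, hyF, hvy, hy1⟩ := exists_nbr_notin (n := 2) hcon {v1, x} (Finset.card_le_two)
    simp only [Finset.mem_singleton, Finset.mem_insert, not_or] at hx1 hy1
    have hxR : x ∈ R' := by
      have := h.nbr_mem hxF hvx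
      rcases List.mem_cons.mp this with h | h
      · exact absurd h hx1
      · exact h
    have hyR : y ∈ R' := by
      have := h.nbr_mem hyF hvy
      rcases List.mem_cons.mp this with h | h
      · exact absurd h hy1.1
      · exact h
    have main : ∀ a b, H.Adj v a → H.Adj v b → (∃ A B C, R' = A ++ a :: (B ++ b :: C)) → False := by
      rintro a b hva hvb ⟨A, B, C, rfl⟩
      obtain ⟨⟨hnd, hch, hF⟩, -⟩ := h
      have hch' : Pth H v (v1 :: A) a ∧ Pth H a B b := by
        have e1 : v :: v1 :: (A ++ a :: (B ++ b :: C)) = (v :: (((v1 :: A) ++ a :: B) ++ [b])) ++ C := by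
          simp
        rw [e1] at hch
        have h2 := hch.left_of_append
        have h3 : Pth H v ((v1 :: A) ++ a :: B) b := h2
        rw [Pth_append] at h3
        exact h3
      obtain ⟨l, hl1, hl2, hl3⟩ := theta_even (H := H) (z := v) (y := a) (A := v1 :: A) (B := [])
        (C := b :: B.reverse) hch'.1 (Pth_nil.mpr hva)
        (Pth_cons.mpr ⟨hvb, hch'.2.symm⟩) (nodup_of_count (fun a => by
          simp only [List.count_cons, List.count_append, List.count_reverse, List.count_nil]
          omega) hnd) (by simp) (by simp) (by simp)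
      refine hno l hl1 hl2 (fun x hx => hF x ?_)
      have := hl3 hx
      simp only [List.mem_cons, List.mem_append, List.mem_reverse] at this ⊢
      grind
    rcases split_two hxR hyR (Ne.symm hy1.2) with hs | hs
    · exact main x y hvx hvy hs
    · exact main y x hvy hvx hs

/-- the second vertex of a longest path whose head is adjacent to `c`. -/
theorem second_deg {F : Finset V} (hno : NoEven H F) (h2 : ∀ v ∈ F, 2 ≤ dg H F v)
    {v0 v1 c : V} {A B : List V} (hA : A ≠ [])
    (h : Longest H F (v0 :: v1 :: (A ++ c :: B))) (h0c : H.Adj v0 c) : dg H F v1 ≤ 2 := by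
  by_contra hcon
  rw [not_le] at hcon
  obtain ⟨a1, A', rfl⟩ := List.exists_cons_of_ne_nil hA
  obtain ⟨w, hwF, hvw, hw1⟩ := exists_nbr_notin (n := 2) hcon {v0, a1} (Finset.card_le_two)
  simp only [Finset.mem_singleton, Finset.mem_insert, not_or] at hw1
  have hw2 : w ≠ v1 := hvw.ne'
  obtain ⟨⟨hnd, hch, hF⟩, hmax⟩ := h
  have hch2 : H.Adj v0 v1 ∧ Pth H v1 (a1 :: A') c ∧ List.IsChain H.Adj (c :: B) := by
    rw [List.isChain_cons_cons] at hch
    refine ⟨hch.1, ?_⟩
    have h3 := hch.2
    rw [List.isChain_cons_split] at h3
    exact h3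
  obtain ⟨h01, hPA, hPB⟩ := hch2
  by_cases hwp : w ∈ v0 :: v1 :: ((a1 :: A') ++ c :: B)
  · have hwp' : w ∈ A' ∨ w = c ∨ w ∈ B := by
      simp only [List.mem_cons, List.mem_append] at hwp
      tauto
    rcases hwp' with hwA | rfl | hwB
    · obtain ⟨A1, A2, rfl⟩ := List.append_of_mem hwA
      have hp : Pth H v1 (a1 :: A1) w ∧ Pth H w A2 c := by
        have : Pth H v1 ((a1 :: A1) ++ w :: A2) c := by simpa using hPA
        exact Pth_append.mp this
      obtain ⟨l, hl1, hl2, hl3⟩ := theta_even (H := H) (z := v1) (y := w) (A := a1 :: A1) (B := [])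
        (C := v0 :: c :: A2.reverse) hp.1 (Pth_nil.mpr hvw)
        (Pth_cons.mpr ⟨h01.symm, Pth_cons.mpr ⟨h0c, hp.2.symm⟩⟩) (nodup_of_count (fun a => by
          simp only [List.count_cons, List.count_append, List.count_reverse, List.count_nil]
          omega) hnd) (by simp) (by simp) (by simp)
      refine hno l hl1 hl2 (fun x hx => hF x ?_)
      have := hl3 hx
      simp only [List.mem_cons, List.mem_append, List.mem_reverse] at this ⊢
      grind
    · obtain ⟨l, hl1, hl2, hl3⟩ := theta_even (H := H) (z := v1) (y := w) (A := a1 :: A')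
        (B := []) (C := [v0]) hPA (Pth_nil.mpr hvw)
        (Pth_cons.mpr ⟨h01.symm, Pth_nil.mpr h0c⟩) (nodup_of_count (fun a => by
          simp only [List.count_cons, List.count_append, List.count_reverse, List.count_nil]
          omega) hnd) (by simp) (by simp) (by simp)
      refine hno l hl1 hl2 (fun x hx => hF x ?_)
      have := hl3 hx
      simp only [List.mem_cons, List.mem_append, List.mem_reverse] at this ⊢
      grind
    · obtain ⟨B1, B2, rfl⟩ := List.append_of_mem hwB
      have hp : Pth H c B1 w := by
        have e : c :: (B1 ++ w :: B2) = (c :: (B1 ++ [w])) ++ B2 := by simp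
        rw [e] at hPB
        exact hPB.left_of_append
      obtain ⟨l, hl1, hl2, hl3⟩ := theta_even (H := H) (z := v1) (y := c) (A := a1 :: A')
        (B := [v0]) (C := w :: B1.reverse) hPA (Pth_cons.mpr ⟨h01.symm, Pth_nil.mpr h0c⟩)
        (Pth_cons.mpr ⟨hvw, hp.symm⟩) (nodup_of_count (fun a => by
          simp only [List.count_cons, List.count_append, List.count_reverse, List.count_nil]
          omega) hnd) (by simp) (by simp) (by simp)
      refine hno l hl1 hl2 (fun x hx => hF x ?_)
      have := hl3 hx
      simp only [List.mem_cons, List.mem_append, List.mem_reverse] at this ⊢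
      grind
  · -- `w` is off the path
    have hLw : Longest H F (w :: v1 :: ((a1 :: A') ++ c :: B)) := by
      refine ⟨⟨?_, ?_, ?_⟩, ?_⟩
      · rw [List.nodup_cons]
        refine ⟨fun hc => hwp (List.mem_cons_of_mem _ hc), (List.nodup_cons.mp hnd).2⟩
      · rw [List.isChain_cons_cons] at hch ⊢
        exact ⟨hvw.symm, hch.2⟩
      · intro x hx
        rcases List.mem_cons.mp hx with rfl | hx
        · exact hwF
        · exact hF x (List.mem_cons_of_mem _ hx)
      · intro q hq
        have := hmax q hq
        simpa using this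
    obtain ⟨x, hxF, hwx, hx1⟩ := exists_nbr_notin (n := 1) (h2 w hwF) {v1} (by simp)
    have hxm := hLw.nbr_mem hxF hwx
    rw [Finset.mem_singleton] at hx1
    have hnd2 : (w :: v0 :: v1 :: ((a1 :: A') ++ c :: B)).Nodup := List.nodup_cons.mpr ⟨hwp, hnd⟩
    have hF2 : ∀ x ∈ (w :: v0 :: v1 :: ((a1 :: A') ++ c :: B)), x ∈ F := by
      intro x hx
      rcases List.mem_cons.mp hx with rfl | hx
      · exact hwF
      · exact hF x hx
    have hxm' : x ∈ a1 :: A' ∨ x = c ∨ x ∈ B := by
      simp only [List.mem_cons, List.mem_append] at hxm ⊢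
      tauto
    rcases hxm' with hxA | rfl | hxB
    · obtain ⟨A1, A2, hA12⟩ := List.append_of_mem hxA
      rw [hA12] at hPA hnd2 hF2
      have hp := Pth_append.mp hPA
      obtain ⟨l, hl1, hl2, hl3⟩ := theta_even (H := H) (z := v1) (y := x) (A := A1) (B := [w])
        (C := v0 :: c :: A2.reverse) hp.1 (Pth_cons.mpr ⟨hvw, Pth_nil.mpr hwx⟩)
        (Pth_cons.mpr ⟨h01.symm, Pth_cons.mpr ⟨h0c, hp.2.symm⟩⟩) (nodup_of_count (fun a => by
          simp only [List.count_cons, List.count_append, List.count_reverse, List.count_nil]
          omega) hnd2) (by simp) (by simp) (by simp)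
      refine hno l hl1 hl2 (fun x hx => hF2 x ?_)
      have := hl3 hx
      simp only [List.mem_cons, List.mem_append, List.mem_reverse] at this ⊢
      grind
    · obtain ⟨l, hl1, hl2, hl3⟩ := theta_even (H := H) (z := v1) (y := x) (A := a1 :: A')
        (B := [w]) (C := [v0]) hPA (Pth_cons.mpr ⟨hvw, Pth_nil.mpr hwx⟩)
        (Pth_cons.mpr ⟨h01.symm, Pth_nil.mpr h0c⟩) (nodup_of_count (fun a => by
          simp only [List.count_cons, List.count_append, List.count_reverse, List.count_nil]
          omega) hnd2) (by simp) (by simp) (by simp)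
      refine hno l hl1 hl2 (fun x hx => hF2 x ?_)
      have := hl3 hx
      simp only [List.mem_cons, List.mem_append, List.mem_reverse] at this ⊢
      grind
    · obtain ⟨B1, B2, rfl⟩ := List.append_of_mem hxB
      have hp : Pth H c B1 x := by
        have e : c :: (B1 ++ x :: B2) = (c :: (B1 ++ [x])) ++ B2 := by simp
        rw [e] at hPB
        exact hPB.left_of_append
      obtain ⟨l, hl1, hl2, hl3⟩ := theta_even (H := H) (z := v1) (y := c) (A := a1 :: A')
        (B := [v0]) (C := w :: x :: B1.reverse) hPA (Pth_cons.mpr ⟨h01.symm, Pth_nil.mpr h0c⟩)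
        (Pth_cons.mpr ⟨hvw, Pth_cons.mpr ⟨hwx, hp.symm⟩⟩) (nodup_of_count (fun a => by
          simp only [List.count_cons, List.count_append, List.count_reverse, List.count_nil]
          omega) hnd2) (by simp) (by simp) (by simp)
      refine hno l hl1 hl2 (fun x hx => hF2 x ?_)
      have := hl3 hx
      simp only [List.mem_cons, List.mem_append, List.mem_reverse] at this ⊢
      grind

/-- A nonempty triangle-free graph of minimum degree at least two with no even cycle has at least
five vertices of degree two. -/
theorem five_deg_two {F : Finset V} (hF0 : F.Nonempty) (hno : NoEven H F) (htri : NoTri H F)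
    (h2 : ∀ v ∈ F, 2 ≤ dg H F v) : ∃ S ⊆ F, S.card = 5 ∧ ∀ v ∈ S, dg H F v ≤ 2 := by
  obtain ⟨p, hp⟩ := exists_longest (H := H) F
  -- the path has at least two vertices
  obtain ⟨f, hf⟩ := hF0
  cases p with
  | nil =>
    have := hp.2 [f] ⟨by simp, by simp, by simpa using hf⟩
    simp at this
  | cons v0 R =>
    have hv0 : v0 ∈ F := hp.1.2.2 v0 (by simp)
    obtain ⟨x, hxF, hvx, -⟩ := exists_nbr_notin (n := 1) (h2 v0 hv0) ∅ (by simp)
    have hxR := hp.nbr_mem hxF hvx
    cases R with
    | nil => simp at hxR
    | cons v1 R' =>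
      obtain ⟨c, hcF, h0c, hc1⟩ := exists_nbr_notin (n := 1) (h2 v0 hv0) {v1} (by simp)
      rw [Finset.mem_singleton] at hc1
      have hcR : c ∈ R' := by
        rcases List.mem_cons.mp (hp.nbr_mem hcF h0c) with h | h
        · exact absurd h hc1
        · exact h
      obtain ⟨A, B, rfl⟩ := List.append_of_mem hcR
      have hch := hp.1.2.1
      have hmem := hp.1.2.2
      have hnd := hp.1.1
      have hsplit : H.Adj v0 v1 ∧ Pth H v1 A c ∧ List.IsChain H.Adj (c :: B) := by
        rw [List.isChain_cons_cons] at hch
        refine ⟨hch.1, ?_⟩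
        have h3 := hch.2
        rw [List.isChain_cons_split] at h3
        exact h3
      obtain ⟨h01, hPA, hPB⟩ := hsplit
      have hv1 : v1 ∈ F := hmem v1 (by simp)
      -- `A` is nonempty
      have hA : A ≠ [] := by
        rintro rfl
        rw [Pth_nil] at hPA
        exact htri v0 hv0 v1 hv1 c hcF h01 hPA h0c
      -- length of `A` is even
      have hAe : Even A.length := by
        by_contra hodd
        rw [Nat.not_even_iff_odd] at hodd
        refine hno (v0 :: (v1 :: A ++ c :: [].reverse)) (isCyc_two (Pth_cons.mpr ⟨h01, hPA⟩)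
          (Pth_nil.mpr h0c) (nodup_of_count (fun a => by
            simp only [List.count_cons, List.count_append, List.count_nil]
            omega) hnd) (by simp)) ?_ ?_
        · simp only [List.reverse_nil, List.length_cons, List.length_append, List.length_nil]
          obtain ⟨k, hk⟩ := hodd
          exact ⟨k + 2, by omega⟩
        · intro x hx
          apply hmem
          simp only [List.reverse_nil, List.mem_cons, List.mem_append] at hx ⊢
          grind
      -- last two elements of `A`
      obtain ⟨A0, a', a'', rfl⟩ : ∃ A0 a' a'', A = A0 ++ [a', a''] := by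
        rcases List.eq_nil_or_concat A with h | ⟨A1, a'', h⟩
        · exact absurd h hA
        · rcases List.eq_nil_or_concat A1 with h' | ⟨A0, a', h'⟩
          · subst h'
            subst h
            simp at hAe
          · refine ⟨A0, a', a'', ?_⟩
            rw [h, h']
            simp
      -- last element of the path
      obtain ⟨B0, y, hBy⟩ : ∃ B0 y, c :: B = B0 ++ [y] := by
        rcases List.eq_nil_or_concat (c :: B) with h | ⟨A1, a'', h⟩
        · simp at h
        · exact ⟨A1, a'', by rw [h]; simp⟩
      have d0 := head_deg hno hp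
      have d1 := second_deg hno h2 hA hp h0c
      have hp3 : Longest H F (v0 :: v1 :: (A0 ++ [a', a''] ++ c :: B)).reverse := by
        refine ⟨⟨List.nodup_reverse.mpr hnd, ?_, ?_⟩, ?_⟩
        · rw [List.isChain_reverse]
          exact hch.imp (fun a b hab => hab.symm)
        · intro x hx
          exact hmem x (List.mem_reverse.mp hx)
        · intro q hq
          rw [List.length_reverse]
          exact hp.2 q hq
      have dy : dg H F y ≤ 2 := by
        rw [hBy] at hp3
        have e : (v0 :: v1 :: (A0 ++ [a', a''] ++ (B0 ++ [y]))).reverse =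
            y :: (v0 :: v1 :: (A0 ++ [a', a''] ++ B0)).reverse := by
          simp
        rw [e] at hp3
        exact head_deg hno hp3
      -- rotated path
      have hrot : Longest H F (a'' :: a' :: ((A0.reverse ++ [v1, v0]) ++ c :: B)) := by
        have hPA2 : List.IsChain H.Adj (v1 :: (A0 ++ [a', a''])) := by
          have : List.IsChain H.Adj ((v1 :: (A0 ++ [a', a''])) ++ [c]) := by
            simpa [Pth] using hPA
          exact this.left_of_append
        have hPA3 : List.IsChain H.Adj (v0 :: v1 :: (A0 ++ [a', a''])) := by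
          rw [List.isChain_cons_cons]
          exact ⟨h01, hPA2⟩
        have hPA4 : List.IsChain H.Adj (a'' :: a' :: (A0.reverse ++ [v1, v0])) := by
          have e : a'' :: a' :: (A0.reverse ++ [v1, v0]) =
              (v0 :: v1 :: (A0 ++ [a', a''])).reverse := by simp
          rw [e, List.isChain_reverse]
          exact hPA3.imp (fun a b hab => hab.symm)
        refine ⟨⟨?_, ?_, ?_⟩, ?_⟩
        · exact nodup_of_count (fun a => by
            simp only [List.count_cons, List.count_append, List.count_reverse, List.count_nil]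
            omega) hnd
        · have e : a'' :: a' :: ((A0.reverse ++ [v1, v0]) ++ c :: B) =
              (a'' :: a' :: (A0.reverse ++ [v1])) ++ v0 :: c :: B := by simp
          rw [e, List.isChain_append_cons_cons]
          refine ⟨?_, h0c, hPB⟩
          have e2 : (a'' :: a' :: (A0.reverse ++ [v1])) ++ [v0] =
            a'' :: a' :: (A0.reverse ++ [v1, v0]) := by simp
          rw [e2]
          exact hPA4
        · intro x hx
          apply hmem
          simp only [List.mem_cons, List.mem_append, List.mem_reverse] at hx ⊢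
          grind
        · intro q hq
          refine (hp.2 q hq).trans (le_of_eq ?_)
          simp only [List.length_cons, List.length_append, List.length_reverse, List.length_nil]
      have ha''c : H.Adj a'' c := by
        have e : v1 :: ((A0 ++ [a', a'']) ++ [c]) = (v1 :: (A0 ++ [a'])) ++ a'' :: c :: [] := by
          simp
        unfold Pth at hPA
        rw [e, List.isChain_append_cons_cons] at hPA
        exact hPA.2.1
      have da'' := head_deg hno hrot
      have da' := second_deg hno h2 (by simp) hrot ha''c
      refine ⟨{v0, v1, a', a'', y}, ?_, ?_, ?_⟩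
      · intro x hx
        apply hmem
        rw [hBy]
        simp only [Finset.mem_insert, Finset.mem_singleton] at hx
        simp only [List.mem_cons, List.mem_append]
        grind
      · have hnd5 : [v0, v1, a', a'', y].Nodup := by
          rw [hBy] at hnd
          exact nodup_of_count (fun a => by
            simp only [List.count_cons, List.count_append, List.count_nil]
            omega) hnd
        have e : ({v0, v1, a', a'', y} : Finset V) = [v0, v1, a', a'', y].toFinset := by
          simp
        rw [e, List.toFinset_card_of_nodup hnd5]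
        rfl
      · intro v hv
        simp only [Finset.mem_insert, Finset.mem_singleton] at hv
        rcases hv with rfl | rfl | rfl | rfl | rfl <;> assumption

end

end Pool.Agent.H.MP_0ae2e1_co
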