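import Pool.Agent.H.MP_0ae2e1_co.LinkCycle

set_option autoImplicit false
set_option linter.unusedSectionVars false

namespace Pool.Agent.H.MP_0ae2e1_co

open Classical

section

variable {V : Type*} [Fintype V] {G : SimpleGraph V}

/-- A critical graph contains no `K_5` minus an edge. -/
theorem no_K5minus (h : Crit (EE G) (TR G) pt) {x u v y z : V} (hxu : G.Adj x u) (hxv : G.Adj x v)
    (huv : G.Adj u v) (hxy : G.Adj x y) (huy : G.Adj u y) (hvy : G.Adj v y) (hxz : G.Adj x z)
    (huz : G.Adj u z) (hvz : G.Adj v z) (hyz : y ≠ z) : False := by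
  let W : Finset V := {u, y, v, z}
  let s : V → V := fun w => if w = u then y else if w = y then v else if w = v then z else u
  let σ : V → Bool := fun w => if w = u ∨ w = v then true else false
  have su : s u = y := by simp [s]
  have sy : s y = v := by simp [s, huy.ne']
  have sv : s v = z := by simp [s, huv.ne', hvy.ne]
  have sz : s z = u := by simp [s, huz.ne', hyz.symm, hvz.ne']
  have cu : σ u = true := by simp [σ]
  have cv : σ v = true := by simp [σ]
  have cy : σ y = false := by simp [σ, huy.ne', hvy.ne']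
  have cz : σ z = false := by simp [σ, huz.ne', hvz.ne']
  have hW : ∀ w ∈ W, w = u ∨ w = y ∨ w = v ∨ w = z := by
    intro w hw
    simpa [W] using hw
  have mu : u ∈ W := by simp [W]
  have my : y ∈ W := by simp [W]
  have mv : v ∈ W := by simp [W]
  have mz : z ∈ W := by simp [W]
  have hL : LC G x W s σ := by
    refine ⟨?_, ⟨u, mu⟩, ?_, ?_, ?_, ?_, ?_⟩
    · intro w hw
      rw [mem_nb]
      rcases hW w hw with rfl | rfl | rfl | rfl <;> assumption
    · intro w hw
      rcases hW w hw with rfl | rfl | rfl | rfl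
      · rw [su]; exact my
      · rw [sy]; exact mv
      · rw [sv]; exact mz
      · rw [sz]; exact mu
    · intro w hw
      rcases hW w hw with rfl | rfl | rfl | rfl
      · rw [su]; exact huy
      · rw [sy]; exact hvy.symm
      · rw [sv]; exact hvz
      · rw [sz]; exact huz.symm
    · intro w hw w' hw' he
      rcases hW w hw with rfl | rfl | rfl | rfl <;> rcases hW w' hw' with rfl | rfl | rfl | rfl <;>
        first
        | rfl
        | (exfalso
           simp only [su, sy, sv, sz] at he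
           first
           | exact hyz he
           | exact hyz he.symm
           | exact huv.ne he
           | exact huv.ne he.symm
           | exact huy.ne he
           | exact huy.ne he.symm
           | exact huz.ne he
           | exact huz.ne he.symm
           | exact hvy.ne he
           | exact hvy.ne he.symm
           | exact hvz.ne he
           | exact hvz.ne he.symm)
    · intro w hw
      rcases hW w hw with rfl | rfl | rfl | rfl
      · rw [su, sy]; exact huv.ne'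
      · rw [sy, sv]; exact hyz.symm
      · rw [sv, sz]; exact huv.ne
      · rw [sz, su]; exact hyz
    · intro w hw
      rcases hW w hw with rfl | rfl | rfl | rfl
      · rw [su, cu, cy]; simp
      · rw [sy, cy, cv]; simp
      · rw [sv, cv, cz]; simp
      · rw [sz, cu, cz]; simp
  refine hL.hall h ?_
  intro S hS
  have hactW : act x W S ⊆ W := Finset.filter_subset _ _
  have hWcard : W.card ≤ 4 := Finset.card_le_four
  by_cases hxuv : ({x, u, v} : Finset V) ∈ S
  · -- two missing pairs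
    have huvU : s(u, v) ∈ UU (spk x W) S := by
      rw [mem_UU]
      refine ⟨_, hxuv, mem_pt.mpr ⟨by simp, by simp, huv.ne⟩, ?_⟩
      rw [mem_spk]
      rintro (⟨h5, -⟩ | ⟨h5, -⟩)
      · exact hxu.ne' h5
      · exact hxv.ne' h5
    have key : ∀ t, G.Adj u t → G.Adj v t → G.Adj x t → ({x, u, t} : Finset V) ∈ rim x W s →
        ∃ π ∈ inc pt (TR G \ S) (UU (spk x W) S), π.1 = {x, u, t} ∨ π.1 = {u, v, t} := by
      intro t hut hvt hxt hrim
      by_cases hS2 : ({u, v, t} : Finset V) ∈ S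
      · refine ⟨({x, u, t}, s(u, t)), ?_, Or.inl rfl⟩
        rw [mem_inc]
        refine ⟨?_, ?_, mem_pt.mpr ⟨by simp, by simp, hut.ne⟩⟩
        · rw [Finset.mem_sdiff]
          refine ⟨mem_TR.mpr (TT_of_adj hxu hxt hut), fun hc => ?_⟩
          have := hS hc
          rw [Finset.mem_sdiff] at this
          exact this.2 hrim
        · rw [mem_UU]
          refine ⟨_, hS2, mem_pt.mpr ⟨by simp, by simp, hut.ne⟩, ?_⟩
          rw [mem_spk]
          rintro (⟨h5, -⟩ | ⟨h5, -⟩)
          · exact hxu.ne' h5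
          · exact hxt.ne' h5
      · refine ⟨({u, v, t}, s(u, v)), ?_, Or.inr rfl⟩
        rw [mem_inc]
        refine ⟨?_, huvU, mem_pt.mpr ⟨by simp, by simp, huv.ne⟩⟩
        rw [Finset.mem_sdiff]
        exact ⟨mem_TR.mpr (TT_of_adj huv hut hvt), hS2⟩
    have hr1 : ({x, u, y} : Finset V) ∈ rim x W s := by
      unfold rim
      rw [Finset.mem_image]
      exact ⟨u, mu, by rw [su]⟩
    have hr2 : ({x, u, z} : Finset V) ∈ rim x W s := by
      unfold rim
      rw [Finset.mem_image]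
      refine ⟨z, mz, ?_⟩
      rw [sz]
      ext q
      simp only [Finset.mem_insert, Finset.mem_singleton]
      tauto
    obtain ⟨π1, hπ1, hπ1'⟩ := key y huy hvy hxy hr1
    obtain ⟨π2, hπ2, hπ2'⟩ := key z huz hvz hxz hr2
    have hne : π1 ≠ π2 := by
      rintro rfl
      have h1 : z ∈ π1.1 := by
        rcases hπ2' with h | h <;> rw [h] <;> simp
      have h2 : z ∉ π1.1 := by
        rcases hπ1' with h | h <;> rw [h] <;>
          simp only [Finset.mem_insert, Finset.mem_singleton, not_or]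
        · exact ⟨hxz.ne', huz.ne', hyz.symm⟩
        · exact ⟨huz.ne', hvz.ne', hyz.symm⟩
      exact h2 h1
    have h2 : 1 < (inc pt (TR G \ S) (UU (spk x W) S)).card :=
      Finset.one_lt_card.mpr ⟨π1, hπ1, π2, hπ2, hne⟩
    have h4 := (Finset.card_le_card hactW).trans hWcard
    omega
  · -- only `y`, `z` can be active
    have key : ∀ w w', (w = u ∧ w' = v) ∨ (w = v ∧ w' = u) → w ∉ act x W S := by
      intro w w' hww hw
      unfold act at hw
      rw [Finset.mem_filter] at hw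
      obtain ⟨hwW, b, hb, hxb, hwb⟩ := hw
      have hbT := hS hb
      rw [Finset.mem_sdiff, mem_TR] at hbT
      have hxw : G.Adj x w := mem_nb.mp (hL.sub hwW)
      obtain ⟨t, ht, -, hxt, hwt⟩ := hbT.1.exists_third hxb hwb hxw.ne
      have hdeg := cubic_of_crit h hxw
      have hxw' : G.Adj x w' := by rcases hww with ⟨-, rfl⟩ | ⟨-, rfl⟩ <;> assumption
      have hww' : G.Adj w w' := by
        rcases hww with ⟨rfl, rfl⟩ | ⟨rfl, rfl⟩
        · exact huv
        · exact huv.symm
      have hwy : G.Adj w y := by rcases hww with ⟨rfl, -⟩ | ⟨rfl, -⟩ <;> assumption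
      have hwz : G.Adj w z := by rcases hww with ⟨rfl, -⟩ | ⟨rfl, -⟩ <;> assumption
      have hw'y : w' ≠ y := by
        rcases hww with ⟨-, rfl⟩ | ⟨-, rfl⟩
        · exact hvy.ne
        · exact huy.ne
      have hw'z : w' ≠ z := by
        rcases hww with ⟨-, rfl⟩ | ⟨-, rfl⟩
        · exact hvz.ne
        · exact huz.ne
      have := nbrs_eq hdeg (a := w') (b := y) (c := z) (mem_nb.mpr hxw') (mem_nb.mpr hxy)
        (mem_nb.mpr hxz) hww' hwy hwz hw'y hw'z hyz t (mem_nb.mpr hxt) hwt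
      rcases this with rfl | rfl | rfl
      · apply hxuv
        have e : ({x, u, v} : Finset V) = b := by
          rw [ht]
          rcases hww with ⟨rfl, rfl⟩ | ⟨rfl, rfl⟩
          · rfl
          · ext q
            simp only [Finset.mem_insert, Finset.mem_singleton]
            tauto
        rw [e]
        exact hb
      · apply hbT.2
        unfold rim
        rw [Finset.mem_image]
        rcases hww with ⟨rfl, rfl⟩ | ⟨rfl, rfl⟩
        · exact ⟨w, mu, by rw [su, ht]⟩
        · refine ⟨t, my, ?_⟩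
          rw [sy, ht]
          ext q
          simp only [Finset.mem_insert, Finset.mem_singleton]
          tauto
      · apply hbT.2
        unfold rim
        rw [Finset.mem_image]
        rcases hww with ⟨rfl, rfl⟩ | ⟨rfl, rfl⟩
        · refine ⟨t, mz, ?_⟩
          rw [sz, ht]
          ext q
          simp only [Finset.mem_insert, Finset.mem_singleton]
          tauto
        · exact ⟨w, mv, by rw [sv, ht]⟩
    have hsub : act x W S ⊆ {y, z} := by
      intro w hw
      rcases hW w (hactW hw) with rfl | rfl | rfl | rfl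
      · exact absurd hw (key w v (Or.inl ⟨rfl, rfl⟩))
      · simp
      · exact absurd hw (key w u (Or.inr ⟨rfl, rfl⟩))
      · simp
    have := (Finset.card_le_card hsub).trans Finset.card_le_two
    omega

/-- corner lemma for the `K_4` structure -/
theorem corner (h : Crit (EE G) (TR G) pt) {a b c d : V} (hab : G.Adj a b) (hac : G.Adj a c)
    (had : G.Adj a d) (hbc : G.Adj b c) (hbd : G.Adj b d) (hcd : G.Adj c d)
    {S : Finset (Finset V)} {VE : Finset (Sym2 V)}
    (hVb : s(a, b) ∈ VE) (hVd : s(a, d) ∈ VE) (hV : ∀ y, s(a, y) ∈ VE → y = b ∨ y = d)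
    (hacU : s(a, c) ∉ UU VE S)
    {z1 z4 : V} (h1 : ({a, b, z1} : Finset V) ∈ S) (h1c : z1 ≠ c) (h1d : z1 ≠ d)
    (haz1 : G.Adj a z1) (hbz1 : G.Adj b z1)
    (h4 : ({a, d, z4} : Finset V) ∈ S) (h4c : z4 ≠ c) (h4b : z4 ≠ b)
    (haz4 : G.Adj a z4) (hdz4 : G.Adj d z4)
    (hgood : ¬ NFv G (nb G a) c) :
    ∃ y y', G.Adj a y ∧ (({a, y, y'} : Finset V), s(a, y)) ∈ inc pt (TR G \ S) (UU VE S) := by
  by_contra hcon
  push Not at hcon
  let Ua : Finset V := (nb G a).filter (fun y => s(a, y) ∈ UU VE S)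
  have mem_Ua : ∀ y, y ∈ Ua ↔ G.Adj a y ∧ s(a, y) ∈ UU VE S := by
    intro y
    simp only [Ua, Finset.mem_filter, mem_nb]
  have hbU : b ∉ Ua := by
    rw [mem_Ua]
    rintro ⟨-, h5⟩
    rw [mem_UU] at h5
    obtain ⟨_, _, _, h6⟩ := h5
    exact h6 hVb
  have hdU : d ∉ Ua := by
    rw [mem_Ua]
    rintro ⟨-, h5⟩
    rw [mem_UU] at h5
    obtain ⟨_, _, _, h6⟩ := h5
    exact h6 hVd
  have hcU : c ∉ Ua := by
    rw [mem_Ua]
    rintro ⟨-, h5⟩
    exact hacU h5
  have hz1U : z1 ∈ Ua := by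
    rw [mem_Ua]
    refine ⟨haz1, ?_⟩
    rw [mem_UU]
    refine ⟨_, h1, mem_pt.mpr ⟨by simp, by simp, haz1.ne⟩, fun h5 => ?_⟩
    rcases hV z1 h5 with h6 | h6
    · exact hbz1.ne' h6
    · exact h1d h6
  have hz4U : z4 ∈ Ua := by
    rw [mem_Ua]
    refine ⟨haz4, ?_⟩
    rw [mem_UU]
    refine ⟨_, h4, mem_pt.mpr ⟨by simp, by simp, haz4.ne⟩, fun h5 => ?_⟩
    rcases hV z4 h5 with h6 | h6
    · exact h4b h6
    · exact hdz4.ne' h6
  -- no boundary
  have hnob : ∀ y ∈ Ua, ∀ y' ∈ nb G a, y' ∉ Ua → G.Adj y y' → y' = b ∨ y' = d := by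
    intro y hy y' hy' hyn hyy
    rw [mem_nb] at hy'
    rw [mem_Ua] at hy
    by_contra hbd'
    refine hcon y y' hy.1 ?_
    rw [mem_inc]
    refine ⟨?_, hy.2, mem_pt.mpr ⟨by simp, by simp, hy.1.ne⟩⟩
    rw [Finset.mem_sdiff]
    refine ⟨mem_TR.mpr (TT_of_adj hy.1 hy' hyy), fun h5 => hyn ?_⟩
    rw [mem_Ua]
    refine ⟨hy', ?_⟩
    rw [mem_UU]
    exact ⟨_, h5, mem_pt.mpr ⟨by simp, by simp, hy'.ne⟩, fun h6 => hbd' (hV y' h6)⟩
  have degb := cubic_of_crit h hab
  have degc := cubic_of_crit h hac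
  have degd := cubic_of_crit h had
  have nb_b := nbrs_eq degb (a := c) (b := d) (c := z1) (mem_nb.mpr hac) (mem_nb.mpr had)
    (mem_nb.mpr haz1) hbc hbd hbz1 hcd.ne h1c.symm h1d.symm
  have nb_d := nbrs_eq degd (a := b) (b := c) (c := z4) (mem_nb.mpr hab) (mem_nb.mpr hac)
    (mem_nb.mpr haz4) hbd.symm hcd.symm hdz4 hbc.ne h4b.symm h4c.symm
  obtain ⟨z5, hz5, hcz5, hz5n⟩ := exists_nbr_notin (n := 2) (by rw [degc]; norm_num) {b, d}
    Finset.card_le_two
  simp only [Finset.mem_insert, Finset.mem_singleton, not_or] at hz5n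
  have haz5 : G.Adj a z5 := mem_nb.mp hz5
  have nb_c := nbrs_eq degc (a := b) (b := d) (c := z5) (mem_nb.mpr hab) (mem_nb.mpr had)
    hz5 hbc.symm hcd hcz5 hbd.ne (Ne.symm hz5n.1) (Ne.symm hz5n.2)
  have hz5U : z5 ∉ Ua := by
    intro h5
    rcases hnob z5 h5 c (mem_nb.mpr hac) hcU hcz5.symm with h6 | h6
    · exact hbc.ne' h6
    · exact hcd.ne h6
  apply hgood
  refine ⟨z5, hz5, hcz5, insert c (insert b (insert d Ua)), ?_, by simp, ?_, ?_⟩
  · intro y hy
    simp only [Finset.mem_insert] at hy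
    rw [mem_nb]
    rcases hy with rfl | rfl | rfl | hy
    · exact hac
    · exact hab
    · exact had
    · exact ((mem_Ua y).mp hy).1
  · simp only [Finset.mem_insert, not_or]
    exact ⟨hcz5.ne', hz5n.1, hz5n.2, hz5U⟩
  · intro p hp q hq hqn hpq
    simp only [Finset.mem_insert, not_or] at hp hqn
    rcases hp with rfl | rfl | rfl | hp
    · refine ⟨rfl, ?_⟩
      rcases nb_c q hq hpq with h6 | h6 | h6
      · exact absurd h6 hqn.2.1
      · exact absurd h6 hqn.2.2.1
      · exact h6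
    · exfalso
      rcases nb_b q hq hpq with h6 | h6 | h6
      · exact hqn.1 h6
      · exact hqn.2.2.1 h6
      · exact hqn.2.2.2 (h6 ▸ hz1U)
    · exfalso
      rcases nb_d q hq hpq with h6 | h6 | h6
      · exact hqn.2.1 h6
      · exact hqn.1 h6
      · exact hqn.2.2.2 (h6 ▸ hz4U)
    · exfalso
      rcases hnob p hp q hq hqn.2.2.2 hpq with h6 | h6
      · exact hqn.2.1 h6
      · exact hqn.2.2.1 h6

theorem outer {p q r t : V} (hpq : G.Adj p q) {B : Finset V} (hB : TT G B)
    (hp : p ∈ B) (hq : q ∈ B) (h1 : B ≠ {p, q, r}) (h2 : B ≠ {p, q, t}) :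
    ∃ z, B = {p, q, z} ∧ G.Adj p z ∧ G.Adj q z ∧ z ≠ r ∧ z ≠ t := by
  obtain ⟨z, hz, -, hpz, hqz⟩ := hB.exists_third hp hq hpq.ne
  refine ⟨z, hz, hpz, hqz, ?_, ?_⟩
  · rintro rfl
    exact h1 hz
  · rintro rfl
    exact h2 hz

theorem outer_unique (h : Crit (EE G) (TR G) pt) {p q r t : V} (hpq : G.Adj p q) (hpr : G.Adj p r)
    (hpt : G.Adj p t) (hqr : G.Adj q r) (hqt : G.Adj q t) (hrt : r ≠ t) {B B' : Finset V}
    (hB : TT G B) (hp : p ∈ B) (hq : q ∈ B) (h1 : B ≠ {p, q, r}) (h2 : B ≠ {p, q, t})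
    (hB' : TT G B') (hp' : p ∈ B') (hq' : q ∈ B') (h1' : B' ≠ {p, q, r}) (h2' : B' ≠ {p, q, t}) :
    B = B' := by
  obtain ⟨z, hz, hpz, hqz, hzr, hzt⟩ := outer (r := r) (t := t) hpq hB hp hq h1 h2
  obtain ⟨z', hz', hpz', hqz', hzr', hzt'⟩ := outer (r := r) (t := t) hpq hB' hp' hq' h1' h2'
  have := nbrs_eq (cubic_of_crit h hpq) (a := r) (b := t) (c := z) (mem_nb.mpr hpr)
    (mem_nb.mpr hpt) (mem_nb.mpr hpz) hqr hqt hqz hrt hzr.symm hzt.symm z' (mem_nb.mpr hpz') hqz'
  rcases this with h | h | h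
  · exact absurd h hzr'
  · exact absurd h hzt'
  · rw [hz, hz', h]

theorem K4_bad (h : Crit (EE G) (TR G) pt) {a b c d : V} (hab : G.Adj a b) (hac : G.Adj a c)
    (had : G.Adj a d) (hbc : G.Adj b c) (hbd : G.Adj b d) (hcd : G.Adj c d) :
    NFv G (nb G a) c ∨ NFv G (nb G c) a := by
  by_contra hcon
  rw [not_or] at hcon
  let VE : Finset (Sym2 V) := {s(a, b), s(b, c), s(c, d), s(a, d)}
  let VT : Finset (Finset V) := {{a, b, c}, {b, c, d}, {a, c, d}, {a, b, d}}
  have m1 : s(a, b) ∈ VE := by simp [VE]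
  have m2 : s(b, c) ∈ VE := by simp [VE]
  have m3 : s(c, d) ∈ VE := by simp [VE]
  have m4 : s(a, d) ∈ VE := by simp [VE]
  have e12 : s(a, b) ≠ s(b, c) := by
    rw [Ne, Sym2.eq_iff]
    rintro (⟨h1, -⟩ | ⟨h1, -⟩)
    · exact hab.ne h1
    · exact hac.ne h1
  have e13 : s(a, b) ≠ s(c, d) := by
    rw [Ne, Sym2.eq_iff]
    rintro (⟨h1, -⟩ | ⟨h1, -⟩)
    · exact hac.ne h1
    · exact had.ne h1
  have e14 : s(a, b) ≠ s(a, d) := by
    rw [Ne, Sym2.eq_iff]
    rintro (⟨-, h1⟩ | ⟨h1, -⟩)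
    · exact hbd.ne h1
    · exact had.ne h1
  have e23 : s(b, c) ≠ s(c, d) := by
    rw [Ne, Sym2.eq_iff]
    rintro (⟨h1, -⟩ | ⟨h1, -⟩)
    · exact hbc.ne h1
    · exact hbd.ne h1
  have e24 : s(b, c) ≠ s(a, d) := by
    rw [Ne, Sym2.eq_iff]
    rintro (⟨h1, -⟩ | ⟨h1, -⟩)
    · exact hab.ne' h1
    · exact hbd.ne h1
  have e34 : s(c, d) ≠ s(a, d) := by
    rw [Ne, Sym2.eq_iff]
    rintro (⟨h1, -⟩ | ⟨h1, -⟩)
    · exact hac.ne' h1
    · exact hcd.ne h1
  let τ : Sym2 V → Bool := fun e => decide (e = s(a, b) ∨ e = s(c, d))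
  have t1 : τ s(a, b) = true := by simp [τ]
  have t2 : τ s(b, c) = false := by
    simp only [τ, decide_eq_false_iff_not, not_or]
    exact ⟨e12.symm, e23⟩
  have t3 : τ s(c, d) = true := by simp [τ]
  have t4 : τ s(a, d) = false := by
    simp only [τ, decide_eq_false_iff_not, not_or]
    exact ⟨e14.symm, e34.symm⟩
  refine h.hall (VE := VE) (VT := VT) ?_ ⟨_, m1⟩ τ ?_ ?_
  · intro e he
    simp only [VE, Finset.mem_insert, Finset.mem_singleton] at he
    rcases he with rfl | rfl | rfl | rfl <;> rw [mem_EE] <;> assumption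
  · intro t ht
    simp only [VT, Finset.mem_insert, Finset.mem_singleton] at ht
    rcases ht with rfl | rfl | rfl | rfl
    · exact ⟨s(a, b), mem_pt.mpr ⟨by simp, by simp, hab.ne⟩, m1, s(b, c),
        mem_pt.mpr ⟨by simp, by simp, hbc.ne⟩, m2, by rw [t1, t2]; simp⟩
    · exact ⟨s(b, c), mem_pt.mpr ⟨by simp, by simp, hbc.ne⟩, m2, s(c, d),
        mem_pt.mpr ⟨by simp, by simp, hcd.ne⟩, m3, by rw [t2, t3]; simp⟩
    · exact ⟨s(c, d), mem_pt.mpr ⟨by simp, by simp, hcd.ne⟩, m3, s(a, d),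
        mem_pt.mpr ⟨by simp, by simp, had.ne⟩, m4, by rw [t3, t4]; simp⟩
    · exact ⟨s(a, b), mem_pt.mpr ⟨by simp, by simp, hab.ne⟩, m1, s(a, d),
        mem_pt.mpr ⟨by simp, by simp, had.ne⟩, m4, by rw [t1, t4]; simp⟩
  · intro S hS
    change (inc pt S VE).card ≤ (inc pt (TR G \ S) (UU VE S)).card + 2
    have hST : ∀ B ∈ S, TT G B := by
      intro B hB
      have := hS hB
      rw [Finset.mem_sdiff, mem_TR] at this
      exact this.1
    have hSn : ∀ B ∈ S, B ≠ {a, b, c} ∧ B ≠ {b, c, d} ∧ B ≠ {a, c, d} ∧ B ≠ {a, b, d} := by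
      intro B hB
      have := (Finset.mem_sdiff.mp (hS hB)).2
      simp only [VT, Finset.mem_insert, Finset.mem_singleton, not_or] at this
      exact this
    have perm3 : ∀ x y z : V, ({x, y, z} : Finset V) = {y, x, z} := by
      intro x y z
      ext q
      simp only [Finset.mem_insert, Finset.mem_singleton]
      tauto
    have perm3' : ∀ x y z : V, ({x, y, z} : Finset V) = {x, z, y} := by
      intro x y z
      ext q
      simp only [Finset.mem_insert, Finset.mem_singleton]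
      tauto
    -- bounds for the number of active blocks on each edge
    set n1 := (S.filter (fun B => s(a, b) ∈ pt B)).card with hn1
    set n2 := (S.filter (fun B => s(b, c) ∈ pt B)).card with hn2
    set n3 := (S.filter (fun B => s(c, d) ∈ pt B)).card with hn3
    set n4 := (S.filter (fun B => s(a, d) ∈ pt B)).card with hn4
    have hsum : (inc pt S VE).card = n1 + (n2 + (n3 + n4)) := by
      rw [card_inc_right]
      simp only [VE]
      rw [Finset.sum_insert, Finset.sum_insert, Finset.sum_insert, Finset.sum_singleton]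
      · simp only [Finset.mem_singleton]
        exact e34
      · simp only [Finset.mem_insert, Finset.mem_singleton, not_or]
        exact ⟨e23, e24⟩
      · simp only [Finset.mem_insert, Finset.mem_singleton, not_or]
        exact ⟨e12, e13, e14⟩
    have l1 : n1 ≤ 1 := by
      rw [hn1, Finset.card_le_one]
      intro B hB B' hB'
      rw [Finset.mem_filter, mem_pt] at hB hB'
      exact outer_unique h hab hac had hbc hbd hcd.ne (hST B hB.1) hB.2.1 hB.2.2.1
        (hSn B hB.1).1 (hSn B hB.1).2.2.2 (hST B' hB'.1) hB'.2.1 hB'.2.2.1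
        (hSn B' hB'.1).1 (hSn B' hB'.1).2.2.2
    have l2 : n2 ≤ 1 := by
      rw [hn2, Finset.card_le_one]
      intro B hB B' hB'
      rw [Finset.mem_filter, mem_pt] at hB hB'
      have p1 : ({b, c, a} : Finset V) = {a, b, c} := by
        rw [perm3' b c a, perm3 b a c]
      refine outer_unique h hbc hab.symm hbd hac.symm hcd had.ne (hST B hB.1) hB.2.1 hB.2.2.1
        ?_ (hSn B hB.1).2.1 (hST B' hB'.1) hB'.2.1 hB'.2.2.1 ?_ (hSn B' hB'.1).2.1
      · rw [p1]; exact (hSn B hB.1).1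
      · rw [p1]; exact (hSn B' hB'.1).1
    have l3 : n3 ≤ 1 := by
      rw [hn3, Finset.card_le_one]
      intro B hB B' hB'
      rw [Finset.mem_filter, mem_pt] at hB hB'
      have p1 : ({c, d, a} : Finset V) = {a, c, d} := by
        rw [perm3' c d a, perm3 c a d]
      have p2 : ({c, d, b} : Finset V) = {b, c, d} := by
        rw [perm3' c d b, perm3 c b d]
      refine outer_unique h hcd hac.symm hbc.symm had.symm hbd.symm hab.ne (hST B hB.1) hB.2.1
        hB.2.2.1 ?_ ?_ (hST B' hB'.1) hB'.2.1 hB'.2.2.1 ?_ ?_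
      · rw [p1]; exact (hSn B hB.1).2.2.1
      · rw [p2]; exact (hSn B hB.1).2.1
      · rw [p1]; exact (hSn B' hB'.1).2.2.1
      · rw [p2]; exact (hSn B' hB'.1).2.1
    have l4 : n4 ≤ 1 := by
      rw [hn4, Finset.card_le_one]
      intro B hB B' hB'
      rw [Finset.mem_filter, mem_pt] at hB hB'
      refine outer_unique h had hab hac hbd.symm hcd.symm hbc.ne (hST B hB.1) hB.2.1
        hB.2.2.1 ?_ ?_ (hST B' hB'.1) hB'.2.1 hB'.2.2.1 ?_ ?_
      · rw [perm3' a d b]; exact (hSn B hB.1).2.2.2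
      · rw [perm3' a d c]; exact (hSn B hB.1).2.2.1
      · rw [perm3' a d b]; exact (hSn B' hB'.1).2.2.2
      · rw [perm3' a d c]; exact (hSn B' hB'.1).2.2.1
    by_cases hacU : s(a, c) ∈ UU VE S
    · -- two missing pairs at `a c`
      have q1 : (({a, b, c} : Finset V), s(a, c)) ∈ inc pt (TR G \ S) (UU VE S) := by
        rw [mem_inc]
        refine ⟨?_, hacU, mem_pt.mpr ⟨by simp, by simp, hac.ne⟩⟩
        rw [Finset.mem_sdiff]
        exact ⟨mem_TR.mpr (TT_of_adj hab hac hbc), fun hc => (hSn _ hc).1 rfl⟩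
      have q2 : (({a, c, d} : Finset V), s(a, c)) ∈ inc pt (TR G \ S) (UU VE S) := by
        rw [mem_inc]
        refine ⟨?_, hacU, mem_pt.mpr ⟨by simp, by simp, hac.ne⟩⟩
        rw [Finset.mem_sdiff]
        exact ⟨mem_TR.mpr (TT_of_adj hac had hcd), fun hc => (hSn _ hc).2.2.1 rfl⟩
      have h2 : 1 < (inc pt (TR G \ S) (UU VE S)).card := by
        refine Finset.one_lt_card.mpr ⟨_, q1, _, q2, ?_⟩
        rw [Ne, Prod.mk.injEq]
        rintro ⟨h3, -⟩
        have h4 : b ∈ ({a, c, d} : Finset V) := by rw [← h3]; simp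
        simp only [Finset.mem_insert, Finset.mem_singleton] at h4
        rcases h4 with h4 | h4 | h4
        · exact hab.ne' h4
        · exact hbc.ne h4
        · exact hbd.ne h4
      omega
    · have hcaU : s(c, a) ∉ UU VE S := by
        rw [Sym2.eq_swap]
        exact hacU
      have getblock : ∀ e : Sym2 V, 1 ≤ (S.filter (fun B => e ∈ pt B)).card →
          ∃ B ∈ S, e ∈ pt B := by
        intro e he
        rw [Nat.succ_le_iff, Finset.card_pos] at he
        obtain ⟨B, hB⟩ := he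
        rw [Finset.mem_filter] at hB
        exact ⟨B, hB.1, hB.2⟩
      have p1 : 1 ≤ n1 → 1 ≤ n4 → ∃ y y', G.Adj a y ∧
          (({a, y, y'} : Finset V), s(a, y)) ∈ inc pt (TR G \ S) (UU VE S) := by
        intro i1 i4
        obtain ⟨B1, hB1, hB1'⟩ := getblock _ i1
        obtain ⟨B4, hB4, hB4'⟩ := getblock _ i4
        rw [mem_pt] at hB1' hB4'
        obtain ⟨z1, hz1, x1, x2, x3, x4⟩ := outer (r := c) (t := d) hab (hST B1 hB1) hB1'.1 hB1'.2.1
          (hSn B1 hB1).1 (hSn B1 hB1).2.2.2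
        obtain ⟨z4, hz4, y1, y2, y3, y4⟩ := outer (r := c) (t := b) had (hST B4 hB4) hB4'.1 hB4'.2.1
          (by rw [perm3' a d c]; exact (hSn B4 hB4).2.2.1)
          (by rw [perm3' a d b]; exact (hSn B4 hB4).2.2.2)
        refine corner h hab hac had hbc hbd hcd m1 m4 ?_ hacU (z1 := z1) (z4 := z4) (hz1 ▸ hB1)
          x3 x4 x1 x2 (hz4 ▸ hB4) y3 y4 y1 y2 hcon.1
        intro y hy
        simp only [VE, Finset.mem_insert, Finset.mem_singleton, Sym2.eq_iff] at hy
        rcases hy with (⟨-, h5⟩ | ⟨h5, -⟩) | (⟨h5, -⟩ | ⟨h5, -⟩) | (⟨h5, -⟩ | ⟨h5, -⟩) |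
          (⟨-, h5⟩ | ⟨h5, -⟩)
        · exact Or.inl h5
        · exact absurd h5 hab.ne
        · exact absurd h5 hab.ne
        · exact absurd h5 hac.ne
        · exact absurd h5 hac.ne
        · exact absurd h5 had.ne
        · exact Or.inr h5
        · exact absurd h5 had.ne
      have p2 : 1 ≤ n2 → 1 ≤ n3 → ∃ y y', G.Adj c y ∧
          (({c, y, y'} : Finset V), s(c, y)) ∈ inc pt (TR G \ S) (UU VE S) := by
        intro i2 i3
        obtain ⟨B2, hB2, hB2'⟩ := getblock _ i2
        obtain ⟨B3, hB3, hB3'⟩ := getblock _ i3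
        rw [mem_pt] at hB2' hB3'
        have r1 : ({c, b, a} : Finset V) = {a, b, c} := by
          rw [perm3' c b a, perm3 c a b, perm3' a c b]
        have r2 : ({c, b, d} : Finset V) = {b, c, d} := by
          rw [perm3 c b d]
        have r3 : ({c, d, a} : Finset V) = {a, c, d} := by
          rw [perm3' c d a, perm3 c a d]
        have r4 : ({c, d, b} : Finset V) = {b, c, d} := by
          rw [perm3' c d b, perm3 c b d]
        obtain ⟨z1, hz1, x1, x2, x3, x4⟩ := outer (r := a) (t := d) hbc.symm (hST B2 hB2)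
          hB2'.2.1 hB2'.1 (by rw [r1]; exact (hSn B2 hB2).1) (by rw [r2]; exact (hSn B2 hB2).2.1)
        obtain ⟨z4, hz4, y1, y2, y3, y4⟩ := outer (r := a) (t := b) hcd (hST B3 hB3) hB3'.1 hB3'.2.1
          (by rw [r3]; exact (hSn B3 hB3).2.2.1)
          (by rw [r4]; exact (hSn B3 hB3).2.1)
        refine corner h hbc.symm hac.symm hcd hab.symm hbd had (by rw [Sym2.eq_swap]; exact m2)
          m3 ?_ hcaU (z1 := z1) (z4 := z4) (hz1 ▸ hB2)
          x3 x4 x1 x2 (hz4 ▸ hB3) y3 y4 y1 y2 hcon.2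
        intro y hy
        simp only [VE, Finset.mem_insert, Finset.mem_singleton, Sym2.eq_iff] at hy
        rcases hy with (⟨h5, -⟩ | ⟨h5, -⟩) | (⟨h5, -⟩ | ⟨-, h5⟩) | (⟨-, h5⟩ | ⟨h5, -⟩) |
          (⟨h5, -⟩ | ⟨h5, -⟩)
        · exact absurd h5 hac.ne'
        · exact absurd h5 hbc.ne'
        · exact absurd h5 hbc.ne'
        · exact Or.inl h5
        · exact Or.inr h5
        · exact absurd h5 hcd.ne
        · exact absurd h5 hac.ne'
        · exact absurd h5 hcd.ne
      by_cases c1 : 1 ≤ n1 ∧ 1 ≤ n4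
      · obtain ⟨y, y', hy, hyi⟩ := p1 c1.1 c1.2
        by_cases c2 : 1 ≤ n2 ∧ 1 ≤ n3
        · obtain ⟨w, w', hw, hwi⟩ := p2 c2.1 c2.2
          have h2 : 1 < (inc pt (TR G \ S) (UU VE S)).card := by
            refine Finset.one_lt_card.mpr ⟨_, hyi, _, hwi, ?_⟩
            rw [Ne, Prod.mk.injEq, Sym2.eq_iff]
            rintro ⟨-, ⟨h5, -⟩ | ⟨-, h5⟩⟩
            · exact hac.ne h5
            · rw [mem_inc] at hyi
              have := hyi.2.1
              simp only at this
              rw [h5] at this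
              exact hacU this
          omega
        · have h1 : 0 < (inc pt (TR G \ S) (UU VE S)).card := Finset.card_pos.mpr ⟨_, hyi⟩
          omega
      · by_cases c2 : 1 ≤ n2 ∧ 1 ≤ n3
        · obtain ⟨w, w', hw, hwi⟩ := p2 c2.1 c2.2
          have h1 : 0 < (inc pt (TR G \ S) (UU VE S)).card := Finset.card_pos.mpr ⟨_, hwi⟩
          omega
        · omega

end

end Pool.Agent.H.MP_0ae2e1_co
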